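import Mathlib

/-!
Averages of `|x|²` over the Galois conjugates of an integral combination of `3^k`-th roots of unity.
-/

open scoped BigOperators
open Finset

noncomputable section

namespace Pool.Agent.Y62

lemma conj_pow_root {m : ℕ} (hm : m ≠ 0) {ζ : ℂ} (hζ : ζ ^ m = 1) :
    (starRingEnd ℂ) ζ = ζ⁻¹ := by
  have h1 : ‖ζ‖ = 1 := Complex.norm_eq_one_of_pow_eq_one hζ hm
  rw [Complex.inv_def, Complex.normSq_eq_norm_sq, h1]
  simp

/-- Parseval's identity for a primitive `m`-th root of unity -/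
lemma parseval {m : ℕ} (hm : m ≠ 0) {ζ : ℂ} (hζ : IsPrimitiveRoot ζ m) (a : ℕ → ℂ) :
    ∑ t ∈ range m, (‖∑ j ∈ range m, a j * ζ ^ (t * j)‖ : ℝ) ^ 2 =
      m * ∑ j ∈ range m, ‖a j‖ ^ 2 := by
  have hz0 : ζ ≠ 0 := hζ.ne_zero hm
  have key : ((∑ t ∈ range m, (‖∑ j ∈ range m, a j * ζ ^ (t * j)‖ : ℝ) ^ 2 : ℝ) : ℂ) =
      ((m * ∑ j ∈ range m, ‖a j‖ ^ 2 : ℝ) : ℂ) := by
    push_cast
    have h1 : ∀ t, ((‖∑ j ∈ range m, a j * ζ ^ (t * j)‖ : ℝ) : ℂ) ^ 2 =
        ∑ j ∈ range m, ∑ i ∈ range m, a j * (starRingEnd ℂ) (a i) * (ζ ^ j * (ζ⁻¹) ^ i) ^ t := by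
      intro t
      rw [← Complex.mul_conj', map_sum, Finset.sum_mul_sum]
      refine Finset.sum_congr rfl fun j _ => Finset.sum_congr rfl fun i _ => ?_
      rw [map_mul, map_pow, conj_pow_root hm hζ.pow_eq_one, mul_pow, ← pow_mul, ← pow_mul,
        mul_comm j t, mul_comm i t]
      ring
    rw [Finset.sum_congr rfl (fun t _ => h1 t), Finset.sum_comm, Finset.mul_sum]
    refine Finset.sum_congr rfl fun j hj => ?_
    rw [Finset.sum_comm, Finset.sum_eq_single j]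
    · rw [inv_pow, mul_inv_cancel₀ (pow_ne_zero _ hz0)]
      simp only [one_pow, mul_one, Finset.sum_const, card_range, nsmul_eq_mul]
      rw [Complex.mul_conj']
    · intro i hi hij
      rw [← Finset.mul_sum]
      have h2 : ζ ^ j * (ζ⁻¹) ^ i ≠ 1 := by
        intro h
        apply hij
        have h3 : ζ ^ j = ζ ^ i := by
          have h4 := congrArg (· * ζ ^ i) h
          simp only [one_mul] at h4
          rw [mul_assoc, ← mul_pow, inv_mul_cancel₀ hz0, one_pow, mul_one] at h4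
          exact h4
        exact (hζ.pow_inj (mem_range.mp hj) (mem_range.mp hi) h3).symm
      have h3 : (ζ ^ j * (ζ⁻¹) ^ i) ^ m = 1 := by
        rw [mul_pow, ← pow_mul, ← pow_mul, mul_comm j, mul_comm i, pow_mul, pow_mul, inv_pow,
          hζ.pow_eq_one]
        simp
      have h4 := geom_sum_mul (ζ ^ j * (ζ⁻¹) ^ i) m
      rw [h3, sub_self] at h4
      rcases mul_eq_zero.mp h4 with h5 | h5
      · rw [h5, mul_zero]
      · exact absurd (sub_eq_zero.mp h5) h2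
    · intro h
      exact absurd hj h
  exact_mod_cast key

lemma sum_range_three_mul {A : Type*} [AddCommMonoid A] (q : ℕ) (f : ℕ → A) :
    ∑ j ∈ range (3 * q), f j = ∑ c ∈ range q, (f c + f (c + q) + f (c + 2 * q)) := by
  have e : 3 * q = q + q + q := by ring
  rw [e, Finset.sum_range_add, Finset.sum_range_add, ← Finset.sum_add_distrib,
    ← Finset.sum_add_distrib]
  refine Finset.sum_congr rfl fun c _ => ?_
  have e1 : q + c = c + q := by ring
  have e2 : q + q + c = c + 2 * q := by ring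
  rw [e1, e2]

lemma sum_range_three_mul' {A : Type*} [AddCommMonoid A] (q : ℕ) (f : ℕ → A) :
    ∑ j ∈ range (3 * q), f j = ∑ j ∈ (range (3 * q)).filter (fun t => ¬ 3 ∣ t), f j +
      ∑ c ∈ range q, f (3 * c) := by
  rw [← Finset.sum_filter_add_sum_filter_not (range (3 * q)) (fun t => ¬ 3 ∣ t) f]
  congr 1
  symm
  apply Finset.sum_bij (fun c _ => 3 * c)
  · intro c hc
    rw [mem_range] at hc
    simp only [mem_filter, mem_range]
    exact ⟨by omega, fun h => h ⟨c, rfl⟩⟩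
  · intro a _ b _ h
    omega
  · intro b hb
    simp only [mem_filter, mem_range, not_not] at hb
    obtain ⟨c, rfl⟩ := hb.2
    exact ⟨c, mem_range.mpr (by omega), rfl⟩
  · intro c _
    rfl

/-- exact value of the sum over the conjugates -/
lemma avg_eq {q : ℕ} (hq : q ≠ 0) {ζ : ℂ} (hζ : IsPrimitiveRoot ζ (3 * q)) (n : ℕ → ℤ) :
    ∑ t ∈ (range (3 * q)).filter (fun t => ¬ 3 ∣ t),
      (‖∑ j ∈ range (3 * q), (n j : ℂ) * ζ ^ (t * j)‖ : ℝ) ^ 2 =
    q * ∑ c ∈ range q, (((n c - n (c + q)) ^ 2 + (n (c + q) - n (c + 2 * q)) ^ 2 +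
      (n (c + 2 * q) - n c) ^ 2 : ℤ) : ℝ) := by
  have h1 := parseval (by omega) hζ (fun j => (n j : ℂ))
  rw [sum_range_three_mul'] at h1
  have hζ3 : IsPrimitiveRoot (ζ ^ 3) q := hζ.pow (by omega) rfl
  have h2 : ∀ c, ∑ j ∈ range (3 * q), (n j : ℂ) * ζ ^ (3 * c * j) =
      ∑ j ∈ range q, ((n j + n (j + q) + n (j + 2 * q) : ℤ) : ℂ) * (ζ ^ 3) ^ (c * j) := by
    intro c
    rw [sum_range_three_mul]
    refine Finset.sum_congr rfl fun j _ => ?_
    have e1 : ζ ^ (3 * c * (j + q)) = (ζ ^ 3) ^ (c * j) := by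
      rw [← pow_mul]
      have : 3 * c * (j + q) = 3 * (c * j) + (3 * q) * c := by ring
      rw [this, pow_add, pow_mul ζ (3 * q), hζ.pow_eq_one, one_pow, mul_one]
    have e2 : ζ ^ (3 * c * (j + 2 * q)) = (ζ ^ 3) ^ (c * j) := by
      rw [← pow_mul]
      have : 3 * c * (j + 2 * q) = 3 * (c * j) + (3 * q) * (2 * c) := by ring
      rw [this, pow_add, pow_mul ζ (3 * q), hζ.pow_eq_one, one_pow, mul_one]
    have e3 : ζ ^ (3 * c * j) = (ζ ^ 3) ^ (c * j) := by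
      rw [← pow_mul]
      congr 1
      ring
    rw [e1, e2, e3]
    push_cast
    ring
  have h3 := parseval hq hζ3 (fun j => ((n j + n (j + q) + n (j + 2 * q) : ℤ) : ℂ))
  simp only [h2] at h1
  rw [h3] at h1
  have h4 : ∀ z : ℤ, ‖(z : ℂ)‖ ^ 2 = (z : ℝ) ^ 2 := by
    intro z
    rw [Complex.norm_intCast, sq_abs]
  simp only [h4] at h1
  rw [sum_range_three_mul q (fun j => (n j : ℝ) ^ 2)] at h1
  push_cast at h1
  push_cast
  rw [Finset.mul_sum] at h1 ⊢
  rw [Finset.mul_sum] at h1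
  have h5 : ∀ A B C : ℝ, A + B = C → A = C - B := fun A B C h => by linarith
  rw [h5 _ _ _ h1, ← Finset.sum_sub_distrib]
  refine Finset.sum_congr rfl fun c _ => ?_
  ring

/-- the average over the conjugates is at least one -/
theorem avg_ge {q : ℕ} (hq : q ≠ 0) {ζ : ℂ} (hζ : IsPrimitiveRoot ζ (3 * q)) (n : ℕ → ℤ)
    (hx : ∑ j ∈ range (3 * q), (n j : ℂ) * ζ ^ j ≠ 0) :
    (2 * q : ℝ) ≤ ∑ t ∈ (range (3 * q)).filter (fun t => ¬ 3 ∣ t),
      (‖∑ j ∈ range (3 * q), (n j : ℂ) * ζ ^ (t * j)‖ : ℝ) ^ 2 := by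
  rw [avg_eq hq hζ]
  obtain ⟨c, hc, hne⟩ : ∃ c ∈ range q, ¬ (n c = n (c + q) ∧ n (c + q) = n (c + 2 * q)) := by
    by_contra hcon
    push Not at hcon
    apply hx
    rw [sum_range_three_mul]
    have hω : IsPrimitiveRoot (ζ ^ q) 3 := hζ.pow (by omega) (by ring)
    have hω1 : 1 + ζ ^ q + (ζ ^ q) ^ 2 = 0 := by
      have := hω.geom_sum_eq_zero (by norm_num)
      rw [Finset.sum_range_succ, Finset.sum_range_succ, Finset.sum_range_one] at this
      simpa using this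
    apply Finset.sum_eq_zero
    intro c hc
    obtain ⟨h1, h2⟩ := hcon c hc
    rw [← h2, ← h1]
    have e : (n c : ℂ) * ζ ^ c + (n c : ℂ) * ζ ^ (c + q) + (n c : ℂ) * ζ ^ (c + 2 * q) =
        (n c : ℂ) * ζ ^ c * (1 + ζ ^ q + (ζ ^ q) ^ 2) := by
      rw [pow_add, pow_add, mul_comm 2 q, pow_mul]
      ring
    rw [e, hω1, mul_zero]
  have hpos : ∀ i ∈ range q, (0 : ℝ) ≤ (((n i - n (i + q)) ^ 2 + (n (i + q) - n (i + 2 * q)) ^ 2 +
      (n (i + 2 * q) - n i) ^ 2 : ℤ) : ℝ) := by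
    intro i _
    have : (0 : ℤ) ≤ (n i - n (i + q)) ^ 2 + (n (i + q) - n (i + 2 * q)) ^ 2 +
      (n (i + 2 * q) - n i) ^ 2 := by positivity
    exact_mod_cast this
  have h1 := Finset.single_le_sum hpos hc
  have h2 : (2 : ℤ) ≤ (n c - n (c + q)) ^ 2 + (n (c + q) - n (c + 2 * q)) ^ 2 +
      (n (c + 2 * q) - n c) ^ 2 := by
    set x := n c - n (c + q) with hx1
    set y := n (c + q) - n (c + 2 * q) with hy1
    have hz : n (c + 2 * q) - n c = -(x + y) := by rw [hx1, hy1]; ring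
    rw [hz]
    have hxy : ¬ (x = 0 ∧ y = 0) := by
      rintro ⟨h3, h4⟩
      apply hne
      exact ⟨by linarith [sub_eq_zero.mp h3], by linarith [sub_eq_zero.mp h4]⟩
    have hpos' : 0 < x ^ 2 + x * y + y ^ 2 := by
      rcases eq_or_ne y 0 with h3 | h3
      · have h4 : x ≠ 0 := fun h => hxy ⟨h, h3⟩
        rw [h3]
        have : 0 < x ^ 2 := by positivity
        linarith
      · have h4 : 0 < y ^ 2 := by positivity
        nlinarith [sq_nonneg (2 * x + y)]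
    nlinarith [hpos']
  have h3 : (2 : ℝ) ≤ (((n c - n (c + q)) ^ 2 + (n (c + q) - n (c + 2 * q)) ^ 2 +
      (n (c + 2 * q) - n c) ^ 2 : ℤ) : ℝ) := by exact_mod_cast h2
  have h4 : (0 : ℝ) ≤ q := Nat.cast_nonneg q
  nlinarith [h1, h3, h4]

end Pool.Agent.Y62
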