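import Pool.Agent.Y62.Low2

/-!
The chain of subgroups of the defect group, and the character `θ` below all characters of height
zero.
-/

set_option linter.style.haveILetI false
set_option linter.unusedSectionVars false

open scoped BigOperators Classical
open Pool.Agent.Helper884 Representation Pool.Agent.H254R3.IN

noncomputable section

namespace Pool.Agent.Y62

variable {G : Type} [Group G] [Fintype G]

/-- the 3-regular elements form a subgroup in the presence of a central Sylow 3-subgroup of order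
three -/
lemma exists_regular {K : Type} [Group K] [Finite K] {z : K} (hz : orderOf z = 3)
    (hc : ∀ k, Commute z k) (h9 : ¬ 9 ∣ Nat.card K) : ∃ L : Subgroup K, ∀ s, s ∈ L ↔ ¬ 3 ∣ orderOf s := by
  have hzp : IsPGroup 3 (Subgroup.zpowers z) :=
    IsPGroup.of_card (n := 1) (by rw [Nat.card_zpowers, hz, pow_one])
  have hidx : ¬ 3 ∣ (Subgroup.zpowers z).index := by
    intro h
    have h1 := Subgroup.card_mul_index (Subgroup.zpowers z)
    rw [Nat.card_zpowers, hz] at h1
    apply h9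
    rw [← h1]
    obtain ⟨c, hc⟩ := h
    rw [hc]
    exact ⟨c, by ring⟩
  let P : Sylow 3 K := hzp.toSylow hidx
  have hPz : (P : Subgroup K) = Subgroup.zpowers z := IsPGroup.toSylow_coe _ _
  have hP : Subgroup.normalizer ((P : Subgroup K) : Set K) ≤
      Subgroup.centralizer ((P : Subgroup K) : Set K) := by
    intro x _
    rw [Subgroup.mem_centralizer_iff]
    intro u hu
    have hu' : u ∈ Subgroup.zpowers z := by rw [← hPz]; exact hu
    obtain ⟨i, rfl⟩ := Subgroup.mem_zpowers_iff.mp hu'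
    exact ((hc x).zpow_left i).eq
  refine ⟨(MonoidHom.transferSylow P hP).ker, fun s => ⟨fun hs h3 => ?_, fun hs => ?_⟩⟩
  · apply MonoidHom.not_dvd_card_ker_transferSylow P hP
    refine h3.trans ?_
    exact Subgroup.orderOf_dvd_natCard _ hs
  · rw [MonoidHom.mem_ker]
    have h1 : orderOf (MonoidHom.transferSylow P hP s) ∣ orderOf s := orderOf_map_dvd _ s
    have h2 : orderOf (MonoidHom.transferSylow P hP s) ∣ 3 := by
      have := orderOf_dvd_natCard (MonoidHom.transferSylow P hP s)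
      have h3 : Nat.card P = 3 := by
          rw [hPz, Nat.card_zpowers, hz]
      rwa [h3] at this
    rcases (Nat.dvd_prime Nat.prime_three).mp h2 with h | h
    · exact orderOf_eq_one_iff.mp h
    · exfalso
      rw [h] at h1
      exact hs h1

/-- transport of the inner products along an isomorphism -/
lemma ips_equiv {H : Subgroup G} {K : Type} [Group K] [Fintype K] (e : K ≃* H) (y : G) (χ : G → ℂ)
    (θ : H → ℂ) : ips H y χ θ = (Nat.card K : ℂ)⁻¹ * ∑ k : K, χ (y * ((e k : H) : G)) * θ (e k⁻¹) := by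
  unfold ips
  rw [Nat.card_congr e.toEquiv]
  congr 1
  symm
  refine Fintype.sum_equiv e.toEquiv _ _ fun k => ?_
  change _ = χ (y * ((e k : H) : G)) * θ (e k)⁻¹
  rw [map_inv]

section step

variable {O : ValuationSubring ℂ} {p : ℕ} [hp : Fact p.Prime]

/-- the statement that some character of `K` lies below all members of `S` modulo `p` -/
def PP (O : ValuationSubring ℂ) (S : Set (G → ℂ)) (K : Subgroup G) : Prop :=
  ∃ θ : K → ℂ, IsIrr θ ∧ ∀ χ ∈ S, red O (ips K 1 χ θ) ≠ 0

lemma irr_isCl {χ : G → ℂ} (hχ : IsIrr χ) : IsCl χ := fun g y => by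
  obtain ⟨V, _, _, _, ρ, hr, rfl⟩ := hχ
  exact Representation.char_conj ρ g y

/-- one step of the chain -/
theorem PP_step (hpO : (p : ℂ) ∈ O.nonunits) {K K' A : Subgroup G} (hA : IsPGroup p A)
    (hAK : ∀ a ∈ A, ∀ x, x ∈ K → a * x * a⁻¹ ∈ K)
    (hK' : ∀ x, x ∈ K' ↔ x ∈ K ∧ ∀ a ∈ A, a * x * a⁻¹ = x) (hKp : ¬ p ∣ Nat.card K)
    {S : Set (G → ℂ)} (hS : ∀ χ ∈ S, IsIrr χ) (hne : S.Nonempty) (h : PP O S K') : PP O S K := by
  have hA' : A ≤ Subgroup.normalizer (K : Set G) := by
    intro a ha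
    rw [Subgroup.mem_normalizer_iff]
    intro x
    refine ⟨hAK a ha x, fun h => ?_⟩
    have h1 := hAK a⁻¹ (A.inv_mem ha) _ h
    have h2 : a⁻¹ * (a * x * a⁻¹) * a⁻¹⁻¹ = x := by group
    rwa [h2] at h1
  let φ : A →* MulAut K := K.normalizerMonoidHom.comp (Subgroup.inclusion hA')
  have hφ : ∀ (a : A) (x : K), ((φ a x : K) : G) = (a : G) * x * (a : G)⁻¹ := fun a x => rfl
  obtain ⟨η, hη, hη0⟩ := h
  -- the isomorphism with the fixed points
  have hmem : ∀ x : K, x ∈ fixS φ ↔ (x : G) ∈ K' := by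
    intro x
    rw [mem_fixS, hK']
    constructor
    · intro h
      refine ⟨x.2, fun a ha => ?_⟩
      have := congrArg Subtype.val (h ⟨a, ha⟩)
      rwa [hφ] at this
    · rintro ⟨-, h⟩ a
      apply Subtype.ext
      rw [hφ]
      exact h a a.2
  let e : fixS φ ≃* K' :=
    { toFun := fun x => ⟨((x : K) : G), (hmem x).mp x.2⟩
      invFun := fun x => ⟨⟨(x : G), ((hK' x).mp x.2).1⟩, (hmem _).mpr x.2⟩
      left_inv := fun x => rfl
      right_inv := fun x => rfl
      map_mul' := fun x y => rfl }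
  have he : ∀ x : fixS φ, ((e x : K') : G) = ((x : K) : G) := fun x => rfl
  have hcardO : ((Nat.card K : ℕ) : ℂ)⁻¹ ∈ O := nat_inv_mem hpO hKp
  obtain ⟨θ, hθ, hθ0⟩ := glaub_step φ hpO hA hKp ((fun χ : G → ℂ => fun x : K => χ x) '' S)
    (hne.image _)
    (by
      rintro _ ⟨χ, hχ, rfl⟩
      intro g y
      exact irr_isCl (hS χ hχ) (g : G) (y : G))
    (by
      rintro _ ⟨χ, hχ, rfl⟩
      intro a x
      change χ ((φ a x : K) : G) = χ x
      rw [hφ]
      exact irr_isCl (hS χ hχ) (x : G) (a : G))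
    (by
      rintro _ ⟨χ, hχ, rfl⟩
      intro θ hθ
      exact O.mul_mem _ _ hcardO
        (sum_mem fun g _ => O.mul_mem _ _ ((hS χ hχ).val_mem O _) (hθ.val_mem O _)))
    (irr_comp hη e)
    (by
      rintro _ ⟨χ, hχ, rfl⟩
      have h1 := hη0 χ hχ
      rw [ips_equiv e] at h1
      have h2 : ips (fixS φ) 1 (fun x : K => χ x) (fun x => η (e x)) =
          (Nat.card (fixS φ) : ℂ)⁻¹ * ∑ k : fixS φ, χ (1 * ((e k : K') : G)) * η (e k⁻¹) := by
        rfl
      rw [h2]
      exact h1)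
  refine ⟨θ, hθ, fun χ hχ => ?_⟩
  have h1 := hθ0 _ ⟨χ, hχ, rfl⟩
  have h2 : ips K 1 χ θ = IC.B (fun x : K => χ x) θ := by
    unfold ips IC.B
    simp only [one_mul]
  rw [h2]
  exact h1

end step

namespace Core

variable {O : ValuationSubring ℂ} {N D : Subgroup G} {y : G} {B : Set (G → ℂ)}
  (c : Core O N D y B)

/-- the characters of height zero -/
def S0 (O : ValuationSubring ℂ) (D : Subgroup G) (B : Set (G → ℂ)) : Set (G → ℂ) :=
  {χ | χ ∈ B ∧ red O (uu D χ) ≠ 0}

include c

lemma S0_ne : (S0 O D B).Nonempty := by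
  obtain ⟨χ, hχ, h⟩ := c.hne
  exact ⟨χ, hχ, h⟩

lemma S0_irr : ∀ χ ∈ S0 O D B, IsIrr χ := fun _ hχ => c.irr hχ.1

/-- an element of order three of `N` in the centre of `D` -/
lemma exists_z : ∃ z, orderOf z = 3 ∧ z ∈ D ∧ z ∈ N ∧ ∀ d ∈ D, Commute z d := by
  haveI := c.hN
  have hN := c.hN
  letI : MulAction D ((D ⊓ N : Subgroup G) : Type) :=
    { smul := fun d x => ⟨(d : G) * x * (d : G)⁻¹,
        D.mul_mem (D.mul_mem d.2 x.2.1) (D.inv_mem d.2), hN.conj_mem _ x.2.2 _⟩
      one_smul := fun x => Subtype.ext (by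
        change ((1 : D) : G) * (x : G) * ((1 : D) : G)⁻¹ = x
        simp)
      mul_smul := fun a b x => Subtype.ext (by
        change ((a * b : D) : G) * (x : G) * ((a * b : D) : G)⁻¹ =
          (a : G) * ((b : G) * (x : G) * (b : G)⁻¹) * (a : G)⁻¹
        rw [Subgroup.coe_mul]
        group) }
  have hsm : ∀ (d : D) (x : (D ⊓ N : Subgroup G)), ((d • x : (D ⊓ N : Subgroup G)) : G) =
      (d : G) * x * (d : G)⁻¹ := fun _ _ => rfl
  have h3 : 3 ∣ Nat.card (D ⊓ N : Subgroup G) := by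
    have h1 : IsPGroup 3 (D ⊓ N : Subgroup G) := c.hD.to_le inf_le_left
    obtain ⟨k, hk⟩ := h1.exists_card_eq
    rw [hk]
    apply dvd_pow_self
    rintro rfl
    rw [pow_zero] at hk
    exact c.hDN (Subgroup.eq_bot_of_card_eq _ hk)
  have h1 : (1 : (D ⊓ N : Subgroup G)) ∈ MulAction.fixedPoints D ((D ⊓ N : Subgroup G) : Type) := by
    intro d
    apply Subtype.ext
    rw [hsm]
    simp
  obtain ⟨b, hb, hb1⟩ := c.hD.exists_fixed_point_of_prime_dvd_card_of_fixed_point
    ((D ⊓ N : Subgroup G) : Type) h3 h1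
  have hbD : (b : G) ∈ D := b.2.1
  have hbN : (b : G) ∈ N := b.2.2
  have hbne : (b : G) ≠ 1 := fun h => hb1 (Subtype.ext h.symm)
  obtain ⟨k, hk⟩ : ∃ k, orderOf (b : G) = 3 ^ k := by
    obtain ⟨k, hk⟩ := c.hD.exists_card_eq
    have h1 : orderOf (b : G) ∣ Nat.card D := Subgroup.orderOf_dvd_natCard D hbD
    rw [hk] at h1
    obtain ⟨j, _, hj⟩ := (Nat.dvd_prime_pow Nat.prime_three).mp h1
    exact ⟨j, hj⟩
  have hk0 : k ≠ 0 := by
    rintro rfl
    rw [pow_zero] at hk
    exact hbne (orderOf_eq_one_iff.mp hk)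
  obtain ⟨j, rfl⟩ := Nat.exists_eq_succ_of_ne_zero hk0
  refine ⟨(b : G) ^ 3 ^ j, ?_, D.pow_mem hbD _, N.pow_mem hbN _, fun d hd => ?_⟩
  · rw [orderOf_pow_of_dvd (pow_ne_zero _ (by norm_num)) (by rw [hk, pow_succ]; exact dvd_mul_right _ _),
      hk, Nat.succ_eq_add_one, pow_succ, Nat.mul_div_cancel_left _ (pow_pos (by norm_num) _)]
  · apply Commute.pow_left
    have h2 := congrArg Subtype.val (hb ⟨d, hd⟩)
    rw [hsm] at h2
    change (b : G) * d = d * b
    have h3 : d * (b : G) * d⁻¹ = b := h2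
    rw [mul_inv_eq_iff_eq_mul] at h3
    exact h3.symm

/-- 3-regular elements lie in `N` -/
lemma regular_mem_N {s : G} (hs : ¬ 3 ∣ orderOf s) : s ∈ N := by
  obtain ⟨l, hl⟩ := c.exists_lin
  obtain ⟨k, hk⟩ := c.ord_y
  rw [← hl s]
  refine c.lin_regular hl (k := k) (fun g => ?_) hs
  have h1 : l ^ 3 ^ k = 1 := by
    rw [c.pow_eq_one_iff' hl l (fun g hg => (hl g).mpr hg), ← map_pow, ← hk, pow_orderOf_eq_one,
      map_one]
  have := congrArg (fun f : G →* ℂˣ => f g) h1
  simpa using this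

/-- the subgroup of 3-regular elements centralising `y` and `z` -/
lemma exists_L {z : G} (hz : orderOf z = 3) (hzN : z ∈ N) (hzy : Commute z y) :
    ∃ L : Subgroup G, ∀ s, s ∈ L ↔ Commute y s ∧ Commute z s ∧ ¬ 3 ∣ orderOf s := by
  let K : Subgroup G := Subgroup.centralizer ({y} : Set G) ⊓ Subgroup.centralizer ({z} : Set G) ⊓ N
  have hcy : ∀ x, x ∈ Subgroup.centralizer ({y} : Set G) ↔ Commute y x := by
    intro x
    rw [Subgroup.mem_centralizer_iff]
    simp only [Set.mem_singleton_iff, forall_eq]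
    exact Iff.rfl
  have hcz : ∀ x, x ∈ Subgroup.centralizer ({z} : Set G) ↔ Commute z x := by
    intro x
    rw [Subgroup.mem_centralizer_iff]
    simp only [Set.mem_singleton_iff, forall_eq]
    exact Iff.rfl
  have hzK : z ∈ K := ⟨⟨(hcy z).mpr hzy.symm, (hcz z).mpr (Commute.refl z)⟩, hzN⟩
  have hK9 : ¬ 9 ∣ Nat.card K := by
    intro h
    apply c.h9
    refine h.trans (Subgroup.card_dvd_of_le ?_)
    intro x hx
    exact ⟨hx.1.1, hx.2⟩
  obtain ⟨L, hL⟩ := exists_regular (K := K) (z := ⟨z, hzK⟩) (by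
      rw [← Subgroup.orderOf_coe]; exact hz)
    (fun k => Subtype.ext (((hcz _).mp k.2.1.2).eq)) hK9
  refine ⟨L.map K.subtype, fun s => ⟨?_, ?_⟩⟩
  · rintro ⟨s, hs, rfl⟩
    refine ⟨(hcy _).mp s.2.1.1, (hcz _).mp s.2.1.2, ?_⟩
    have := (hL s).mp hs
    rwa [← Subgroup.orderOf_coe] at this
  · rintro ⟨h1, h2, h3⟩
    have hsK : s ∈ K := ⟨⟨(hcy s).mpr h1, (hcz s).mpr h2⟩, c.regular_mem_N h3⟩
    exact ⟨⟨s, hsK⟩, (hL _).mpr (by rw [← Subgroup.orderOf_coe]; exact h3), rfl⟩

/-- the base of the chain -/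
lemma PP_base {K : Subgroup G} (hK : ∀ s, s ∈ K ↔ s ∈ Subgroup.centralizer (D : Set G) ∧
    ¬ 3 ∣ orderOf s) : PP O (S0 O D B) K := by
  obtain ⟨s, hs, hkk, hω⟩ := c.exists_s
  obtain ⟨χ₀, hχ₀⟩ := c.S0_ne
  have hKp : ¬ 3 ∣ Nat.card K := not_dvd_card_of_regular (p := 3) fun s hs => ((hK s).mp hs).2
  have hcomm : ∀ h ∈ K, Commute (1 : G) h := fun h _ => Commute.one_left h
  have horder : orderOf (1 : G) = 3 ^ 0 := by rw [orderOf_one, pow_zero]
  have hkO : ∀ x : K, ((kk D (x : G) : ℕ) : ℂ) ∈ O := fun x => natCast_mem' _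
  have hval : ∀ χ ∈ S0 O D B, ∀ x : K, red O (χ x) =
      red O (uu D χ) * (red O (omega χ₀ x) * red O ((kk D (x : G) : ℕ) : ℂ)) := by
    intro χ hχ x
    have hi := c.irr hχ.1
    have h1 : χ x = omega χ x * uu D χ * kk D (x : G) :=
      val_eq_kk hi (IsConj.refl _) ((hK x).mp x.2).1
    rw [h1, red_mul (O.mul_mem _ _ (hi.omega_mem O _) (c.hu χ hχ.1)) (hkO x),
      red_mul (hi.omega_mem O _) (c.hu χ hχ.1), c.hB.red_eq hχ.1 hχ₀.1]
    ring
  have hips : ∀ χ ∈ S0 O D B, ∀ θ : K → ℂ, IsIrr θ → red O (ips K 1 χ θ) =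
      red O (uu D χ) * (red O ((Nat.card K : ℂ)⁻¹) * ∑ x : K,
        (red O (omega χ₀ x) * red O ((kk D (x : G) : ℕ) : ℂ)) * red O (θ x⁻¹)) := by
    intro χ hχ θ hθ
    have hi := c.irr hχ.1
    unfold ips
    rw [red_mul (nat_inv_mem (p := 3) c.hO hKp) (sum_mem fun h _ => O.mul_mem _ _ (hi.val_mem O _)
      (hθ.val_mem O _)), red_sum _ _ (fun h _ => O.mul_mem _ _ (hi.val_mem O _)
      (hθ.val_mem O _))]
    rw [Finset.sum_congr rfl (g := fun x : K => red O (uu D χ) *
      ((red O (omega χ₀ x) * red O ((kk D (x : G) : ℕ) : ℂ)) * red O (θ x⁻¹))) (fun x _ => by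
        rw [red_mul (hi.val_mem O _) (hθ.val_mem O _), one_mul, hval χ hχ x]
        ring)]
    rw [← Finset.mul_sum]
    ring
  -- some character is good
  have hex : ∃ θ : K → ℂ, IsIrr θ ∧ red O (ips K 1 χ₀ θ) ≠ 0 := by
    by_contra hcon
    push Not at hcon
    have hsK : s ∈ K := (hK s).mpr ⟨hs.2, hs.1⟩
    have hi := c.irr hχ₀.1
    have h1 := val_expand hi hcomm ⟨s, hsK⟩
    rw [one_mul] at h1
    have h2 := congrArg (red O) h1
    rw [red_sum _ _ (fun θ hθ => by
      have := (ips_red (p := 3) c.hO hi hcomm horder (IC.mem_Irr.mp hθ) 1).1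
      rw [pow_one] at this
      exact O.mul_mem _ _ this (IsIrr.val_mem (IC.mem_Irr.mp hθ) O _))] at h2
    rw [Finset.sum_eq_zero] at h2
    · rw [hval χ₀ hχ₀ ⟨s, hsK⟩] at h2
      have hk : red O ((kk D s : ℕ) : ℂ) ≠ 0 := by rw [red_natCast]; exact hkk
      exact (mul_ne_zero hχ₀.2 (mul_ne_zero (hω χ₀ hχ₀.1) hk)) h2
    · intro θ hθ
      have hθ' : IsIrr θ := IC.mem_Irr.mp hθ
      have := (ips_red (p := 3) c.hO hi hcomm horder hθ' 1).1
      rw [pow_one] at this
      rw [red_mul this (hθ'.val_mem O _), hcon θ hθ', zero_mul]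
  obtain ⟨θ, hθ, hθ0⟩ := hex
  refine ⟨θ, hθ, fun χ hχ => ?_⟩
  rw [hips χ₀ hχ₀ θ hθ] at hθ0
  rw [hips χ hχ θ hθ]
  exact mul_ne_zero hχ.2 (right_ne_zero_of_mul hθ0)

/-- **The chain**: descending from `D` -/
theorem PP_chain {z : G} (hzD : z ∈ D) {L : Subgroup G}
    (hL : ∀ s, s ∈ L ↔ Commute y s ∧ Commute z s ∧ ¬ 3 ∣ orderOf s) :
    ∀ n : ℕ, ∀ R : Subgroup G, y ∈ R → z ∈ R → R ≤ D → Nat.card D - Nat.card R ≤ n →
      PP O (S0 O D B) (L ⊓ Subgroup.centralizer (R : Set G)) := by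
  have hmem : ∀ R : Subgroup G, y ∈ R → z ∈ R → ∀ s,
      s ∈ L ⊓ Subgroup.centralizer (R : Set G) ↔ s ∈ Subgroup.centralizer (R : Set G) ∧
        ¬ 3 ∣ orderOf s := by
    intro R hyR hzR s
    rw [Subgroup.mem_inf, hL]
    constructor
    · rintro ⟨⟨_, _, h⟩, h'⟩
      exact ⟨h', h⟩
    · rintro ⟨h, h'⟩
      exact ⟨⟨Subgroup.mem_centralizer_iff.mp h y hyR, Subgroup.mem_centralizer_iff.mp h z hzR, h'⟩,
        h⟩
  intro n
  induction n with
  | zero =>
    intro R hyR hzR hRD hn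
    have hcard : Nat.card D ≤ Nat.card R := by omega
    have hR : R = D := Subgroup.eq_of_le_of_card_ge hRD hcard
    subst hR
    exact c.PP_base (hmem R hyR hzR)
  | succ n ih =>
    intro R hyR hzR hRD hn
    by_cases hR : R = D
    · subst hR
      exact c.PP_base (hmem R hyR hzR)
    · -- the normaliser grows
      have hnil : Group.IsNilpotent D := c.hD.isNilpotent
      have hnc := Group.normalizerCondition_of_isNilpotent (G := D)
      have hlt : R.subgroupOf D < ⊤ := by
        rw [lt_top_iff_ne_top]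
        intro h
        apply hR
        exact le_antisymm hRD (Subgroup.subgroupOf_eq_top.mp h)
      have h1 := hnc _ hlt
      obtain ⟨g, hg, hgR⟩ := SetLike.exists_of_lt h1
      rw [Subgroup.mem_normalizer_iff] at hg
      let A : Subgroup G := D ⊓ Subgroup.normalizer (R : Set G)
      have hRA : R ≤ A := le_inf hRD Subgroup.le_normalizer
      have hgA : (g : G) ∈ A := by
        refine ⟨g.2, ?_⟩
        change (g : G) ∈ Subgroup.normalizer (R : Set G)
        rw [Subgroup.mem_normalizer_iff]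
        intro x
        constructor
        · intro hx
          have := (hg ⟨x, hRD hx⟩).mp hx
          exact this
        · intro hx
          have hxD : x ∈ D := by
            have h2 : x = (g : G)⁻¹ * ((g : G) * x * (g : G)⁻¹) * g := by group
            rw [h2]
            exact D.mul_mem (D.mul_mem (D.inv_mem g.2) (hRD hx)) g.2
          exact (hg ⟨x, hxD⟩).mpr hx
      have hcardlt : Nat.card R < Nat.card A := by
        by_contra hcon
        push Not at hcon
        have : R = A := Subgroup.eq_of_le_of_card_ge hRA hcon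
        apply hgR
        rw [Subgroup.mem_subgroupOf, this]
        exact hgA
      have hcardle : Nat.card A ≤ Nat.card D := Subgroup.card_le_of_le inf_le_left
      have h2 := ih A (hRA hyR) (hRA hzR) inf_le_left (by omega)
      have hKp : ¬ 3 ∣ Nat.card (L ⊓ Subgroup.centralizer (R : Set G) : Subgroup G) :=
        not_dvd_card_of_regular (p := 3) fun s hs => ((hmem R hyR hzR s).mp hs).2
      refine PP_step (p := 3) c.hO (K' := L ⊓ Subgroup.centralizer (A : Set G)) (A := A)
        (c.hD.to_le inf_le_left) ?_ ?_ hKp c.S0_irr c.S0_ne h2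
      · intro a ha x hx
        rw [hmem R hyR hzR] at hx ⊢
        refine ⟨?_, ?_⟩
        · rw [Subgroup.mem_centralizer_iff]
          intro r hr
          have haN : a ∈ Subgroup.normalizer (R : Set G) := ha.2
          rw [Subgroup.mem_normalizer_iff] at haN
          have h3 : a⁻¹ * r * a ∈ R := by
            rw [haN]
            have : a * (a⁻¹ * r * a) * a⁻¹ = r := by group
            rw [this]
            exact hr
          have h4 := Subgroup.mem_centralizer_iff.mp hx.1 _ h3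
          calc r * (a * x * a⁻¹) = a * ((a⁻¹ * r * a) * x) * a⁻¹ := by group
            _ = a * (x * (a⁻¹ * r * a)) * a⁻¹ := by rw [h4]
            _ = a * x * a⁻¹ * r := by group
        · rw [← MulAut.conj_apply, (MulAut.conj a).orderOf_eq]
          exact hx.2
      · intro x
        rw [hmem A (hRA hyR) (hRA hzR), hmem R hyR hzR]
        constructor
        · rintro ⟨h3, h4⟩
          refine ⟨⟨?_, h4⟩, fun a ha => ?_⟩
          · rw [Subgroup.mem_centralizer_iff]
            intro r hr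
            exact Subgroup.mem_centralizer_iff.mp h3 r (hRA hr)
          · have h5 := Subgroup.mem_centralizer_iff.mp h3 a ha
            rw [h5]
            group
        · rintro ⟨⟨h3, h4⟩, h5⟩
          refine ⟨?_, h4⟩
          rw [Subgroup.mem_centralizer_iff]
          intro a ha
          have h6 := h5 a ha
          rwa [mul_inv_eq_iff_eq_mul] at h6

/-- the character below all characters of height zero -/
theorem exists_theta : ∃ (z : G) (L : Subgroup G), orderOf z = 3 ∧ z ∈ N ∧ z ∈ D ∧ Commute y z ∧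
    (∀ s, s ∈ L ↔ Commute y s ∧ Commute z s ∧ ¬ 3 ∣ orderOf s) ∧ PP O (S0 O D B) L := by
  obtain ⟨z, hz, hzD, hzN, hzc⟩ := c.exists_z
  obtain ⟨L, hL⟩ := c.exists_L hz hzN (hzc y c.hy)
  refine ⟨z, L, hz, hzN, hzD, (hzc y c.hy).symm, hL, ?_⟩
  have h1 := c.PP_chain hzD hL _ (Subgroup.closure {y, z}) (Subgroup.subset_closure (by simp))
    (Subgroup.subset_closure (by simp)) (by
      rw [Subgroup.closure_le]
      rintro x (rfl | rfl)
      · exact c.hy
      · exact hzD) le_rfl
  have h2 : L ⊓ Subgroup.centralizer ((Subgroup.closure {y, z} : Subgroup G) : Set G) = L := by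
    rw [inf_eq_left]
    intro s hs
    have h3 := (hL s).mp hs
    rw [Subgroup.centralizer_closure, Subgroup.mem_centralizer_iff]
    rintro x (rfl | rfl)
    · exact h3.1.eq
    · exact h3.2.1.eq
  rwa [h2] at h1

end Core

end Pool.Agent.Y62
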