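import Pool.Agent.Y62.Avg

/-!
Small elements of `ℤ[ω]`.
-/

open scoped BigOperators
open Finset

noncomputable section

namespace Pool.Agent.Y62

lemma cube_sum {ω : ℂ} (hω : IsPrimitiveRoot ω 3) : 1 + ω + ω ^ 2 = 0 := by
  have := hω.geom_sum_eq_zero (by norm_num)
  rw [Finset.sum_range_succ, Finset.sum_range_succ, Finset.sum_range_one] at this
  simpa using this

lemma cube_conj {ω : ℂ} (hω : IsPrimitiveRoot ω 3) : (starRingEnd ℂ) ω = ω ^ 2 := by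
  rw [conj_pow_root (by norm_num) hω.pow_eq_one]
  have h0 : ω ≠ 0 := hω.ne_zero (by norm_num)
  field_simp
  exact hω.pow_eq_one.symm

lemma cube_norm {ω : ℂ} (hω : IsPrimitiveRoot ω 3) (a b c : ℤ) :
    (‖(a : ℂ) + b * ω + c * ω ^ 2‖ : ℝ) ^ 2 =
      ((a - b) ^ 2 + (a - b) * (b - c) + (b - c) ^ 2 : ℤ) := by
  have h1 : (((‖(a : ℂ) + b * ω + c * ω ^ 2‖ : ℝ) ^ 2 : ℝ) : ℂ) =
      (((a - b) ^ 2 + (a - b) * (b - c) + (b - c) ^ 2 : ℤ) : ℝ) := by
    push_cast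
    rw [← Complex.mul_conj']
    simp only [map_add, map_mul, map_pow, cube_conj hω, map_intCast]
    have h2 := cube_sum hω
    have h3 := hω.pow_eq_one
    have h4 : ω ^ 4 = ω := by
      calc ω ^ 4 = ω ^ 3 * ω := by ring
        _ = ω := by rw [h3, one_mul]
    have h5 : ω ^ 2 = -1 - ω := by linear_combination h2
    have e : ((a : ℂ) + b * ω + c * ω ^ 2) * (a + b * ω ^ 2 + c * (ω ^ 2) ^ 2) =
        a ^ 2 + b ^ 2 * ω ^ 3 + c ^ 2 * (ω ^ 3 * ω ^ 3) + a * b * (ω + ω ^ 2) +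
          a * c * (ω ^ 2 + ω ^ 4) + b * c * (ω ^ 4 + ω ^ 3 * ω ^ 2) := by ring
    rw [e, h3, h4, h5]
    ring
  exact_mod_cast h1

/-- an element of `ℤ[ω]` of norm less than three is zero or a unit -/
lemma cube_cases {ω : ℂ} (hω : IsPrimitiveRoot ω 3) (a b c : ℤ)
    (h : (‖(a : ℂ) + b * ω + c * ω ^ 2‖ : ℝ) ^ 2 < 3) :
    (a : ℂ) + b * ω + c * ω ^ 2 = 0 ∨
      ∃ e : ℤ, (e = 1 ∨ e = -1) ∧ ∃ j < 3, (a : ℂ) + b * ω + c * ω ^ 2 = e * ω ^ j := by
  rw [cube_norm hω] at h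
  have h' : (a - b) ^ 2 + (a - b) * (b - c) + (b - c) ^ 2 < 3 := by exact_mod_cast h
  have h2 := cube_sum hω
  obtain ⟨x, hx⟩ : ∃ x, x = a - b := ⟨_, rfl⟩
  obtain ⟨y, hy⟩ : ∃ y, y = b - c := ⟨_, rfl⟩
  rw [← hx, ← hy] at h'
  have ha : (a : ℂ) = x + y + c := by rw [hx, hy]; push_cast; ring
  have hb : (b : ℂ) = y + c := by rw [hy]; push_cast; ring
  rw [ha, hb]
  have e : (x + y + c : ℂ) + (y + c) * ω + c * ω ^ 2 = x + y * (1 + ω) + c * (1 + ω + ω ^ 2) := by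
    ring
  rw [e, h2, mul_zero, add_zero]
  have hy2 : -1 ≤ y ∧ y ≤ 1 := by
    constructor <;> nlinarith [sq_nonneg (2 * x + y)]
  have hx2 : -1 ≤ x ∧ x ≤ 1 := by
    constructor <;> nlinarith [sq_nonneg (2 * y + x)]
  obtain ⟨y1, y2⟩ := hy2
  obtain ⟨x1, x2⟩ := hx2
  have c1 : (1 : ℂ) + ω = - ω ^ 2 := by linear_combination h2
  have c2 : (1 : ℂ) + ω ^ 2 = - ω := by linear_combination h2
  clear hx hy ha hb e h
  interval_cases x <;> interval_cases y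
  · norm_num at h'
  · right; exact ⟨-1, Or.inr rfl, 0, by norm_num, by push_cast; ring⟩
  · right; exact ⟨1, Or.inl rfl, 1, by norm_num, by push_cast; ring⟩
  · right; exact ⟨1, Or.inl rfl, 2, by norm_num, by push_cast; rw [c1]; ring⟩
  · left; push_cast; ring
  · right; exact ⟨-1, Or.inr rfl, 2, by norm_num, by push_cast; rw [c1]; ring⟩
  · right; exact ⟨-1, Or.inr rfl, 1, by norm_num, by push_cast; ring⟩
  · right; exact ⟨1, Or.inl rfl, 0, by norm_num, by push_cast; ring⟩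
  · norm_num at h'

/-- three cube roots of unity with vanishing sum are distinct -/
lemma cube_distinct {ω : ℂ} (hω : IsPrimitiveRoot ω 3) {i j k : ℕ} (hi : i < 3) (hj : j < 3)
    (hk : k < 3) (h : ω ^ (2 * i) + ω ^ (2 * j) + ω ^ (2 * k) = 0) : i ≠ j ∧ j ≠ k ∧ i ≠ k := by
  have h3 := hω.pow_eq_one
  have h2 := cube_sum hω
  have h4 : ω ^ 4 = ω := by
    calc ω ^ 4 = ω ^ 3 * ω := by ring
      _ = ω := by rw [h3, one_mul]
  have h0 : ω ≠ 0 := hω.ne_zero (by norm_num)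
  have h1 : ω ≠ 1 := hω.ne_one (by norm_num)
  have key : ∀ a b : ℕ, a < 3 → b < 3 → 2 * ω ^ (2 * a) + ω ^ (2 * b) ≠ 0 := by
    intro a b ha hb hab
    have hn := congrArg (fun z : ℂ => ‖z‖) (eq_neg_of_add_eq_zero_left hab)
    simp only [norm_neg, norm_mul, norm_pow, hω.norm'_eq_one (by norm_num)] at hn
    norm_num at hn
  refine ⟨?_, ?_, ?_⟩
  · rintro rfl
    exact key i k hi hk (by rw [← h]; ring)
  · rintro rfl
    exact key j i hj hi (by rw [← h]; ring)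
  · rintro rfl
    exact key i j hi hj (by rw [← h]; ring)

/-- distinct exponents give vanishing sums -/
lemma cube_sum_distinct {ω : ℂ} (hω : IsPrimitiveRoot ω 3) {i j k : ℕ} (hi : i < 3) (hj : j < 3)
    (hk : k < 3) (h1 : i ≠ j) (h2 : j ≠ k) (h3 : i ≠ k) (m : ℕ) (hm : ¬ 3 ∣ m) :
    (ω ^ m) ^ i + (ω ^ m) ^ j + (ω ^ m) ^ k = 0 := by
  have hω' : IsPrimitiveRoot (ω ^ m) 3 :=
    hω.pow_of_coprime m ((Nat.Prime.coprime_iff_not_dvd Nat.prime_three).mpr hm).symm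
  have h := cube_sum hω'
  interval_cases i <;> interval_cases j <;> interval_cases k <;> first | omega | skip
  all_goals linear_combination h

end Pool.Agent.Y62
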