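import Pool.Agent.Y62.Grp3

/-!
Energy of a character on the sections of non-conjugate elements.
-/

set_option linter.style.haveILetI false
set_option linter.unusedSectionVars false

open scoped BigOperators Classical
open Pool.Agent.Helper884 Representation Pool.Agent.H254R3.IN

noncomputable section

namespace Pool.Agent.Y62

variable {G : Type} [Group G] [Fintype G] {p : ℕ} [hp : Fact p.Prime]

/-- indicator function of the `p`-regular elements commuting with `y` -/
def Ps (p : ℕ) (y s : G) : ℂ := if Commute y s ∧ ¬ p ∣ orderOf s then 1 else 0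

lemma Ps_supp (y : G) : Supp p y (Ps p y) := by
  intro s hs
  by_contra h
  exact hs (if_neg h)

/-- number of `x` with `x⁻¹ g x` in the section of `y` -/
def cnt (p : ℕ) (y g : G) : ℕ :=
  (Finset.univ.filter (fun x : G => Commute y (y⁻¹ * (x⁻¹ * g * x)) ∧
    ¬ p ∣ orderOf (y⁻¹ * (x⁻¹ * g * x)))).card

lemma FF_cnt (y g : G) : FF y (Ps p y) g = cnt p y g := by
  unfold FF Ps cnt
  rw [Finset.sum_ite, Finset.sum_const, Finset.sum_const_zero, add_zero, nsmul_eq_mul, mul_one]

lemma card_conj_self (y : G) : (Finset.univ.filter (fun x : G => x⁻¹ * y * x = y)).card =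
    Nat.card (Subgroup.centralizer ({y} : Set G)) := by
  rw [Nat.card_eq_fintype_card, ← Fintype.card_coe]
  refine Fintype.card_congr (Equiv.subtypeEquivRight fun x => ?_)
  simp only [Finset.mem_filter, Finset.mem_univ, true_and]
  rw [Subgroup.mem_centralizer_iff]
  simp only [Set.mem_singleton_iff, forall_eq]
  constructor
  · intro h
    have := congrArg (fun z => x * z) h
    simpa [mul_assoc] using this
  · intro h
    rw [mul_assoc, h]
    group

/-- the weights of a system of non-conjugate elements are between 0 and 1 -/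
lemma weight (T : Finset G) (hT : ∀ y ∈ T, ∃ k, orderOf y = p ^ k)
    (hT2 : ∀ y ∈ T, ∀ y' ∈ T, ∀ x, x⁻¹ * y * x = y' → y = y') (g : G) :
    ∑ y ∈ T, (Nat.card (Subgroup.centralizer ({y} : Set G)) : ℝ)⁻¹ * cnt p y g ≤ 1 := by
  by_cases h : ∀ y ∈ T, cnt p y g = 0
  · rw [Finset.sum_eq_zero (fun y hy => by rw [h y hy]; simp)]
    norm_num
  · push Not at h
    obtain ⟨y, hy, hc⟩ := h
    obtain ⟨k, hk⟩ := hT y hy
    obtain ⟨x, hx⟩ := Finset.card_pos.mp (Nat.pos_of_ne_zero hc)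
    obtain ⟨hx1, hx2⟩ := (Finset.mem_filter.mp hx).2
    set s := y⁻¹ * (x⁻¹ * g * x) with hs
    have hg : IsConj (y * s) g := by
      refine isConj_iff.mpr ⟨x, ?_⟩
      rw [hs]
      group
    have hval : ∀ y' ∈ T, (cnt p y' g : ℂ) =
        ∑ x ∈ Finset.univ.filter (fun x : G => x⁻¹ * y * x = y'), Ps p y' (x⁻¹ * s * x) := by
      intro y' hy'
      obtain ⟨k', hk'⟩ := hT y' hy'
      rw [← FF_cnt, ← (FF_cl y' (Ps p y')).isConj hg]
      exact FF_val hk hk' (Ps_supp y') hx1 hx2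
    rw [Finset.sum_eq_single y]
    · have h1 : (cnt p y g : ℝ) ≤ Nat.card (Subgroup.centralizer ({y} : Set G)) := by
        have h2 : (cnt p y g : ℝ) = ‖(cnt p y g : ℂ)‖ := by
          rw [Complex.norm_natCast]
        rw [h2, hval y hy]
        refine (norm_sum_le _ _).trans ?_
        rw [← card_conj_self]
        refine (Finset.sum_le_card_nsmul _ _ 1 ?_).trans (by simp)
        intro x _
        unfold Ps
        split_ifs <;> simp
      have h3 : (0 : ℝ) < Nat.card (Subgroup.centralizer ({y} : Set G)) := by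
        exact_mod_cast Nat.card_pos
      rw [inv_mul_le_iff₀ h3, mul_one]
      exact h1
    · intro y' hy' hne
      have h1 : (cnt p y' g : ℂ) = 0 := by
        rw [hval y' hy']
        apply Finset.sum_eq_zero
        intro x hx
        exact absurd (hT2 y hy y' hy' x (Finset.mem_filter.mp hx).2).symm hne
      have h2 : cnt p y' g = 0 := by exact_mod_cast h1
      rw [h2]
      simp
    · intro h
      exact absurd hy h

lemma cnt_one {y : G} {k : ℕ} (hk : orderOf y = p ^ k) (hy : y ≠ 1) : cnt p y 1 = 0 := by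
  unfold cnt
  rw [Finset.card_eq_zero, Finset.filter_eq_empty_iff]
  intro x _ h
  apply h.2
  have : y⁻¹ * (x⁻¹ * 1 * x) = y⁻¹ := by group
  rw [this, orderOf_inv, hk]
  have hk0 : k ≠ 0 := by
    rintro rfl
    apply hy
    rw [← orderOf_eq_one_iff, hk, pow_zero]
  exact dvd_pow_self p hk0

lemma norm_irr {ψ : G → ℂ} (hψ : IsIrr ψ) :
    (Nat.card G : ℝ)⁻¹ * ∑ g : G, ‖ψ g‖ ^ 2 = 1 := by
  have h1 := irr_orth hψ hψ
  rw [if_pos rfl] at h1
  simp only [conj_char hψ, Complex.mul_conj'] at h1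
  apply Complex.ofReal_injective
  push_cast
  exact h1

/-- **Energy of a character** on the sections of non-conjugate non-trivial `p`-elements -/
theorem energy (T : Finset G) (hT : ∀ y ∈ T, y ≠ 1 ∧ ∃ k, orderOf y = p ^ k)
    (hT2 : ∀ y ∈ T, ∀ y' ∈ T, ∀ x, x⁻¹ * y * x = y' → y = y') {ψ : G → ℂ} (hψ : IsIrr ψ) :
    ∑ y ∈ T, (Nat.card (Subgroup.centralizer ({y} : Set G)) : ℝ)⁻¹ *
      ∑ s ∈ Finset.univ.filter (fun s : G => Commute y s ∧ ¬ p ∣ orderOf s), ‖ψ (y * s)‖ ^ 2
      < 1 := by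
  have hcl : IsCl (fun g => ((‖ψ g‖ ^ 2 : ℝ) : ℂ)) := by
    intro g y
    simp only [hψ.conj g y]
  have h1 : ∀ y : G, (Nat.card G : ℝ)⁻¹ * ∑ g : G, (cnt p y g : ℝ) * ‖ψ g‖ ^ 2 =
      ∑ s ∈ Finset.univ.filter (fun s : G => Commute y s ∧ ¬ p ∣ orderOf s), ‖ψ (y * s)‖ ^ 2 := by
    intro y
    have h2 := FF_pair y (Ps p y) hcl
    simp only [FF_cnt, Complex.conj_ofReal] at h2
    have h3 : ∑ s : G, Ps p y s * ((‖ψ (y * s)‖ ^ 2 : ℝ) : ℂ) =
        ∑ s ∈ Finset.univ.filter (fun s : G => Commute y s ∧ ¬ p ∣ orderOf s),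
          ((‖ψ (y * s)‖ ^ 2 : ℝ) : ℂ) := by
      unfold Ps
      simp only [ite_mul, one_mul, zero_mul]
      rw [← Finset.sum_filter]
    rw [h3] at h2
    apply Complex.ofReal_injective
    push_cast at h2 ⊢
    exact h2
  have hN : (0 : ℝ) < Nat.card G := by exact_mod_cast Nat.card_pos
  have h2 : ∑ y ∈ T, (Nat.card (Subgroup.centralizer ({y} : Set G)) : ℝ)⁻¹ *
      ∑ s ∈ Finset.univ.filter (fun s : G => Commute y s ∧ ¬ p ∣ orderOf s), ‖ψ (y * s)‖ ^ 2 =
      (Nat.card G : ℝ)⁻¹ * ∑ g : G, (∑ y ∈ T, (Nat.card (Subgroup.centralizer ({y} : Set G)) : ℝ)⁻¹ *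
        cnt p y g) * ‖ψ g‖ ^ 2 := by
    simp only [← h1]
    simp only [Finset.mul_sum, Finset.sum_mul]
    rw [Finset.sum_comm]
    refine Finset.sum_congr rfl fun g _ => Finset.sum_congr rfl fun y _ => ?_
    ring
  rw [h2, ← norm_irr hψ]
  apply mul_lt_mul_of_pos_left _ (inv_pos.mpr hN)
  apply Finset.sum_lt_sum
  · intro g _
    have h3 := weight (p := p) T (fun y hy => (hT y hy).2) hT2 g
    have h4 : (0 : ℝ) ≤ ‖ψ g‖ ^ 2 := by positivity
    nlinarith
  · refine ⟨1, Finset.mem_univ _, ?_⟩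
    rw [Finset.sum_eq_zero (fun y hy => by
      obtain ⟨hy1, k, hk⟩ := hT y hy
      rw [cnt_one hk hy1]
      simp), zero_mul]
    have h5 := hψ.one_ne
    positivity

end Pool.Agent.Y62
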