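import Pool.Agent.Y62.Transfer

/-!
A mod `p` version of the Glauberman correspondence.
-/

set_option linter.style.haveILetI false
set_option linter.unusedSectionVars false

open scoped BigOperators Classical
open Pool.Agent.Helper884 Representation Pool.Agent.H254R3.IN

noncomputable section

namespace Pool.Agent.Y62

/-- sums over a subgroup -/
lemma sum_sub {X F : Type} [Group X] [Fintype X] [AddCommMonoid F] (L : Subgroup X) (g : X → F) :
    ∑ l : L, g l = ∑ x ∈ Finset.univ.filter (· ∈ L), g x := by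
  symm
  apply Finset.sum_subtype
  intro x
  simp

variable {X A : Type} [Group X] [Fintype X] [Group A] (φ : A →* MulAut X)

/-- the fixed point subgroup -/
def fixS : Subgroup X where
  carrier := {x | ∀ a, φ a x = x}
  mul_mem' := by
    intro x y hx hy a
    rw [map_mul, hx a, hy a]
  one_mem' := fun a => map_one _
  inv_mem' := by
    intro x hx a
    rw [map_inv, hx a]

lemma mem_fixS {x : X} : x ∈ fixS φ ↔ ∀ a, φ a x = x := Iff.rfl

lemma act_mem_fixS {x : X} {a : A} (h : φ a x ∈ fixS φ) : x ∈ fixS φ := by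
  have h1 := h a⁻¹
  have h2 : φ a⁻¹ (φ a x) = x := by
    rw [map_inv]
    exact (φ a).symm_apply_apply x
  rw [h2] at h1
  rw [h1]
  exact h

variable {O : ValuationSubring ℂ} {p : ℕ} [hp : Fact p.Prime]

lemma sum_fix (hpO : (p : ℂ) ∈ O.nonunits) (hA : IsPGroup p A) (f : X → RF O)
    (hf : ∀ a x, f (φ a x) = f x) :
    ∑ x, f x = ∑ x ∈ Finset.univ.filter (· ∈ fixS φ), f x := by
  haveI := charP_RF hpO
  letI : MulAction A X := MulAction.compHom X φ
  have h1 := sum_fixed hA (X := X) (F := RF O)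
    (fun a => by rw [nsmul_eq_mul, CharP.cast_eq_zero, zero_mul]) f (fun d x => hf d x)
  rw [h1]
  apply Finset.sum_congr _ (fun _ _ => rfl)
  ext x
  simp only [Finset.mem_filter, Finset.mem_univ, true_and]
  exact Iff.rfl

/-- **Key lemma**: comparison of central characters. -/
theorem key_compare (hpO : (p : ℂ) ∈ O.nonunits) (hA : IsPGroup p A) {L : Subgroup X}
    (hL : ∀ l ∈ L, l ∈ fixS φ) (hLp : ¬ p ∣ Nat.card L)
    {ψ : X → ℂ} (hψ : IsIrr ψ) (hψA : ∀ a x, ψ (φ a x) = ψ x)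
    {f : X → ℂ} (hf : IsCl f) (hfO : ∀ x, f x ∈ O) (hfA : ∀ a x, f (φ a x) = f x)
    (hf0 : ∀ c ∈ fixS φ, c ∉ L → red O (f c) = 0)
    {θ : L → ℂ} (hθ : IsIrr θ) (hne : red O (ips L 1 ψ θ) ≠ 0) :
    red O (Om f ψ) = red O (Om (fun l : L => f l) θ) := by
  have hfL : IsCl (fun l : L => f l) := fun g y => hf (g : X) (y : X)
  have hw := Om_mem (O := O) hψ hf hfO
  have hwθ := Om_mem (O := O) hθ hfL (fun l => hfO l)
  -- values at elements of L
  have h1 : ∀ l : L, red O (Om f ψ) * red O (ψ l) = ∑ x : L, red O (f x) * red O (ψ (x * l)) := by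
    intro l
    rw [← red_mul hw (hψ.val_mem O _), ← conv_scalar hψ hf,
      red_sum _ _ (fun x _ => O.mul_mem _ _ (hfO x) (hψ.val_mem O _))]
    rw [Finset.sum_congr rfl (fun x _ => red_mul (hfO x) (hψ.val_mem O (x * l)))]
    rw [sum_fix φ hpO hA (fun x => red O (f x) * red O (ψ (x * l))) (by
      intro a x
      have e : φ a x * (l : X) = φ a (x * l) := by
        rw [map_mul, hL l l.2 a]
      rw [hfA, e, hψA])]
    rw [sum_sub L (fun x => red O (f x) * red O (ψ (x * l)))]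
    symm
    apply Finset.sum_subset
    · intro x hx
      exact Finset.mem_filter.mpr ⟨Finset.mem_univ _, hL x (Finset.mem_filter.mp hx).2⟩
    · intro x hx hx'
      rw [hf0 x (Finset.mem_filter.mp hx).2 (fun h => hx'
        (Finset.mem_filter.mpr ⟨Finset.mem_univ _, h⟩)), zero_mul]
  -- the sum S
  set S : RF O := ∑ l : L, red O (ψ l) * red O (θ l⁻¹) with hS
  have hSne : S ≠ 0 := by
    intro h0
    apply hne
    unfold ips
    rw [red_mul (nat_inv_mem hpO hLp) (sum_mem fun h _ => O.mul_mem _ _ (hψ.val_mem O _)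
      (hθ.val_mem O _)), red_sum _ _ (fun h _ => O.mul_mem _ _ (hψ.val_mem O _)
      (hθ.val_mem O _))]
    have h2 : ∑ h : L, red O (ψ (1 * (h : X)) * θ h⁻¹) = S := by
      refine Finset.sum_congr rfl fun h _ => ?_
      rw [one_mul, red_mul (hψ.val_mem O _) (hθ.val_mem O _)]
    rw [h2, h0, mul_zero]
  have h2 : red O (Om f ψ) * S = red O (Om (fun l : L => f l) θ) * S := by
    have h3 : red O (Om f ψ) * S =
        ∑ l : L, ∑ x : L, red O (f x) * red O (ψ (x * l)) * red O (θ l⁻¹) := by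
      rw [hS, Finset.mul_sum]
      refine Finset.sum_congr rfl fun l _ => ?_
      rw [← mul_assoc, h1, Finset.sum_mul]
    have h4 : ∀ x : L, ∑ l : L, red O (f x) * red O (ψ (x * l)) * red O (θ l⁻¹) =
        ∑ l : L, red O (f x) * red O (ψ l) * red O (θ (x * l⁻¹)) := by
      intro x
      refine Fintype.sum_equiv (Equiv.mulLeft x) _ _ fun l => ?_
      simp only [Equiv.coe_mulLeft]
      congr 2
      rw [irr_mul_comm hθ]
      congr 1
      group
    rw [h3, Finset.sum_comm, Finset.sum_congr rfl (fun x _ => h4 x), Finset.sum_comm, hS,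
      Finset.mul_sum]
    refine Finset.sum_congr rfl fun l _ => ?_
    have h5 : ∑ x : L, red O (f x) * red O (θ (x * l⁻¹)) =
        red O (Om (fun l : L => f l) θ) * red O (θ l⁻¹) := by
      rw [← red_mul hwθ (hθ.val_mem O _), ← conv_scalar hθ hfL,
        red_sum Finset.univ (fun x : L => f x * θ (x * l⁻¹))
          (fun x _ => O.mul_mem _ _ (hfO x) (hθ.val_mem O _))]
      refine Finset.sum_congr rfl fun x _ => ?_
      rw [red_mul (hfO x) (hθ.val_mem O _)]
    calc ∑ x : L, red O (f x) * red O (ψ l) * red O (θ (x * l⁻¹))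
        = red O (ψ l) * ∑ x : L, red O (f x) * red O (θ (x * l⁻¹)) := by
          rw [Finset.mul_sum]
          exact Finset.sum_congr rfl fun x _ => by ring
      _ = _ := by rw [h5]; ring
  exact mul_right_cancel₀ hSne h2

section glaub

variable (hpO : (p : ℂ) ∈ O.nonunits) (hA : IsPGroup p A) (hX : ¬ p ∣ Nat.card X)

lemma card_sub_not_dvd {G : Type} [Group G] [Finite G] (hX : ¬ p ∣ Nat.card G) (L : Subgroup G) :
    ¬ p ∣ Nat.card L :=
  fun h => hX (h.trans (Subgroup.card_subgroup_dvd_card L))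

include hpO hA hX

/-- each invariant character lies over at most one character of the fixed points, modulo `p` -/
theorem glaub_unique {θ : X → ℂ} (hθ : IsIrr θ) (hθA : ∀ a x, θ (φ a x) = θ x)
    {η η' : fixS φ → ℂ} (hη : IsIrr η) (hη' : IsIrr η')
    (h1 : red O (ips (fixS φ) 1 θ η) ≠ 0) (h2 : red O (ips (fixS φ) 1 θ η') ≠ 0) : η = η' := by
  by_contra hne
  have hCp : ¬ p ∣ Nat.card (fixS φ) := card_sub_not_dvd hX _
  -- extension by zero of the idempotent
  let e : X → ℂ := fun x => if h : x ∈ fixS φ then idem η ⟨x, h⟩ else 0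
  have heO : ∀ x, e x ∈ O := by
    intro x
    by_cases h : x ∈ fixS φ
    · have : e x = idem η ⟨x, h⟩ := dif_pos h
      rw [this]
      exact O.mul_mem _ _ (O.mul_mem _ _ (hη.val_mem O _) (nat_inv_mem hpO hCp)) (hη.val_mem O _)
    · have : e x = 0 := dif_neg h
      rw [this]
      exact O.zero_mem
  have heA : ∀ a x, e (φ a x) = e x := by
    intro a x
    by_cases h : x ∈ fixS φ
    · rw [h a]
    · have h' : φ a x ∉ fixS φ := fun h' => h (act_mem_fixS φ h')
      have e1 : e x = 0 := dif_neg h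
      have e2 : e (φ a x) = 0 := dif_neg h'
      rw [e1, e2]
  let f : X → ℂ := fun x => (Nat.card (fixS φ) : ℂ)⁻¹ * ∑ z : X, e (z⁻¹ * x * z)
  have hfO : ∀ x, f x ∈ O := fun x =>
    O.mul_mem _ _ (nat_inv_mem hpO hCp) (sum_mem fun z _ => heO _)
  have hf : IsCl f := by
    intro g y
    change (Nat.card (fixS φ) : ℂ)⁻¹ * ∑ z : X, e (z⁻¹ * (y * g * y⁻¹) * z) =
      (Nat.card (fixS φ) : ℂ)⁻¹ * ∑ z : X, e (z⁻¹ * g * z)
    congr 1
    refine Fintype.sum_equiv (Equiv.mulLeft y⁻¹) _ _ fun z => ?_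
    simp only [Equiv.coe_mulLeft]
    congr 1
    group
  have hfA : ∀ a x, f (φ a x) = f x := by
    intro a x
    change (Nat.card (fixS φ) : ℂ)⁻¹ * ∑ z : X, e (z⁻¹ * φ a x * z) =
      (Nat.card (fixS φ) : ℂ)⁻¹ * ∑ z : X, e (z⁻¹ * x * z)
    congr 1
    symm
    refine Fintype.sum_equiv (φ a).toEquiv _ _ fun z => ?_
    change e (z⁻¹ * x * z) = e ((φ a z)⁻¹ * φ a x * φ a z)
    rw [← map_inv, ← map_mul, ← map_mul, heA]
  have hfC : ∀ c : fixS φ, red O (f c) = red O (idem η c) := by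
    intro c
    have hsum : red O (∑ z : X, e (z⁻¹ * (c : X) * z)) =
        (Nat.card (fixS φ) : RF O) * red O (idem η c) := by
      rw [red_sum _ _ (fun z _ => heO _), sum_fix φ hpO hA (fun z => red O (e (z⁻¹ * (c : X) * z))) (by
        intro a z
        have : (φ a z)⁻¹ * (c : X) * φ a z = φ a (z⁻¹ * c * z) := by
          rw [map_mul, map_mul, map_inv, c.2 a]
        rw [this, heA]), ← sum_sub (fixS φ) (fun z => red O (e (z⁻¹ * (c : X) * z)))]
      rw [Finset.sum_congr rfl (g := fun _ => red O (idem η c)) (fun z _ => by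
        have hm : (z : X)⁻¹ * (c : X) * z ∈ fixS φ :=
          (fixS φ).mul_mem ((fixS φ).mul_mem ((fixS φ).inv_mem z.2) c.2) z.2
        have e1 : e ((z : X)⁻¹ * (c : X) * z) = idem η ⟨(z : X)⁻¹ * (c : X) * z, hm⟩ := dif_pos hm
        have e2 : (⟨(z : X)⁻¹ * (c : X) * z, hm⟩ : fixS φ) = z⁻¹ * c * (z⁻¹)⁻¹ := by
          apply Subtype.ext
          simp
        rw [e1, e2, idem_cl hη])]
      rw [Finset.sum_const, Finset.card_univ, ← Nat.card_eq_fintype_card, nsmul_eq_mul]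
    change red O ((Nat.card (fixS φ) : ℂ)⁻¹ * ∑ z : X, e (z⁻¹ * (c : X) * z)) = _
    rw [red_mul (nat_inv_mem hpO hCp) (sum_mem fun z _ => heO _), hsum]
    have hc0 : red O (Nat.card (fixS φ) : ℂ) ≠ 0 := fun h => hCp ((red_nat_eq_zero_iff hpO _).mp h)
    rw [red_inv hc0, red_natCast]
    rw [red_natCast] at hc0
    rw [← mul_assoc, inv_mul_cancel₀ hc0, one_mul]
  have hidO : ∀ c : fixS φ, idem η c ∈ O := fun c =>
    O.mul_mem _ _ (O.mul_mem _ _ (hη.val_mem O _) (nat_inv_mem hpO hCp)) (hη.val_mem O _)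
  have hfL : IsCl (fun l : fixS φ => f l) := fun g y => hf (g : X) (y : X)
  have k1 := key_compare φ hpO hA (L := fixS φ) (fun l hl => hl) hCp hθ hθA hf hfO hfA
    (fun c hc hc' => absurd hc hc') hη h1
  have k2 := key_compare φ hpO hA (L := fixS φ) (fun l hl => hl) hCp hθ hθA hf hfO hfA
    (fun c hc hc' => absurd hc hc') hη' h2
  rw [k1, Om_red_congr hη hfL (idem_cl hη) (fun l => hfO l) hidO hfC,
    Om_red_congr hη' hfL (idem_cl hη) (fun l => hfO l) hidO hfC, Om_idem hη hη, Om_idem hη hη',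
    if_pos rfl, if_neg (fun h => hne h.symm), red_one, red_zero] at k2
  exact one_ne_zero k2

/-- orthogonality modulo `p` after restriction to the fixed points -/
lemma glaub_orth {θ θ' : X → ℂ} (hθ : IsIrr θ) (hθ' : IsIrr θ') (hθA : ∀ a x, θ (φ a x) = θ x)
    (hθA' : ∀ a x, θ' (φ a x) = θ' x) :
    ∑ c : fixS φ, red O (θ c) * red O (θ' (c : X)⁻¹) =
      if θ = θ' then (Nat.card X : RF O) else 0 := by
  have h1 := irr_orth hθ hθ'
  have hX0 : (Nat.card X : ℂ) ≠ 0 := by exact_mod_cast Nat.card_pos.ne'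
  have h2 : ∑ g : X, θ g * θ' g⁻¹ = if θ = θ' then (Nat.card X : ℂ) else 0 := by
    rw [inv_mul_eq_iff_eq_mul₀ hX0] at h1
    rw [h1]
    split_ifs
    · rw [mul_one]
    · rw [mul_zero]
  have h3 := congrArg (red O) h2
  rw [red_sum _ _ (fun x _ => O.mul_mem _ _ (hθ.val_mem O _) (hθ'.val_mem O _)),
    Finset.sum_congr rfl (fun x _ => red_mul (hθ.val_mem O x) (hθ'.val_mem O x⁻¹)),
    sum_fix φ hpO hA (fun x => red O (θ x) * red O (θ' x⁻¹)) (by
      intro a x
      rw [hθA, ← map_inv, hθA']), ← sum_sub (fixS φ) (fun x => red O (θ x) * red O (θ' x⁻¹))] at h3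
  rw [h3]
  split_ifs
  · exact red_natCast _
  · exact red_zero

/-- two invariant characters lying modulo `p` over the same character coincide -/
theorem glaub_inj {θ θ' : X → ℂ} (hθ : IsIrr θ) (hθ' : IsIrr θ') (hθA : ∀ a x, θ (φ a x) = θ x)
    (hθA' : ∀ a x, θ' (φ a x) = θ' x) {η : fixS φ → ℂ} (hη : IsIrr η)
    (h1 : red O (ips (fixS φ) 1 θ η) ≠ 0) (h2 : red O (ips (fixS φ) 1 θ' η) ≠ 0) : θ = θ' := by
  have hCp : ¬ p ∣ Nat.card (fixS φ) := card_sub_not_dvd hX _
  have hcomm : ∀ h ∈ fixS φ, Commute (1 : X) h := fun h _ => Commute.one_left h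
  have horder : orderOf (1 : X) = p ^ 0 := by rw [orderOf_one, pow_zero]
  have hval : ∀ {θ : X → ℂ}, IsIrr θ → (∀ a x, θ (φ a x) = θ x) →
      red O (ips (fixS φ) 1 θ η) ≠ 0 → ∀ c : fixS φ, red O (θ c) =
        red O (ips (fixS φ) 1 θ η) * red O (η c) := by
    intro θ hθ hθA hne c
    have h3 := val_expand hθ hcomm c
    rw [one_mul] at h3
    have hmem : ∀ η' ∈ IC.Irr (fixS φ), ips (fixS φ) 1 θ η' ∈ O ∧ η' c ∈ O := by
      intro η' hη'
      have hη'' : IsIrr η' := IC.mem_Irr.mp hη'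
      have := (ips_red hpO hθ hcomm horder hη'' 1).1
      rw [pow_one] at this
      exact ⟨this, hη''.val_mem O _⟩
    rw [h3, red_sum _ _ (fun η' hη' => O.mul_mem _ _ (hmem η' hη').1 (hmem η' hη').2),
      Finset.sum_eq_single η]
    · exact red_mul (hmem η (IC.mem_Irr.mpr hη)).1 (hmem η (IC.mem_Irr.mpr hη)).2
    · intro η' hη' hne'
      rw [red_mul (hmem η' hη').1 (hmem η' hη').2]
      have : red O (ips (fixS φ) 1 θ η') = 0 := by
        by_contra h
        exact hne' (glaub_unique φ hpO hA hX hθ hθA (IC.mem_Irr.mp hη') hη h hne)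
      rw [this, zero_mul]
    · intro h
      exact absurd (IC.mem_Irr.mpr hη) h
  have h3 := glaub_orth φ hpO hA hX hθ hθ' hθA hθA'
  by_contra hne
  rw [if_neg hne] at h3
  have h4 : ∑ c : fixS φ, red O (θ c) * red O (θ' (c : X)⁻¹) =
      red O (ips (fixS φ) 1 θ η) * red O (ips (fixS φ) 1 θ' η) * (Nat.card (fixS φ) : RF O) := by
    have h5 := irr_orth hη hη
    rw [if_pos rfl] at h5
    have hC0 : (Nat.card (fixS φ) : ℂ) ≠ 0 := by exact_mod_cast Nat.card_pos.ne'
    rw [inv_mul_eq_iff_eq_mul₀ hC0, mul_one] at h5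
    have h6 := congrArg (red O) h5
    rw [red_sum _ _ (fun x _ => O.mul_mem _ _ (hη.val_mem O _) (hη.val_mem O _)),
      red_natCast] at h6
    rw [← h6, Finset.mul_sum]
    refine Finset.sum_congr rfl fun c _ => ?_
    have e : red O (θ' (c : X)⁻¹) = red O (ips (fixS φ) 1 θ' η) * red O (η c⁻¹) := by
      have := hval hθ' hθA' h2 c⁻¹
      exact this
    rw [hval hθ hθA h1 c, e, red_mul (hη.val_mem O _) (hη.val_mem O _)]
    ring
  rw [h4] at h3
  have hc0 : (Nat.card (fixS φ) : RF O) ≠ 0 := by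
    intro h
    rw [← red_natCast] at h
    exact hCp ((red_nat_eq_zero_iff hpO _).mp h)
  exact (mul_ne_zero (mul_ne_zero h1 h2) hc0) h3

/-- **The step lemma**: going up from the fixed points. -/
theorem glaub_step (S : Set (X → ℂ)) (hSne : S.Nonempty)
    (hScl : ∀ χ ∈ S, IsCl χ) (hSA : ∀ χ ∈ S, ∀ a x, χ (φ a x) = χ x)
    (hSO : ∀ χ ∈ S, ∀ θ, IsIrr θ → IC.B χ θ ∈ O)
    {η : fixS φ → ℂ} (hη : IsIrr η) (hη0 : ∀ χ ∈ S, red O (ips (fixS φ) 1 χ η) ≠ 0) :
    ∃ θ : X → ℂ, IsIrr θ ∧ ∀ χ ∈ S, red O (IC.B χ θ) ≠ 0 := by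
  have hcomm : ∀ h ∈ fixS φ, Commute (1 : X) h := fun h _ => Commute.one_left h
  have horder : orderOf (1 : X) = p ^ 0 := by rw [orderOf_one, pow_zero]
  -- action on irreducible characters
  let act : A → (X → ℂ) → (X → ℂ) := fun a θ x => θ (φ a⁻¹ x)
  have hact : ∀ a θ, IsIrr θ → IsIrr (act a θ) := fun a θ hθ => irr_comp hθ (φ a⁻¹)
  letI : MulAction A {θ : X → ℂ // θ ∈ IC.Irr X} :=
    { smul := fun a θ => ⟨act a θ.1, IC.mem_Irr.mpr (hact a θ.1 (IC.mem_Irr.mp θ.2))⟩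
      one_smul := fun θ => Subtype.ext (by
        funext x
        change θ.1 (φ (1 : A)⁻¹ x) = θ.1 x
        rw [inv_one, map_one]
        rfl)
      mul_smul := fun a b θ => Subtype.ext (by
        funext x
        change θ.1 (φ (a * b)⁻¹ x) = θ.1 (φ b⁻¹ (φ a⁻¹ x))
        rw [mul_inv_rev, map_mul]
        rfl) }
  have hsm : ∀ (a : A) (θ : {θ : X → ℂ // θ ∈ IC.Irr X}), ((a • θ).1 : X → ℂ) = act a θ.1 :=
    fun a θ => rfl
  have hips : ∀ θ, IsIrr θ → ips (fixS φ) 1 θ η ∈ O := by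
    intro θ hθ
    have := (ips_red hpO hθ hcomm horder hη 1).1
    rwa [pow_one] at this
  have hfix : ∀ χ ∈ S, ∃ θ, IsIrr θ ∧ (∀ a x, θ (φ a x) = θ x) ∧
      red O (ips (fixS φ) 1 θ η) ≠ 0 ∧ red O (IC.B χ θ) ≠ 0 := by
    intro χ hχ
    have h1 : ips (fixS φ) 1 χ η = ∑ θ ∈ IC.Irr X, IC.B χ θ * ips (fixS φ) 1 θ η := by
      have h2 := IC.expand χ (hScl χ hχ)
      have h3 : ∀ c : fixS φ, χ (1 * (c : X)) = ∑ θ ∈ IC.Irr X, IC.B χ θ * θ (1 * (c : X)) := by
        intro c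
        have := congrFun h2 (1 * (c : X))
        simp only [Finset.sum_apply, Pi.smul_apply, smul_eq_mul] at this
        exact this
      unfold ips
      simp only [h3, Finset.sum_mul, Finset.mul_sum]
      rw [Finset.sum_comm]
      refine Finset.sum_congr rfl fun θ _ => Finset.sum_congr rfl fun c _ => ?_
      ring
    have h2 := hη0 χ hχ
    rw [h1, red_sum _ _ (fun θ hθ => O.mul_mem _ _ (hSO χ hχ θ (IC.mem_Irr.mp hθ))
      (hips θ (IC.mem_Irr.mp hθ)))] at h2
    rw [← Finset.sum_coe_sort (IC.Irr X) (fun θ => red O (IC.B χ θ * ips (fixS φ) 1 θ η))] at h2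
    haveI := charP_RF hpO
    rw [sum_fixed hA (X := {θ : X → ℂ // θ ∈ IC.Irr X}) (F := RF O)
      (fun a => by rw [nsmul_eq_mul, CharP.cast_eq_zero, zero_mul])
      (fun θ => red O (IC.B χ θ.1 * ips (fixS φ) 1 θ.1 η)) (by
        intro a θ
        congr 2
        · rw [hsm]
          unfold IC.B
          congr 1
          refine Fintype.sum_equiv (φ a⁻¹).toEquiv _ _ fun x => ?_
          change χ x * θ.1 (φ a⁻¹ x⁻¹) = χ (φ a⁻¹ x) * θ.1 (φ a⁻¹ x)⁻¹
          rw [hSA χ hχ, map_inv]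
        · rw [hsm]
          unfold ips
          congr 1
          refine Finset.sum_congr rfl fun c _ => ?_
          change θ.1 (φ a⁻¹ (1 * (c : X))) * _ = _
          rw [one_mul, c.2 a⁻¹])] at h2
    obtain ⟨θ, hθ1, hθ2⟩ := Finset.exists_ne_zero_of_sum_ne_zero h2
    have hθirr : IsIrr θ.1 := IC.mem_Irr.mp θ.2
    have hθfix := (Finset.mem_filter.mp hθ1).2
    rw [red_mul (hSO χ hχ _ hθirr) (hips _ hθirr)] at hθ2
    refine ⟨θ.1, hθirr, ?_, right_ne_zero_of_mul hθ2, left_ne_zero_of_mul hθ2⟩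
    intro a x
    have h3 := congrArg (fun t : {θ : X → ℂ // θ ∈ IC.Irr X} => t.1 x) (hθfix a⁻¹)
    change θ.1 (φ (a⁻¹)⁻¹ x) = θ.1 x at h3
    rwa [inv_inv] at h3
  obtain ⟨χ₀, hχ₀⟩ := hSne
  obtain ⟨θ, h1, h2, h3, -⟩ := hfix χ₀ hχ₀
  refine ⟨θ, h1, fun χ hχ => ?_⟩
  obtain ⟨θ', h1', h2', h3', h4'⟩ := hfix χ hχ
  rw [glaub_inj φ hpO hA hX h1 h1' h2 h2' hη h3 h3']
  exact h4'

end glaub

end Pool.Agent.Y62
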