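import Pool.Agent.Y62.Glaub

/-!
Groups whose Sylow 3-subgroup has order three.
-/

set_option linter.style.haveILetI false
set_option linter.unusedSectionVars false

open scoped BigOperators Classical
open Pool.Agent.Helper884 Representation Pool.Agent.H254R3.IN

noncomputable section

namespace Pool.Agent.Y62

lemma not_dvd_card_of_regular {p : ℕ} [hp : Fact p.Prime] {G : Type} [Group G] [Finite G]
    {L : Subgroup G} (hL : ∀ s ∈ L, ¬ p ∣ orderOf s) : ¬ p ∣ Nat.card L := by
  intro h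
  obtain ⟨x, hx⟩ := exists_prime_orderOf_dvd_card' (G := L) p h
  apply hL x x.2
  rw [Subgroup.orderOf_coe, hx]

/-- data: `z` of order 3 in a group with 3-part three, `L` the 3-regular elements of `C(z)` -/
structure Dat (M : Type) [Group M] [Fintype M] (z : M) (L : Subgroup M) : Prop where
  hz : orderOf z = 3
  h9 : ¬ 9 ∣ Nat.card M
  hL : ∀ s, s ∈ L ↔ Commute z s ∧ ¬ 3 ∣ orderOf s

variable {M : Type} [Group M] [Fintype M] {z : M} {L : Subgroup M}

instance fact3 : Fact (Nat.Prime 3) := ⟨Nat.prime_three⟩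

namespace Dat

variable (d : Dat M z L)

include d

lemma Lcard : ¬ 3 ∣ Nat.card L :=
  not_dvd_card_of_regular (p := 3) fun s hs => ((d.hL s).mp hs).2

lemma zcomm {l : M} (hl : l ∈ L) : Commute z l := ((d.hL l).mp hl).1

lemma znot : z ∉ L := fun h => ((d.hL z).mp h).2 (by rw [d.hz])

lemma zidx : ¬ 3 ∣ (Subgroup.zpowers z).index := by
  intro h
  have h1 := Subgroup.card_mul_index (Subgroup.zpowers z)
  rw [Nat.card_zpowers, d.hz] at h1
  apply d.h9
  rw [← h1]
  obtain ⟨c, hc⟩ := h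
  rw [hc]
  exact ⟨c, by ring⟩

lemma zp : IsPGroup 3 (Subgroup.zpowers z) :=
  IsPGroup.of_card (n := 1) (by rw [Nat.card_zpowers, d.hz, pow_one])

/-- `⟨z⟩` as a Sylow subgroup -/
def syl : Sylow 3 M := d.zp.toSylow d.zidx

lemma syl_coe : ((syl d : Sylow 3 M) : Subgroup M) = Subgroup.zpowers z := IsPGroup.toSylow_coe _ _

lemma mem_zp {u : M} {k : ℕ} (hu : orderOf u = 3 ^ k) (hc : Commute z u) :
    u ∈ Subgroup.zpowers z := by
  have h1 : IsPGroup 3 (Subgroup.zpowers u) := IsPGroup.of_card (n := k) (by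
    rw [Nat.card_zpowers, hu])
  have h2 := h1.inf_normalizer_sylow (syl d)
  have h3 : u ∈ Subgroup.normalizer (((syl d : Sylow 3 M) : Subgroup M) : Set M) := by
    rw [d.syl_coe, Subgroup.mem_normalizer_iff]
    intro h
    constructor
    · intro hh
      obtain ⟨k, rfl⟩ := Subgroup.mem_zpowers_iff.mp hh
      have : u * z ^ k * u⁻¹ = z ^ k := by
        rw [((hc.zpow_left k).eq).symm]
        group
      rw [this]
      exact Subgroup.zpow_mem _ (Subgroup.mem_zpowers z) k
    · intro hh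
      obtain ⟨k, hk⟩ := Subgroup.mem_zpowers_iff.mp hh
      have : h = z ^ k := by
        have e : h = u⁻¹ * (u * h * u⁻¹) * u := by group
        rw [e, ← hk, mul_assoc, (hc.zpow_left k).eq]
        group
      rw [this]
      exact Subgroup.zpow_mem _ (Subgroup.mem_zpowers z) k
  have h4 : u ∈ Subgroup.zpowers u ⊓
      Subgroup.normalizer (((syl d : Sylow 3 M) : Subgroup M) : Set M) :=
    ⟨Subgroup.mem_zpowers u, h3⟩
  have h5 : u ∈ Subgroup.zpowers u ⊓ ((syl d : Sylow 3 M) : Subgroup M) := by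
    rw [← h2]
    exact h4
  rw [d.syl_coe] at h5
  exact h5.2

lemma pow_cases {u : M} (hu : u ∈ Subgroup.zpowers z) : u = 1 ∨ u = z ∨ u = z ^ 2 := by
  rw [← mem_powers_iff_mem_zpowers] at hu
  obtain ⟨k, rfl⟩ := hu
  have h1 : z ^ k = z ^ (k % 3) := by
    have := pow_mod_orderOf z k
    rw [d.hz] at this
    exact this.symm
  change z ^ k = 1 ∨ z ^ k = z ∨ z ^ k = z ^ 2
  rw [h1]
  have h2 : k % 3 < 3 := Nat.mod_lt _ (by norm_num)
  interval_cases k % 3
  · left; exact pow_zero z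
  · right; left; exact pow_one z
  · right; right; rfl

lemma decomp {c : M} (hc : Commute z c) : ∃ i : ℕ, ∃ l ∈ L, c = z ^ i * l := by
  obtain ⟨e, e', h1, h2, h3, h4, h5⟩ := IC.exists_exps 3 M
  obtain ⟨k, hk⟩ := h4 c
  have h6 := d.mem_zp hk (hc.pow_right e')
  rw [← mem_powers_iff_mem_zpowers] at h6
  obtain ⟨i, hi⟩ := h6
  refine ⟨i, c ^ e, (d.hL _).mpr ⟨hc.pow_right e, h3 c⟩, ?_⟩
  change z ^ i = c ^ e' at hi
  rw [hi, ← pow_add, add_comm, pow_add, h5]

/-- elements of `C(z)` act on `L` as inner automorphisms -/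
lemma cent_act {c : M} (hc : Commute z c) : ∃ l₀ : L, ∀ l : L, c⁻¹ * (l : M) * c =
    ((l₀⁻¹ * l * l₀ : L) : M) := by
  obtain ⟨i, l₀, hl₀, rfl⟩ := d.decomp hc
  refine ⟨⟨l₀, hl₀⟩, fun l => ?_⟩
  have h1 : (z ^ i) * (l : M) = (l : M) * z ^ i := ((d.zcomm l.2).pow_left i).eq
  have h2 : (z ^ i)⁻¹ * (l : M) * z ^ i = l := by
    rw [mul_assoc, ← h1]
    group
  calc (z ^ i * l₀)⁻¹ * (l : M) * (z ^ i * l₀) = l₀⁻¹ * ((z ^ i)⁻¹ * (l : M) * z ^ i) * l₀ := by group
    _ = _ := by rw [h2]; rfl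

lemma card_cent : Nat.card (Subgroup.centralizer ({z} : Set M)) = 3 * Nat.card L := by
  have hcomm : ∀ (a : Subgroup.zpowers z) (b : L),
      Commute ((Subgroup.zpowers z).subtype a) (L.subtype b) := by
    rintro ⟨a, ha⟩ ⟨b, hb⟩
    obtain ⟨k, rfl⟩ := Subgroup.mem_zpowers_iff.mp ha
    exact (d.zcomm hb).zpow_left k
  let f : Subgroup.zpowers z × L →* M :=
    MonoidHom.noncommCoprod (Subgroup.zpowers z).subtype L.subtype hcomm
  have hf : ∀ p : Subgroup.zpowers z × L, f p = (p.1 : M) * (p.2 : M) := fun p => rfl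
  have hinj : Function.Injective f := by
    rw [injective_iff_map_eq_one]
    rintro ⟨a, b⟩ hab
    rw [hf] at hab
    dsimp only at hab
    have h1 : (a : M) = (b : M)⁻¹ := eq_inv_of_mul_eq_one_left hab
    have h2 : (a : M) ∈ L := by rw [h1]; exact L.inv_mem b.2
    have h3 : (a : M) = 1 := by
      rcases d.pow_cases a.2 with h | h | h
      · exact h
      · exfalso
        rw [h] at h2
        exact d.znot h2
      · exfalso
        rw [h] at h2
        apply d.znot
        have h4 := L.pow_mem h2 2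
        have h5 : (z ^ 2) ^ 2 = z := by
          rw [← pow_mul]
          have h6 : z ^ 3 = 1 := by rw [← d.hz]; exact pow_orderOf_eq_one z
          calc z ^ (2 * 2) = z ^ 3 * z := by group
            _ = z := by rw [h6, one_mul]
        rwa [h5] at h4
    have h4 : (b : M) = 1 := by
      rw [h3, one_mul] at hab
      exact hab
    exact Prod.ext (Subtype.ext h3) (Subtype.ext h4)
  have hrange : ∀ c, c ∈ f.range ↔ c ∈ Subgroup.centralizer ({z} : Set M) := by
    intro c
    rw [Subgroup.mem_centralizer_iff]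
    simp only [Set.mem_singleton_iff, forall_eq]
    constructor
    · rintro ⟨⟨a, b⟩, rfl⟩
      rw [hf]
      have h1 : Commute z (a : M) := by
        obtain ⟨k, hk⟩ := Subgroup.mem_zpowers_iff.mp a.2
        rw [← hk]
        exact (Commute.refl z).zpow_right k
      exact (h1.mul_right (d.zcomm b.2)).eq
    · intro h
      obtain ⟨i, l, hl, rfl⟩ := d.decomp (c := c) h
      exact ⟨(⟨z ^ i, Subgroup.pow_mem _ (Subgroup.mem_zpowers z) i⟩, ⟨l, hl⟩), rfl⟩
  have h1 : Nat.card f.range = Nat.card (Subgroup.zpowers z × L) :=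
    (Nat.card_congr (MonoidHom.ofInjective hinj).toEquiv).symm
  have h2 : f.range = Subgroup.centralizer ({z} : Set M) := by
    ext c
    exact hrange c
  rw [h2, Nat.card_prod, Nat.card_zpowers, d.hz] at h1
  exact h1

/-- 3-singular elements -/
lemma singular {m : M} (hm : 3 ∣ orderOf m) :
    ∃ (x : M) (i : ℕ) (l : L), (i = 1 ∨ i = 2) ∧ m = x * (z ^ i * l) * x⁻¹ := by
  obtain ⟨e, e', h1, h2, h3, h4, h5⟩ := IC.exists_exps 3 M
  set u := m ^ e' with hu
  obtain ⟨k, hk⟩ := h4 m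
  have hu1 : u ≠ 1 := by
    intro h
    have h6 := h5 m
    rw [← hu, h, mul_one] at h6
    have h7 := h3 m
    rw [h6] at h7
    exact h7 hm
  have hk0 : k ≠ 0 := by
    rintro rfl
    apply hu1
    rw [← orderOf_eq_one_iff, hk, pow_zero]
  have hu3 : orderOf u = 3 := by
    have h6 : orderOf u ∣ Nat.card M := orderOf_dvd_natCard u
    rw [hk] at h6
    have h7 : ¬ 2 ≤ k := by
      intro h8
      apply d.h9
      exact (pow_dvd_pow 3 h8).trans h6
    have : k = 1 := by omega
    rw [hk, this, pow_one]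
  -- the Sylow subgroup generated by u
  have hup : IsPGroup 3 (Subgroup.zpowers u) :=
    IsPGroup.of_card (n := 1) (by rw [Nat.card_zpowers, hu3, pow_one])
  have huidx : ¬ 3 ∣ (Subgroup.zpowers u).index := by
    intro h
    have h1 := Subgroup.card_mul_index (Subgroup.zpowers u)
    rw [Nat.card_zpowers, hu3] at h1
    apply d.h9
    rw [← h1]
    obtain ⟨c, hc⟩ := h
    rw [hc]
    exact ⟨c, by ring⟩
  let P2 : Sylow 3 M := hup.toSylow huidx
  obtain ⟨g, hg⟩ := MulAction.exists_smul_eq M P2 (syl d)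
  have hmem : g * u * g⁻¹ ∈ Subgroup.zpowers z := by
    have h6 : ((g • P2 : Sylow 3 M) : Subgroup M) = Subgroup.zpowers z := by
      rw [hg, d.syl_coe]
    have h7 : ((P2 : Sylow 3 M) : Subgroup M) = Subgroup.zpowers u := IsPGroup.toSylow_coe _ _
    rw [← h6, Sylow.coe_subgroup_smul, ← MulAut.conj_apply]
    apply (Subgroup.smul_mem_pointwise_smul_iff (a := MulAut.conj g)).mpr
    rw [h7]
    exact Subgroup.mem_zpowers u
  have hcase : ∃ i, (i = 1 ∨ i = 2) ∧ g * u * g⁻¹ = z ^ i := by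
    rcases d.pow_cases hmem with h | h | h
    · exfalso
      apply hu1
      have : u = g⁻¹ * (g * u * g⁻¹) * g := by group
      rw [this, h]
      group
    · exact ⟨1, Or.inl rfl, by rw [h, pow_one]⟩
    · exact ⟨2, Or.inr rfl, h⟩
  obtain ⟨i, hi, hgi⟩ := hcase
  have hz3 : z ^ 3 = 1 := by rw [← d.hz]; exact pow_orderOf_eq_one z
  have hz4 : (z ^ 2) ^ 2 = z := by
    rw [← pow_mul]
    calc z ^ (2 * 2) = z ^ 3 * z := by group
      _ = z := by rw [hz3, one_mul]
  have hcm : Commute u (m ^ e) := (Commute.refl m).pow_pow e' e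
  have hcz' : Commute (z ^ i) (g * m ^ e * g⁻¹) := by
    rw [← hgi]
    exact (Commute.conj_iff g).mpr hcm
  have hcz : Commute z (g * m ^ e * g⁻¹) := by
    rcases hi with rfl | rfl
    · rwa [pow_one] at hcz'
    · have := hcz'.pow_left 2
      rwa [hz4] at this
  have hreg : ¬ 3 ∣ orderOf (g * m ^ e * g⁻¹) := by
    rw [← MulAut.conj_apply]
    have : orderOf ((MulAut.conj g) (m ^ e)) = orderOf (m ^ e) := (MulAut.conj g).orderOf_eq _
    rw [this]
    exact h3 m
  refine ⟨g⁻¹, i, ⟨g * m ^ e * g⁻¹, (d.hL _).mpr ⟨hcz, hreg⟩⟩, hi, ?_⟩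
  rw [← hgi]
  have : m = m ^ e * m ^ e' := (h5 m).symm
  calc m = m ^ e * m ^ e' := (h5 m).symm
    _ = u * m ^ e := hcm.eq.symm
    _ = _ := by group

end Dat

end Pool.Agent.Y62
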