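import Pool.Agent.Y62.ThmM2

/-!
Sums of squares of degrees in a block, orbit sums, and divisibility in `O`.
-/

set_option linter.style.haveILetI false
set_option linter.unusedSectionVars false

open scoped BigOperators Classical
open Pool.Agent.Helper884 Representation Pool.Agent.H254R3.IN

noncomputable section

namespace Pool.Agent.Y62

section arith

variable {O : ValuationSubring ℂ} {p : ℕ} [hp : Fact p.Prime]

lemma p_inv_not_mem (hpO : (p : ℂ) ∈ O.nonunits) : ((p : ℂ))⁻¹ ∉ O := by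
  intro h
  have h1 := red_mul (natCast_mem' (O := O) p) h
  have hp0 : (p : ℂ) ≠ 0 := by exact_mod_cast hp.out.ne_zero
  rw [mul_inv_cancel₀ hp0, red_one, red_eq_zero hpO, zero_mul] at h1
  exact one_ne_zero h1

/-- divisibility of integers can be tested in `O` -/
lemma dvd_of_div_mem (hpO : (p : ℂ) ∈ O.nonunits) {n k : ℕ} (h : (n : ℂ) / (p : ℂ) ^ k ∈ O) :
    p ^ k ∣ n := by
  have hp0 : (p : ℂ) ≠ 0 := by exact_mod_cast hp.out.ne_zero
  by_cases hn : n = 0
  · rw [hn]; exact dvd_zero _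
  obtain ⟨e, m, hm, rfl⟩ : ∃ e m, ¬ p ∣ m ∧ n = p ^ e * m :=
    Nat.exists_eq_pow_mul_and_not_dvd hn p hp.out.ne_one
  by_contra hnd
  have hek : e < k := by
    by_contra hcon
    push Not at hcon
    exact hnd ((pow_dvd_pow p hcon).trans (dvd_mul_right _ _))
  obtain ⟨t, rfl⟩ := Nat.exists_eq_add_of_lt hek
  apply p_inv_not_mem hpO
  have h1 : ((p : ℂ))⁻¹ = (((p ^ e * m : ℕ) : ℂ) / (p : ℂ) ^ (e + t + 1)) *
      ((m : ℂ)⁻¹ * (p : ℂ) ^ t) := by
    have hm0 : (m : ℂ) ≠ 0 := by
      intro h0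
      apply hm
      have : m = 0 := by exact_mod_cast h0
      rw [this]; exact dvd_zero _
    push_cast
    field_simp
    ring
  rw [h1]
  exact O.mul_mem _ _ h (O.mul_mem _ _ (nat_inv_mem hpO hm) (pow_mem (natCast_mem' p) t))

end arith

variable {G : Type} [Group G] [Fintype G]

section sumsq

variable {O : ValuationSubring ℂ} {B : Set (G → ℂ)}

lemma Om_add (f h χ : G → ℂ) : Om (fun g => f g + h g) χ = Om f χ + Om h χ := by
  unfold Om
  rw [← add_div, ← Finset.sum_add_distrib]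
  congr 1
  refine Finset.sum_congr rfl fun g _ => ?_
  ring

lemma Om_sum {ι : Type} (s : Finset ι) (F : ι → G → ℂ) (χ : G → ℂ) :
    Om (fun g => ∑ i ∈ s, F i g) χ = ∑ i ∈ s, Om (F i) χ := by
  unfold Om
  rw [← Finset.sum_div]
  congr 1
  rw [Finset.sum_comm]
  refine Finset.sum_congr rfl fun g _ => ?_
  rw [Finset.sum_mul]

/-- the class sum of a defect class is invertible in the block -/
lemma exists_inverse (hB : ∀ χ ∈ B, IsIrr χ) {x : G} (hω : ∀ χ ∈ B, omega χ x ∉ O.nonunits)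
    (T : Finset (G → ℂ)) (hT : ∀ χ ∈ T, χ ∈ B) :
    ∃ y : G → ℂ, IsCl y ∧ (∀ g, y g ∈ O) ∧ ∀ χ ∈ T, Om y χ * omega χ x = 1 := by
  induction T using Finset.induction_on with
  | empty => exact ⟨fun _ => 0, fun _ _ => rfl, fun _ => O.zero_mem, by simp⟩
  | insert a s ha ih =>
    obtain ⟨y, hy1, hy2, hy3⟩ := ih fun χ hχ => hT χ (Finset.mem_insert_of_mem hχ)
    have haB := hT a (Finset.mem_insert_self a s)
    have hai := hB a haB
    have hred : red O (omega a x) ≠ 0 :=
      fun h => hω a haB ((red_eq_zero_iff (hai.omega_mem O x)).mp h)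
    obtain ⟨-, h2, h3⟩ := inv_mem_of_red_ne hred
    have hcv : IsCl (conv y (ind x)) := hy1.conv (ind_cl x)
    have hcl1 : IsCl (fun g : G => dl g - conv y (ind x) g) := by
      intro g z
      change dl (z * g * z⁻¹) - conv y (ind x) (z * g * z⁻¹) = _
      rw [dl_cl g z, hcv g z]
    refine ⟨fun g => y g + (omega a x)⁻¹ * (dl g - conv y (ind x) g), ?_, ?_, ?_⟩
    · intro g z
      change y (z * g * z⁻¹) + (omega a x)⁻¹ * (dl (z * g * z⁻¹) - conv y (ind x) (z * g * z⁻¹)) = _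
      rw [hy1 g z, dl_cl g z, hcv g z]
    · intro g
      exact O.add_mem _ _ (hy2 g) (O.mul_mem _ _ h2
        (sub_mem' (dl_mem O g) (conv_mem hy2 (fun g => ind_mem O x g) g)))
    · intro χ hχ
      have hχi := hB χ (hT χ hχ)
      have h4 : Om (fun g => y g + (omega a x)⁻¹ * (dl g - conv y (ind x) g)) χ =
          Om y χ + (omega a x)⁻¹ * (1 - Om y χ * omega χ x) := by
        rw [Om_add, Om_smul, Om_sub, Om_dl hχi, Om_conv hχi hy1 (ind_cl x), Om_ind hχi]
      rw [h4]
      rcases Finset.mem_insert.mp hχ with rfl | hχ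
      · field_simp
        ring
      · rw [hy3 χ hχ, sub_self, mul_zero, add_zero, hy3 χ hχ]

/-- `∑_{χ ∈ B} χ(1)² |C_G(x)| / |G|² ∈ O` for a defect class `x` -/
theorem sum_sq_mem (hB : IsBlock O B) {x : G} (hω : ∀ χ ∈ B, omega χ x ∉ O.nonunits) :
    (∑ χ ∈ (IC.Irr G).filter (· ∈ B), χ 1 ^ 2) *
      (Nat.card (Subgroup.centralizer ({x} : Set G)) : ℂ) / (Nat.card G : ℂ) ^ 2 ∈ O := by
  obtain ⟨y, hy1, hy2, hy3⟩ := exists_inverse hB.irr hω ((IC.Irr G).filter (· ∈ B))
    (fun χ hχ => (Finset.mem_filter.mp hχ).2)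
  have hbc := blockCoeff_cl hB.irr
  have hE1 : IsCl (conv y (blockCoeff B)) := hy1.conv hbc
  have hE2 : ∀ g, conv y (blockCoeff B) g ∈ O := conv_mem hy2 (blockCoeff_mem hB)
  have hirr : ∀ χ ∈ (IC.Irr G).filter (· ∈ B), IsIrr χ := fun χ hχ =>
    mem_Irr.mp (Finset.mem_filter.mp hχ).1
  have key : conv y (blockCoeff B) =
      fun g => ∑ χ ∈ (IC.Irr G).filter (· ∈ B), (omega χ x)⁻¹ * idem χ g := by
    apply eq_of_Om hE1
    · intro g z
      refine Finset.sum_congr rfl fun χ hχ => ?_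
      rw [idem_cl (hirr χ hχ) g z]
    · intro ψ hψ
      rw [Om_conv hψ hy1 hbc, Om_blockCoeff hB.irr hψ, Om_sum]
      have h1 : ∀ χ ∈ (IC.Irr G).filter (· ∈ B), Om (fun g => (omega χ x)⁻¹ * idem χ g) ψ =
          if ψ = χ then (omega χ x)⁻¹ else 0 := by
        intro χ hχ
        rw [Om_smul, Om_idem (hirr χ hχ) hψ]
        split_ifs <;> ring
      rw [Finset.sum_congr rfl h1, Finset.sum_ite_eq]
      by_cases h : ψ ∈ B
      · have hmem : ψ ∈ (IC.Irr G).filter (· ∈ B) :=
          Finset.mem_filter.mpr ⟨mem_Irr.mpr hψ, h⟩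
        rw [if_pos h, if_pos hmem, mul_one]
        exact eq_inv_of_mul_eq_one_left (hy3 ψ hmem)
      · rw [if_neg h, if_neg (fun h' => h (Finset.mem_filter.mp h').2), mul_zero]
  have h1 := hE2 x⁻¹
  rw [key] at h1
  have h2 : ∑ χ ∈ (IC.Irr G).filter (· ∈ B), (omega χ x)⁻¹ * idem χ x⁻¹ =
      (∑ χ ∈ (IC.Irr G).filter (· ∈ B), χ 1 ^ 2) *
      (Nat.card (Subgroup.centralizer ({x} : Set G)) : ℂ) / (Nat.card G : ℂ) ^ 2 := by
    rw [Finset.sum_mul, Finset.sum_div]
    refine Finset.sum_congr rfl fun χ hχ => ?_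
    have hχi := hirr χ hχ
    have hred : red O (omega χ x) ≠ 0 := fun h => hω χ (Finset.mem_filter.mp hχ).2
      ((red_eq_zero_iff (hχi.omega_mem O x)).mp h)
    have h3 := (inv_mem_of_red_ne hred).2.2
    have h4 : (Nat.card G : ℂ) ≠ 0 := by exact_mod_cast Nat.card_pos.ne'
    unfold idem
    rw [inv_inv, hχi.val_eq x]
    field_simp
  rw [← h2]
  exact h1

/-- `∑_{χ ∈ B} u_χ² ∈ |D| O` -/
theorem sum_uu_mem {p : ℕ} [hp : Fact p.Prime] (hpO : (p : ℂ) ∈ O.nonunits) {D : Subgroup G}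
    (hB : IsBlock O B) (hD : IsDefectGroup p O B D) :
    (∑ χ ∈ (IC.Irr G).filter (· ∈ B), uu D χ ^ 2) / (Nat.card D : ℂ) ∈ O := by
  obtain ⟨x, ⟨P, rfl⟩, hω, -⟩ := hD
  have h1 := sum_sq_mem hB hω
  have hcard : Nat.card ((P : Subgroup (Subgroup.centralizer ({x} : Set G))).map
      (Subgroup.centralizer ({x} : Set G)).subtype) = Nat.card P :=
    (Nat.card_congr ((P : Subgroup (Subgroup.centralizer ({x} : Set G))).equivMapOfInjective _
      (Subgroup.centralizer ({x} : Set G)).subtype_injective).toEquiv).symm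
  have h6 : Nat.card P * (P : Subgroup (Subgroup.centralizer ({x} : Set G))).index =
      Nat.card (Subgroup.centralizer ({x} : Set G)) := Subgroup.card_mul_index _
  have h7 : ¬ p ∣ (P : Subgroup (Subgroup.centralizer ({x} : Set G))).index := P.not_dvd_index
  have h9 : (Nat.card (Subgroup.centralizer ({x} : Set G)) : ℂ) =
      Nat.card P * (P : Subgroup (Subgroup.centralizer ({x} : Set G))).index := by
    exact_mod_cast h6.symm
  have hG0 : (Nat.card G : ℂ) ≠ 0 := by exact_mod_cast Nat.card_pos.ne'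
  have hP0 : (Nat.card P : ℂ) ≠ 0 := by exact_mod_cast Nat.card_pos.ne'
  have hk0 : ((P : Subgroup (Subgroup.centralizer ({x} : Set G))).index : ℂ) ≠ 0 := by
    exact_mod_cast (Subgroup.index_ne_zero_of_finite)
  rw [hcard]
  have h10 : (∑ χ ∈ (IC.Irr G).filter (· ∈ B), uu ((P : Subgroup (Subgroup.centralizer
      ({x} : Set G))).map (Subgroup.centralizer ({x} : Set G)).subtype) χ ^ 2) /
      (Nat.card P : ℂ) =
      ((∑ χ ∈ (IC.Irr G).filter (· ∈ B), χ 1 ^ 2) *
      (Nat.card (Subgroup.centralizer ({x} : Set G)) : ℂ) / (Nat.card G : ℂ) ^ 2) *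
      ((P : Subgroup (Subgroup.centralizer ({x} : Set G))).index : ℂ)⁻¹ := by
    unfold uu
    rw [hcard, h9]
    have h11 : ∀ χ : G → ℂ, (χ 1 * (Nat.card P : ℂ) / Nat.card G) ^ 2 =
        χ 1 ^ 2 * ((Nat.card P : ℂ) / Nat.card G) ^ 2 := by
      intro χ
      ring
    simp only [h11]
    rw [← Finset.sum_mul]
    field_simp
  rw [h10]
  exact O.mul_mem _ _ h1 (nat_inv_mem hpO h7)

end sumsq

section orbit

/-- orbit sums -/
theorem orbit_sum_mem {O : ValuationSubring ℂ} {A X : Type} [Group A] [Fintype A] [Fintype X]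
    [MulAction A X] (W : X → ℂ) (hW : ∀ (a : A) x, W (a • x) = W x) (c : ℂ)
    (h : ∀ x, ∃ v ∈ O, W x = c * Nat.card (MulAction.stabilizer A x) * v) :
    ∃ v ∈ O, ∑ x, W x = c * Nat.card A * v := by
  have h1 : ∑ x, W x = ∑ q : MulAction.orbitRel.Quotient A X,
      ∑ x ∈ Finset.univ.filter (fun x : X => (Quotient.mk'' x : MulAction.orbitRel.Quotient A X) = q),
        W x := (Finset.sum_fiberwise Finset.univ
          (fun x : X => (Quotient.mk'' x : MulAction.orbitRel.Quotient A X)) W).symm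
  have h2 : ∀ q : MulAction.orbitRel.Quotient A X, ∃ v ∈ O,
      ∑ x ∈ Finset.univ.filter (fun x : X => (Quotient.mk'' x : MulAction.orbitRel.Quotient A X) = q),
        W x = c * Nat.card A * v := by
    intro q
    obtain ⟨x₀, hx₀⟩ : ∃ x₀ : X, (Quotient.mk'' x₀ : MulAction.orbitRel.Quotient A X) = q :=
      Quotient.inductionOn' q fun x => ⟨x, rfl⟩
    obtain ⟨v, hv, hWv⟩ := h x₀
    have h3 : ∀ x : X, (Quotient.mk'' x : MulAction.orbitRel.Quotient A X) = q ↔
        x ∈ MulAction.orbit A x₀ := by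
      intro x
      rw [← hx₀, Quotient.eq'']
      exact MulAction.orbitRel_apply
    have h4 : ∀ x ∈ Finset.univ.filter
        (fun x : X => (Quotient.mk'' x : MulAction.orbitRel.Quotient A X) = q), W x = W x₀ := by
      intro x hx
      obtain ⟨a, rfl⟩ := (h3 x).mp (Finset.mem_filter.mp hx).2
      exact hW a x₀
    have h5 : (Finset.univ.filter
        (fun x : X => (Quotient.mk'' x : MulAction.orbitRel.Quotient A X) = q)).card =
        Nat.card (MulAction.orbit A x₀) := by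
      rw [Nat.card_eq_fintype_card, ← Fintype.card_coe]
      refine Fintype.card_congr (Equiv.subtypeEquivRight fun x => ?_)
      simp only [Finset.mem_filter, Finset.mem_univ, true_and]
      exact h3 x
    have h6 : Nat.card (MulAction.orbit A x₀) * Nat.card (MulAction.stabilizer A x₀) =
        Nat.card A := by
      have := MulAction.card_orbit_mul_card_stabilizer_eq_card_group A x₀
      simp only [Nat.card_eq_fintype_card]
      exact this
    refine ⟨v, hv, ?_⟩
    rw [Finset.sum_congr rfl h4, Finset.sum_const, nsmul_eq_mul, h5, hWv, ← h6]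
    push_cast
    ring
  choose v hv hsum using h2
  refine ⟨∑ q, v q, sum_mem fun q _ => hv q, ?_⟩
  rw [h1, Finset.mul_sum]
  exact Finset.sum_congr rfl fun q _ => hsum q

end orbit

/-- Fourier sums supported on multiples of `m` -/
lemma fourier_supported {q m u : ℕ} (hq : q = m * u) (hq0 : q ≠ 0) {ζ : ℂ}
    (hζ : IsPrimitiveRoot ζ q) (n : ℕ → ℂ)
    (h0 : ∀ i < q, ¬ m ∣ i → ∑ j ∈ Finset.range q, n j * ζ ^ (i * j) = 0) :
    ∑ j ∈ Finset.range q, n j = m * ∑ j ∈ Finset.range u, n j := by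
  have hu0 : u ≠ 0 := by rintro rfl; exact hq0 (by rw [hq, mul_zero])
  have hm0 : m ≠ 0 := by rintro rfl; exact hq0 (by rw [hq, zero_mul])
  have hz0 : ζ ≠ 0 := hζ.ne_zero hq0
  set f : ℕ → ℂ := fun i => ∑ j ∈ Finset.range q, n j * ζ ^ (i * j) with hf
  -- inverse transform
  have h1 : ∀ j < q, ∑ i ∈ Finset.range q, f i * (ζ⁻¹) ^ (i * j) = q * n j := by
    intro j hj
    simp only [hf, Finset.sum_mul]
    rw [Finset.sum_comm, Finset.sum_eq_single j]
    · have : ∀ i ∈ Finset.range q, n j * ζ ^ (i * j) * ζ⁻¹ ^ (i * j) = n j := by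
        intro i _
        rw [mul_assoc, ← mul_pow, mul_inv_cancel₀ hz0, one_pow, mul_one]
      rw [Finset.sum_congr rfl this, Finset.sum_const, Finset.card_range, nsmul_eq_mul]
    · intro k hk hkj
      have h2 : ζ ^ k * (ζ⁻¹) ^ j ≠ 1 := by
        intro h
        apply hkj
        have h3 : ζ ^ k = ζ ^ j := by
          have h4 := congrArg (· * ζ ^ j) h
          simp only [one_mul] at h4
          rw [mul_assoc, ← mul_pow, inv_mul_cancel₀ hz0, one_pow, mul_one] at h4
          exact h4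
        exact hζ.pow_inj (Finset.mem_range.mp hk) hj h3
      have h3 : (ζ ^ k * (ζ⁻¹) ^ j) ^ q = 1 := by
        rw [mul_pow, ← pow_mul, ← pow_mul, mul_comm k, mul_comm j, pow_mul, pow_mul, inv_pow,
          hζ.pow_eq_one]
        simp
      have h4 := geom_sum_mul (ζ ^ k * (ζ⁻¹) ^ j) q
      rw [h3, sub_self] at h4
      have h5 := (mul_eq_zero.mp h4).resolve_right (sub_ne_zero.mpr h2)
      have h6 : ∀ i ∈ Finset.range q, n k * ζ ^ (i * k) * ζ⁻¹ ^ (i * j) =
          n k * (ζ ^ k * (ζ⁻¹) ^ j) ^ i := by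
        intro i _
        rw [mul_pow, ← pow_mul, ← pow_mul, mul_comm k i, mul_comm j i, mul_assoc]
      rw [Finset.sum_congr rfl h6, ← Finset.mul_sum, h5, mul_zero]
    · intro h
      exact absurd (Finset.mem_range.mpr hj) h
  -- sum over j < u
  have h2 : ∑ j ∈ Finset.range u, ∑ i ∈ Finset.range q, f i * (ζ⁻¹) ^ (i * j) = u * f 0 := by
    rw [Finset.sum_comm, Finset.sum_eq_single 0]
    · simp
    · intro i hi hi0
      by_cases hmi : m ∣ i
      · obtain ⟨i', rfl⟩ := hmi
        rw [← Finset.mul_sum]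
        have hζm : IsPrimitiveRoot (ζ ^ m) u := hζ.pow (Nat.pos_of_ne_zero hq0) hq
        have h3 : (ζ ^ m) ^ i' ≠ 1 := by
          intro h
          have h4 := (hζm.pow_eq_one_iff_dvd i').mp h
          obtain ⟨k, rfl⟩ := h4
          have h5 : m * (u * k) < q := Finset.mem_range.mp hi
          rw [hq, ← mul_assoc] at h5
          have hk : k = 0 := by
            by_contra hk
            have : m * u * 1 ≤ m * u * k := Nat.mul_le_mul_left _ (Nat.pos_of_ne_zero hk)
            omega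
          apply hi0
          rw [hk]
          simp
        have h4 : (((ζ ^ m) ^ i')⁻¹) ^ u = 1 := by
          rw [inv_pow, ← pow_mul, mul_comm i' u, pow_mul, hζm.pow_eq_one, one_pow, inv_one]
        have h5 := geom_sum_mul (((ζ ^ m) ^ i')⁻¹) u
        rw [h4, sub_self] at h5
        have h6 := (mul_eq_zero.mp h5).resolve_right (sub_ne_zero.mpr (fun h => h3 (by
          rw [← inv_inv ((ζ ^ m) ^ i'), h, inv_one])))
        have h7 : ∀ j ∈ Finset.range u, (ζ⁻¹) ^ (m * i' * j) = (((ζ ^ m) ^ i')⁻¹) ^ j := by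
          intro j _
          rw [pow_mul, pow_mul, inv_pow, inv_pow]
        rw [Finset.sum_congr rfl h7, h6, mul_zero]
      · have h3 : f i = 0 := h0 i (Finset.mem_range.mp hi) hmi
        simp only [h3, zero_mul, Finset.sum_const_zero]
    · intro h
      exact absurd (Finset.mem_range.mpr (Nat.pos_of_ne_zero hq0)) h
  have h3 : ∑ j ∈ Finset.range u, ∑ i ∈ Finset.range q, f i * (ζ⁻¹) ^ (i * j) =
      q * ∑ j ∈ Finset.range u, n j := by
    rw [Finset.mul_sum]
    refine Finset.sum_congr rfl fun j hj => h1 j ?_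
    have h4 : j < u := Finset.mem_range.mp hj
    rw [hq]
    exact lt_of_lt_of_le h4 (Nat.le_mul_of_pos_left u (Nat.pos_of_ne_zero hm0))
  rw [h2] at h3
  have h4 : f 0 = ∑ j ∈ Finset.range q, n j := by
    simp only [hf, zero_mul, pow_zero, mul_one]
  rw [h4] at h3
  have hu0' : (u : ℂ) ≠ 0 := by exact_mod_cast hu0
  apply mul_left_cancel₀ hu0'
  rw [h3, hq]
  push_cast
  ring

end Pool.Agent.Y62
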