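import Pool.Agent.Y62.Low1

/-!
The core hypotheses, and divisibility of the number of characters of height zero.
-/

set_option linter.style.haveILetI false
set_option linter.unusedSectionVars false

open scoped BigOperators Classical
open Pool.Agent.Helper884 Representation Pool.Agent.H254R3.IN

noncomputable section

namespace Pool.Agent.Y62

variable {G : Type} [Group G] [Fintype G]

/-- the irreducible characters in `B` -/
def XB (B : Set (G → ℂ)) : Finset (G → ℂ) := (IC.Irr G).filter (· ∈ B)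

/-- the hypotheses of the counting theorem -/
structure Core (O : ValuationSubring ℂ) (N D : Subgroup G) (y : G) (B : Set (G → ℂ)) : Prop where
  hO : ((3 : ℕ) : ℂ) ∈ O.nonunits
  hB : IsBlock O B
  hu : ∀ χ ∈ B, uu D χ ∈ O
  hcc : ∀ χ ∈ B, cc O 3 D χ ≠ 0
  hne : ∃ χ ∈ B, red O (uu D χ) ≠ 0
  hsum : (∑ χ ∈ XB B, uu D χ ^ 2) / (Nat.card D : ℂ) ∈ O
  hD : IsPGroup 3 D
  hN : N.Normal
  hy : y ∈ D
  hgen : N ⊔ Subgroup.zpowers y = ⊤
  hNt : N ≠ ⊤
  h9 : ¬ 9 ∣ Nat.card (Subgroup.centralizer ({y} : Set G) ⊓ N : Subgroup G)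
  hDN : D ⊓ N ≠ ⊥

/-- Fourier expansion of `i ↦ χ(y^i s)` -/
lemma val_fourier {O : ValuationSubring ℂ} {χ : G → ℂ} (hχ : IsIrr χ) {y s : G}
    (hys : Commute y s) (l : Subgroup.zpowers y →* ℂˣ) (hl : Function.Injective l) :
    ∃ n : ℕ → ℂ, (∀ j, n j ∈ O) ∧ ∀ i : ℕ, χ (y ^ i * s) =
      ∑ j ∈ Finset.range (orderOf y), n j * ((l (yy y) : ℂˣ) : ℂ) ^ (i * j) := by
  have hy : ∀ h ∈ Subgroup.zpowers s, Commute y h := by
    intro h hh
    obtain ⟨m, rfl⟩ := Subgroup.mem_zpowers_iff.mp hh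
    exact hys.zpow_right m
  have hex : ∀ θ ∈ IC.Irr (Subgroup.zpowers s), ∃ n : ℕ → ℕ, ∀ t : ℕ,
      ips (Subgroup.zpowers s) (y ^ t) χ θ =
      ∑ j ∈ Finset.range (orderOf y), (n j : ℂ) * ((l (yy y) : ℂˣ) : ℂ) ^ (t * j) :=
    fun θ hθ => ips_fourier hχ hy (IC.mem_Irr.mp hθ) l hl
  let nn : (Subgroup.zpowers s → ℂ) → ℕ → ℕ := fun θ =>
    if h : θ ∈ IC.Irr (Subgroup.zpowers s) then Classical.choose (hex θ h) else fun _ => 0
  have hnn : ∀ θ ∈ IC.Irr (Subgroup.zpowers s), ∀ t : ℕ,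
      ips (Subgroup.zpowers s) (y ^ t) χ θ =
      ∑ j ∈ Finset.range (orderOf y), (nn θ j : ℂ) * ((l (yy y) : ℂˣ) : ℂ) ^ (t * j) := by
    intro θ hθ
    have h1 : nn θ = Classical.choose (hex θ hθ) := dif_pos hθ
    rw [h1]
    exact Classical.choose_spec (hex θ hθ)
  refine ⟨fun j => ∑ θ ∈ IC.Irr (Subgroup.zpowers s), (nn θ j : ℂ) *
    θ ⟨s, Subgroup.mem_zpowers s⟩, ?_, ?_⟩
  · intro j
    refine sum_mem fun θ hθ => O.mul_mem _ _ (natCast_mem' _) ?_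
    have hθ' : IsIrr θ := IC.mem_Irr.mp hθ
    exact hθ'.val_mem O _
  · intro i
    have hyt : ∀ h ∈ Subgroup.zpowers s, Commute (y ^ i) h := fun h hh => (hy h hh).pow_left i
    have h2 := val_expand hχ hyt ⟨s, Subgroup.mem_zpowers s⟩
    change χ (y ^ i * s) = _ at h2
    rw [h2, Finset.sum_congr rfl (fun θ hθ => by rw [hnn θ hθ i])]
    simp only [Finset.sum_mul]
    rw [Finset.sum_comm]
    refine Finset.sum_congr rfl fun j _ => Finset.sum_congr rfl fun θ _ => ?_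
    ring

lemma block_of_red {O : ValuationSubring ℂ} {B : Set (G → ℂ)} (hB : IsBlock O B)
    {χ ψ : G → ℂ} (hχ : χ ∈ B) (hψ : IsIrr ψ)
    (h : ∀ x, red O (omega ψ x) = red O (omega χ x)) : ψ ∈ B := by
  by_contra hn
  obtain ⟨x, hx⟩ := hB.exists_ne hχ hψ hn
  exact hx (h x).symm

/-- `u_χ` is a quotient of natural numbers with denominator prime to `p` -/
lemma uu_rat {O : ValuationSubring ℂ} {p : ℕ} [hp : Fact p.Prime] (hpO : (p : ℂ) ∈ O.nonunits)
    {D : Subgroup G} {χ : G → ℂ} (hχ : IsIrr χ) (hu : uu D χ ∈ O) :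
    ∃ a b : ℕ, ¬ p ∣ b ∧ uu D χ = (a : ℂ) / b ∧ ∃ e, p ^ e * b = D.index ∧
      (p ^ e * a : ℕ) = χ 1 := by
  obtain ⟨n, hn, hnχ⟩ := hχ.deg
  have hidx : D.index ≠ 0 := Subgroup.index_ne_zero_of_finite
  obtain ⟨e, b, hb, hidx2⟩ : ∃ e m, ¬ p ∣ m ∧ D.index = p ^ e * m :=
    Nat.exists_eq_pow_mul_and_not_dvd hidx p hp.out.ne_one
  have hcard : (Nat.card G : ℂ) = Nat.card D * D.index := by
    exact_mod_cast (Subgroup.card_mul_index D).symm
  have hD0 : (Nat.card D : ℂ) ≠ 0 := by exact_mod_cast Nat.card_pos.ne'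
  have hi0 : (D.index : ℂ) ≠ 0 := by exact_mod_cast hidx
  have hb0 : (b : ℂ) ≠ 0 := by
    intro h
    apply hb
    have : b = 0 := by exact_mod_cast h
    rw [this]; exact dvd_zero _
  have hp0 : (p : ℂ) ≠ 0 := by exact_mod_cast hp.out.ne_zero
  have hu1 : uu D χ = n / D.index := by
    unfold uu
    rw [hcard, ← hnχ]
    field_simp
  have h1 : (n : ℂ) / (p : ℂ) ^ e ∈ O := by
    have h2 : (n : ℂ) / (p : ℂ) ^ e = uu D χ * b := by
      rw [hu1, hidx2]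
      push_cast
      field_simp
    rw [h2]
    exact O.mul_mem _ _ hu (natCast_mem' b)
  obtain ⟨a, ha⟩ := dvd_of_div_mem hpO h1
  refine ⟨a, b, hb, ?_, e, hidx2.symm, ?_⟩
  · rw [hu1, hidx2, ha]
    push_cast
    field_simp
  · rw [← ha, hnχ]

/-- the numerical part of the weight computation -/
lemma weight_num {O : ValuationSubring ℂ} (hO : ((3 : ℕ) : ℂ) ∈ O.nonunits) {u v : ℂ} {m n b : ℕ}
    (hu : u ∈ O) (hb : ¬ 3 ∣ b) (hnb : u = (n : ℂ) / b) (h1 : red O u ≠ 0 → m = 1) (hv : v ∈ O)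
    (h2 : u = m * v) :
    ∃ w ∈ O, u ^ 2 - (if red O u ≠ 0 then 1 else 0) = 3 * m * w := by
  have hbO : ((b : ℕ) : ℂ)⁻¹ ∈ O := nat_inv_mem (p := 3) hO hb
  have hb0 : (b : ℂ) ≠ 0 := by
    intro h
    apply hb
    have : b = 0 := by exact_mod_cast h
    rw [this]; exact dvd_zero _
  by_cases hred : red O u = 0
  · have h3n : 3 ∣ n := by
      rw [← red_nat_eq_zero_iff (p := 3) hO]
      have : (n : ℂ) = u * b := by
        rw [hnb]
        field_simp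
      rw [this, red_mul hu (natCast_mem' b), hred, zero_mul]
    obtain ⟨n', rfl⟩ := h3n
    refine ⟨((n' : ℂ) * (b : ℂ)⁻¹) * v, O.mul_mem _ _ (O.mul_mem _ _ (natCast_mem' _) hbO) hv, ?_⟩
    rw [if_neg (not_not.mpr hred), sub_zero, sq]
    have h3 : u * u = u * (m * v) := by rw [← h2]
    have h4 : u = 3 * ((n' : ℂ) * (b : ℂ)⁻¹) := by
      rw [hnb, div_eq_mul_inv]
      push_cast
      ring
    rw [h3]
    calc u * (m * v) = (3 * ((n' : ℂ) * (b : ℂ)⁻¹)) * (m * v) := by rw [← h4]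
      _ = _ := by ring
  · have h3n : ¬ 3 ∣ n := by
      intro h
      apply hred
      rw [hnb, div_eq_mul_inv, red_mul (natCast_mem' _) hbO,
        (red_nat_eq_zero_iff (p := 3) hO n).mpr h, zero_mul]
    have h4 : (3 : ℤ) ∣ (n : ℤ) ^ 2 - (b : ℤ) ^ 2 := by
      have hn' : (n : ℤ) % 3 = 1 ∨ (n : ℤ) % 3 = 2 := by omega
      have hb' : (b : ℤ) % 3 = 1 ∨ (b : ℤ) % 3 = 2 := by omega
      apply Int.dvd_of_emod_eq_zero
      rcases hn' with h | h <;> rcases hb' with h' | h' <;>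
        simp [Int.sub_emod, pow_two, Int.mul_emod, h, h']
    obtain ⟨w, hw⟩ := h4
    have hw' : (n : ℂ) ^ 2 - (b : ℂ) ^ 2 = 3 * w := by exact_mod_cast hw
    refine ⟨(w : ℂ) * ((b : ℂ)⁻¹ * (b : ℂ)⁻¹), O.mul_mem _ _ (intCast_mem' w)
      (O.mul_mem _ _ hbO hbO), ?_⟩
    rw [if_pos hred, h1 hred, hnb]
    have h5 : ((n : ℂ) / b) ^ 2 - 1 = ((n : ℂ) ^ 2 - (b : ℂ) ^ 2) * ((b : ℂ)⁻¹ * (b : ℂ)⁻¹) := by
      field_simp
    rw [h5, hw']
    push_cast
    ring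

section tw

/-- twist -/
def tw (a : G →* ℂˣ) (χ : G → ℂ) (g : G) : ℂ := ((a g : ℂˣ) : ℂ) * χ g

lemma tw_one (χ : G → ℂ) : tw 1 χ = χ := by
  funext g
  unfold tw
  simp

lemma tw_mul (a b : G →* ℂˣ) (χ : G → ℂ) : tw (a * b) χ = tw a (tw b χ) := by
  funext g
  unfold tw
  simp [mul_assoc]

lemma tw_irr (a : G →* ℂˣ) {χ : G → ℂ} (hχ : IsIrr χ) : IsIrr (tw a χ) := irr_twist hχ a

lemma uu_tw (a : G →* ℂˣ) (D : Subgroup G) (χ : G → ℂ) : uu D (tw a χ) = uu D χ := by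
  unfold uu tw
  simp

lemma omega_tw (a : G →* ℂˣ) (χ : G → ℂ) (x : G) :
    omega (tw a χ) x = ((a x : ℂˣ) : ℂ) * omega χ x := by
  unfold omega tw
  simp only [map_one, Units.val_one, one_mul]
  ring

lemma tw_block {O : ValuationSubring ℂ} {p : ℕ} [hp : Fact p.Prime] (hpO : (p : ℂ) ∈ O.nonunits)
    {B : Set (G → ℂ)} (hB : IsBlock O B) {k : ℕ} (a : G →* ℂˣ) (ha : ∀ g, a g ^ p ^ k = 1)
    {χ : G → ℂ} (hχ : χ ∈ B) : tw a χ ∈ B := by
  have hi := hB.irr χ hχ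
  apply block_of_red hB hχ (tw_irr a hi)
  intro x
  have h1 : (((a x : ℂˣ) : ℂ)) ^ p ^ k = 1 := by
    rw [← Units.val_pow_eq_pow_val, ha, Units.val_one]
  have h2 : (((a x : ℂˣ) : ℂ)) ∈ O := root_mem (pow_ne_zero _ hp.out.ne_zero) h1
  rw [omega_tw, red_mul h2 (hi.omega_mem O x), red_root hpO h1, one_mul]

end tw

namespace Core

variable {O : ValuationSubring ℂ} {N D : Subgroup G} {y : G} {B : Set (G → ℂ)}
  (c : Core O N D y B)

include c

lemma ord_y : ∃ k, orderOf y = 3 ^ k := by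
  obtain ⟨k, hk⟩ := c.hD.exists_card_eq
  have h1 : orderOf y ∣ Nat.card D := Subgroup.orderOf_dvd_natCard D c.hy
  rw [hk] at h1
  obtain ⟨j, _, hj⟩ := (Nat.dvd_prime_pow Nat.prime_three).mp h1
  exact ⟨j, hj⟩

lemma gen (g : G) : ∃ n ∈ N, ∃ i : ℤ, n * y ^ i = g := by
  haveI := c.hN
  have h1 : g ∈ N ⊔ Subgroup.zpowers y := by rw [c.hgen]; trivial
  obtain ⟨n, hn, u, hu, h⟩ := Subgroup.mem_sup_of_normal_left.mp h1
  obtain ⟨i, rfl⟩ := Subgroup.mem_zpowers_iff.mp hu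
  exact ⟨n, hn, i, h⟩

/-- the linear character with kernel `N` -/
lemma exists_lin : ∃ l : G →* ℂˣ, ∀ g, l g = 1 ↔ g ∈ N := by
  haveI := c.hN
  have hcyc : IsCyclic (G ⧸ N) := by
    refine ⟨QuotientGroup.mk y, fun x => ?_⟩
    obtain ⟨g, rfl⟩ := QuotientGroup.mk_surjective x
    obtain ⟨n, hn, i, rfl⟩ := c.gen g
    refine ⟨i, ?_⟩
    change (QuotientGroup.mk y : G ⧸ N) ^ i = _
    rw [QuotientGroup.mk_mul, (QuotientGroup.eq_one_iff n).mpr hn, one_mul]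
    rfl
  obtain ⟨l, hl⟩ := IC.exists_faithful hcyc
  refine ⟨l.comp (QuotientGroup.mk' N), fun g => ?_⟩
  rw [MonoidHom.comp_apply]
  constructor
  · intro h
    have h1 : (QuotientGroup.mk' N) g = 1 := hl (by rw [h, map_one])
    exact (QuotientGroup.eq_one_iff g).mp h1
  · intro h
    have h1 : (QuotientGroup.mk' N) g = 1 := (QuotientGroup.eq_one_iff g).mpr h
    rw [h1, map_one]

variable {l : G →* ℂˣ} (hl : ∀ g, l g = 1 ↔ g ∈ N)

include hl

lemma pow_eq_one_iff' (a : G →* ℂˣ) (ha : ∀ g ∈ N, a g = 1) (j : ℕ) : a ^ j = 1 ↔ (a y) ^ j = 1 := by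
  constructor
  · intro h
    have := congrArg (fun f : G →* ℂˣ => f y) h
    simpa using this
  · intro h
    ext g
    obtain ⟨n, hn, i, rfl⟩ := c.gen g
    have h1 : (a ^ j) (n * y ^ i) = 1 := by
      rw [MonoidHom.pow_apply, map_mul, ha n hn, one_mul, map_zpow, ← zpow_natCast, ← zpow_mul,
        mul_comm, zpow_mul, zpow_natCast, h, one_zpow]
    rw [h1, MonoidHom.one_apply]

lemma order_l : orderOf l = orderOf (l y) := by
  rw [orderOf_eq_orderOf_iff]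
  exact fun n => c.pow_eq_one_iff' hl l (fun g hg => (hl g).mpr hg) n

lemma index_N : N.index = orderOf (l y) := by
  have hker : l.ker = N := by
    ext g
    rw [MonoidHom.mem_ker]
    exact hl g
  rw [← hker, Subgroup.index_ker]
  have hr : l.range = Subgroup.zpowers (l y) := by
    ext x
    constructor
    · rintro ⟨g, rfl⟩
      obtain ⟨n, hn, i, rfl⟩ := c.gen g
      rw [map_mul, (hl n).mpr hn, one_mul, map_zpow]
      exact Subgroup.zpow_mem _ (Subgroup.mem_zpowers _) i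
    · intro hx
      obtain ⟨i, rfl⟩ := Subgroup.mem_zpowers_iff.mp hx
      exact ⟨y ^ i, map_zpow _ _ _⟩
  rw [hr, Nat.card_zpowers]

omit hl in
lemma index_pow : ∃ r, 1 ≤ r ∧ N.index = 3 ^ r := by
  obtain ⟨l, hl⟩ := c.exists_lin
  obtain ⟨k, hk⟩ := c.ord_y
  have h1 := c.index_N hl
  have h2 : orderOf (l y) ∣ 3 ^ k := by
    rw [← hk]
    exact orderOf_map_dvd l y
  obtain ⟨r, _, hr⟩ := (Nat.dvd_prime_pow Nat.prime_three).mp h2
  refine ⟨r, ?_, by rw [h1, hr]⟩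
  by_contra h
  have hr0 : r = 0 := by omega
  rw [hr0, pow_zero] at hr
  rw [hr] at h1
  exact c.hNt (Subgroup.index_eq_one.mp h1)

omit hl in
/-- `3 |G:N|` divides `|D|` -/
lemma dvd_card_D : 3 * N.index ∣ Nat.card D := by
  obtain ⟨l, hl⟩ := c.exists_lin
  set lD : D →* ℂˣ := l.comp D.subtype with hlD
  have hr : lD.range = Subgroup.zpowers (l y) := by
    ext x
    constructor
    · rintro ⟨g, rfl⟩
      obtain ⟨n, hn, i, h⟩ := c.gen (g : G)
      rw [hlD, MonoidHom.comp_apply, Subgroup.subtype_apply, ← h, map_mul, (hl n).mpr hn, one_mul,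
        map_zpow]
      exact Subgroup.zpow_mem _ (Subgroup.mem_zpowers _) i
    · intro hx
      obtain ⟨i, rfl⟩ := Subgroup.mem_zpowers_iff.mp hx
      exact ⟨⟨y, c.hy⟩ ^ i, by rw [map_zpow]; rfl⟩
  have h1 : lD.ker.index = N.index := by
    rw [Subgroup.index_ker, hr, Nat.card_zpowers, c.index_N hl]
  have h2 := Subgroup.card_mul_index lD.ker
  rw [h1] at h2
  rw [← h2]
  apply Nat.mul_dvd_mul_right
  -- the kernel is a nontrivial 3-group
  have h3 : IsPGroup 3 lD.ker := c.hD.to_subgroup _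
  obtain ⟨k, hk⟩ := h3.exists_card_eq
  rw [hk]
  apply dvd_pow_self
  rintro rfl
  rw [pow_zero] at hk
  have h4 : lD.ker = ⊥ := Subgroup.eq_bot_of_card_eq _ hk
  apply c.hDN
  rw [eq_bot_iff]
  intro x hx
  have h5 : (⟨x, hx.1⟩ : D) ∈ lD.ker := by
    rw [MonoidHom.mem_ker, hlD, MonoidHom.comp_apply, Subgroup.subtype_apply]
    exact (hl x).mpr hx.2
  rw [h4, Subgroup.mem_bot] at h5
  exact (Subgroup.mem_bot).mpr (congrArg Subtype.val h5)

omit hl in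
/-- a good 3-regular element centralising `D` -/
lemma exists_s : ∃ s ∈ Sp 3 D, (kk D s : RF O) ≠ 0 ∧ ∀ χ ∈ B, red O (omega χ s) ≠ 0 := by
  obtain ⟨χ₀, hχ₀⟩ := c.hB.nonempty
  have h1 := c.hcc χ₀ hχ₀
  unfold cc at h1
  obtain ⟨K, hK, hne⟩ := Finset.exists_ne_zero_of_sum_ne_zero h1
  obtain ⟨s, hs, hc⟩ := (Finset.mem_filter.mp hK).2
  refine ⟨s, hs, ?_, ?_⟩
  · rw [← kk_congr D hc]
    exact left_ne_zero_of_mul hne
  · intro χ hχ
    rw [c.hB.red_eq hχ hχ₀, ← (c.hB.irr χ₀ hχ₀).omega_congr hc]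
    exact left_ne_zero_of_mul (right_ne_zero_of_mul hne)

omit hl in
lemma irr {χ : G → ℂ} (hχ : χ ∈ B) : IsIrr χ := c.hB.irr χ hχ

omit hl in
lemma comm_y {s : G} (hs : s ∈ Subgroup.centralizer (D : Set G)) : Commute y s :=
  Subgroup.mem_centralizer_iff.mp hs y c.hy

/-- 3-regular elements are killed by characters of 3-power order -/
lemma lin_regular {a : G →* ℂˣ} {k : ℕ} (ha : ∀ g, a g ^ 3 ^ k = 1) {s : G}
    (hs : ¬ 3 ∣ orderOf s) : a s = 1 := by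
  have h1 : orderOf (a s) ∣ 3 ^ k := orderOf_dvd_of_pow_eq_one (ha s)
  have h2 : orderOf (a s) ∣ orderOf s := orderOf_map_dvd a s
  have h3 : Nat.Coprime (3 ^ k) (orderOf s) :=
    Nat.Coprime.pow_left k ((Nat.Prime.coprime_iff_not_dvd Nat.prime_three).mpr hs)
  have h4 := Nat.dvd_gcd h1 h2
  rw [h3] at h4
  exact orderOf_eq_one_iff.mp (Nat.dvd_one.mp h4)

/-- the weights -/
theorem weight_mem {k : ℕ} (hk : orderOf y = 3 ^ k) {χ : G → ℂ} (hχ : χ ∈ B) {m : ℕ}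
    {a : G →* ℂˣ} (ha : ∀ g ∈ N, a g = 1) (ham : orderOf a = m) (hfix : tw a χ = χ) :
    (red O (uu D χ) ≠ 0 → m = 1) ∧ ∃ v ∈ O, uu D χ = m * v := by
  have hi := c.irr hχ
  obtain ⟨s, hs, hkk, hω⟩ := c.exists_s
  have hys := c.comm_y hs.2
  have h3k : ∀ g, a g ^ 3 ^ k = 1 := by
    intro g
    have h1 : a ^ 3 ^ k = 1 := by
      rw [c.pow_eq_one_iff' hl a ha, ← map_pow, ← hk, pow_orderOf_eq_one, map_one]
    have := congrArg (fun f : G →* ℂˣ => f g) h1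
    simpa using this
  have has : a s = 1 := c.lin_regular hl h3k hs.1
  have hval : χ s = omega χ s * uu D χ * kk D s := val_eq_kk hi (IsConj.refl s) hs.2
  have hfix' : ∀ g, ((a g : ℂˣ) : ℂ) * χ g = χ g := fun g => congrFun hfix g
  have hym : ∀ i : ℕ, ¬ m ∣ i → χ (y ^ i * s) = 0 := by
    intro i hmi
    have h1 := hfix' (y ^ i * s)
    rw [map_mul, has, mul_one, map_pow] at h1
    have h2 : (a y) ^ i ≠ 1 := by
      intro h
      apply hmi
      rw [← ham]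
      exact orderOf_dvd_of_pow_eq_one ((c.pow_eq_one_iff' hl a ha i).mpr h)
    have h3 : (((a y) ^ i : ℂˣ) : ℂ) - 1 ≠ 0 := by
      rw [sub_ne_zero]
      intro h
      exact h2 (Units.ext h)
    have h4 : ((((a y) ^ i : ℂˣ) : ℂ) - 1) * χ (y ^ i * s) = 0 := by
      rw [sub_mul, one_mul, h1, sub_self]
    exact (mul_eq_zero.mp h4).resolve_left h3
  have hredk : red O ((kk D s : ℕ) : ℂ) ≠ 0 := by rw [red_natCast]; exact hkk
  obtain ⟨hk1, hk2, hk3⟩ := inv_mem_of_red_ne hredk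
  obtain ⟨ho1, ho2, ho3⟩ := inv_mem_of_red_ne (hω χ hχ)
  constructor
  · intro hred
    by_contra hm1
    have h1 : χ (y ^ 1 * s) = 0 := hym 1 (fun h => hm1 (Nat.dvd_one.mp h))
    have h2 := val_red c.hO hi hk hys 1
    rw [h1, red_zero, hval, red_mul (O.mul_mem _ _ ho1 (c.hu χ hχ)) hk1,
      red_mul ho1 (c.hu χ hχ)] at h2
    exact (mul_ne_zero (mul_ne_zero (hω χ hχ) hred) hredk) h2.symm
  · obtain ⟨lam, hlam⟩ := exists_l y
    obtain ⟨n, hn, hf⟩ := val_fourier (O := O) hi hys lam hlam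
    have hζ := prim_root lam hlam
    have hmdvd : m ∣ orderOf y := by
      rw [← ham, hk]
      apply orderOf_dvd_of_pow_eq_one
      ext g
      rw [MonoidHom.pow_apply, h3k, MonoidHom.one_apply]
    obtain ⟨u, hu⟩ := hmdvd
    have h1 := fourier_supported hu (orderOf_pos y).ne' hζ n (by
      intro i _ hmi
      rw [← hf i]
      exact hym i hmi)
    have h2 := hf 0
    simp only [zero_mul, pow_zero, mul_one, one_mul] at h2
    rw [← h2] at h1
    refine ⟨(∑ j ∈ Finset.range u, n j) * ((omega χ s)⁻¹ * ((kk D s : ℕ) : ℂ)⁻¹),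
      O.mul_mem _ _ (sum_mem fun j _ => hn j) (O.mul_mem _ _ ho2 hk2), ?_⟩
    rw [← mul_assoc, ← h1, hval]
    field_simp

omit hl in
/-- the weighted sum -/
lemma sumW_mem : ∃ v ∈ O, ∑ χ ∈ XB B, (uu D χ ^ 2 - (if red O (uu D χ) ≠ 0 then 1 else 0)) =
    3 * N.index * v := by
  obtain ⟨l, hl⟩ := c.exists_lin
  obtain ⟨k, hk⟩ := c.ord_y
  obtain ⟨r, hr1, hr⟩ := c.index_pow
  have hl3 : ∀ a ∈ Subgroup.zpowers l, (∀ g ∈ N, a g = 1) ∧ ∀ g, a g ^ 3 ^ k = 1 := by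
    intro a ha
    obtain ⟨i, rfl⟩ := Subgroup.mem_zpowers_iff.mp ha
    have h1 : ∀ g ∈ N, (l ^ i) g = 1 := by
      intro g hg
      rw [MonoidHom.zpow_apply, (hl g).mpr hg, one_zpow]
    refine ⟨h1, fun g => ?_⟩
    have h2 : (l ^ i) ^ 3 ^ k = 1 := by
      rw [c.pow_eq_one_iff' hl _ h1, ← map_pow, ← hk, pow_orderOf_eq_one, map_one]
    have := congrArg (fun f : G →* ℂˣ => f g) h2
    simpa using this
  have hcardA : Nat.card (Subgroup.zpowers l) = N.index := by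
    rw [Nat.card_zpowers, c.order_l hl, ← c.index_N hl]
  have hfin : Finite (Subgroup.zpowers l) := by
    apply Nat.finite_of_card_ne_zero
    rw [hcardA, hr]
    exact pow_ne_zero _ (by norm_num)
  haveI : Fintype (Subgroup.zpowers l) := Fintype.ofFinite _
  have hclosed : ∀ a ∈ Subgroup.zpowers l, ∀ χ ∈ XB B, tw a χ ∈ XB B := by
    intro a ha χ hχ
    have hχB := (Finset.mem_filter.mp hχ).2
    exact Finset.mem_filter.mpr ⟨mem_Irr.mpr (tw_irr a (c.irr hχB)),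
      tw_block c.hO c.hB a (hl3 a ha).2 hχB⟩
  letI : MulAction (Subgroup.zpowers l) (XB B) :=
    { smul := fun a χ => ⟨tw a χ.1, hclosed a a.2 χ χ.2⟩
      one_smul := fun χ => Subtype.ext (by
        change tw ((1 : Subgroup.zpowers l) : G →* ℂˣ) χ.1 = χ.1
        rw [Subgroup.coe_one, tw_one])
      mul_smul := fun a b χ => Subtype.ext (by
        change tw ((a * b : Subgroup.zpowers l) : G →* ℂˣ) χ.1 =
          tw (a : G →* ℂˣ) (tw (b : G →* ℂˣ) χ.1)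
        rw [Subgroup.coe_mul, tw_mul]) }
  have hsm : ∀ (a : Subgroup.zpowers l) (χ : XB B), ((a • χ : XB B) : G → ℂ) = tw a χ.1 :=
    fun a χ => rfl
  have hW : ∀ (a : Subgroup.zpowers l) (χ : XB B),
      (uu D ((a • χ : XB B) : G → ℂ) ^ 2 -
        (if red O (uu D ((a • χ : XB B) : G → ℂ)) ≠ 0 then (1 : ℂ) else 0)) =
      uu D χ.1 ^ 2 - (if red O (uu D χ.1) ≠ 0 then (1 : ℂ) else 0) := by
    intro a χ
    rw [hsm, uu_tw]
  have hstab : ∀ χ : XB B, ∃ v ∈ O,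
      uu D χ.1 ^ 2 - (if red O (uu D χ.1) ≠ 0 then (1 : ℂ) else 0) =
      3 * Nat.card (MulAction.stabilizer (Subgroup.zpowers l) χ) * v := by
    intro χ
    have hχB : χ.1 ∈ B := (Finset.mem_filter.mp χ.2).2
    have hcyc : IsCyclic (MulAction.stabilizer (Subgroup.zpowers l) χ) := inferInstance
    obtain ⟨a, hao⟩ := hcyc.exists_ofOrder_eq_natCard
    have hao' : orderOf (a : Subgroup.zpowers l).1 =
        Nat.card (MulAction.stabilizer (Subgroup.zpowers l) χ) := by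
      rw [← hao, ← Subgroup.orderOf_coe, ← Subgroup.orderOf_coe]
    have hfix : tw (a : Subgroup.zpowers l).1 χ.1 = χ.1 :=
      congrArg Subtype.val (MulAction.mem_stabilizer_iff.mp a.2)
    obtain ⟨h1, v, hv, h2⟩ := c.weight_mem hl hk hχB
      (hl3 (a : Subgroup.zpowers l).1 (a : Subgroup.zpowers l).2).1 hao' hfix
    obtain ⟨n, b, hb, hnb, -⟩ := uu_rat (p := 3) c.hO (c.irr hχB) (c.hu χ.1 hχB)
    exact weight_num c.hO (c.hu χ.1 hχB) hb hnb h1 hv h2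
  obtain ⟨v, hv, hsumW⟩ := orbit_sum_mem (O := O)
    (fun χ : XB B => uu D χ.1 ^ 2 - (if red O (uu D χ.1) ≠ 0 then (1 : ℂ) else 0)) hW 3 hstab
  refine ⟨v, hv, ?_⟩
  rw [hcardA] at hsumW
  rw [← hsumW, Finset.sum_coe_sort (XB B)
    (fun χ => uu D χ ^ 2 - (if red O (uu D χ) ≠ 0 then (1 : ℂ) else 0))]

omit hl in
/-- **Divisibility** of the number of characters of height zero. -/
theorem dvd_count : 3 * N.index ∣ ((XB B).filter (fun χ => red O (uu D χ) ≠ 0)).card := by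
  obtain ⟨r, hr1, hr⟩ := c.index_pow
  obtain ⟨v, hv, hsumW⟩ := c.sumW_mem
  have h1 : ∑ χ ∈ XB B, (uu D χ ^ 2 - (if red O (uu D χ) ≠ 0 then (1 : ℂ) else 0)) =
      ∑ χ ∈ XB B, uu D χ ^ 2 -
      (((XB B).filter (fun χ => red O (uu D χ) ≠ 0)).card : ℂ) := by
    rw [Finset.sum_sub_distrib, ← Finset.sum_filter, Finset.sum_const, nsmul_eq_mul, mul_one]
  obtain ⟨t, ht⟩ := c.dvd_card_D
  have hD0 : (Nat.card D : ℂ) ≠ 0 := by exact_mod_cast Nat.card_pos.ne'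
  have hi0 : (N.index : ℂ) ≠ 0 := by
    rw [hr]
    push_cast
    exact pow_ne_zero _ (by norm_num)
  have h2 : (((XB B).filter (fun χ => red O (uu D χ) ≠ 0)).card : ℂ) / ((3 : ℕ) : ℂ) ^ (r + 1) ∈ O := by
    have h4 : (((XB B).filter (fun χ => red O (uu D χ) ≠ 0)).card : ℂ) =
        ∑ χ ∈ XB B, uu D χ ^ 2 - 3 * N.index * v := by
      rw [← hsumW, h1]
      ring
    have h5 : (Nat.card D : ℂ) = 3 * N.index * t := by exact_mod_cast ht
    have ht0 : (t : ℂ) ≠ 0 := by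
      intro h
      rw [h, mul_zero] at h5
      exact hD0 h5
    have h6 : ((3 : ℕ) : ℂ) ^ (r + 1) = 3 * N.index := by
      rw [hr]
      push_cast
      ring
    have h3 : (((XB B).filter (fun χ => red O (uu D χ) ≠ 0)).card : ℂ) / ((3 : ℕ) : ℂ) ^ (r + 1) =
        (∑ χ ∈ XB B, uu D χ ^ 2) / (Nat.card D : ℂ) * t - v := by
      rw [h4, h6, h5]
      generalize ∑ χ ∈ XB B, uu D χ ^ 2 = Z
      field_simp
    rw [h3]
    exact sub_mem' (O.mul_mem _ _ c.hsum (natCast_mem' t)) hv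
  have h3 := dvd_of_div_mem c.hO h2
  rw [hr]
  have : 3 * 3 ^ r = 3 ^ (r + 1) := by ring
  rw [this]
  exact h3

end Core

end Pool.Agent.Y62
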