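import Pool.Agent.Y62.UB2

/-!
Existence of characters of height zero in a block with given Brauer correspondent, and the
numerical description of height zero.
-/

set_option linter.style.haveILetI false
set_option linter.unusedSectionVars false

open scoped BigOperators Classical
open Pool.Agent.Helper884 Representation Pool.Agent.H254R3.IN

noncomputable section

namespace Pool.Agent.Y62

variable {G : Type} [Group G] [Fintype G]
variable {O : ValuationSubring ℂ} {p : ℕ} [hp : Fact p.Prime]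

/-- numerical description of height zero -/
lemma height_iff (hpO : (p : ℂ) ∈ O.nonunits) {D : Subgroup G} {χ : G → ℂ} (hχ : IsIrr χ)
    (hu : uu D χ ∈ O) : red O (uu D χ) ≠ 0 ↔
      ∃ n : ℕ, (n : ℂ) = χ 1 ∧ n.factorization p = D.index.factorization p := by
  obtain ⟨a, b, hb, hab, e, he, hdeg⟩ := uu_rat hpO hχ hu
  have hidx : D.index ≠ 0 := Subgroup.index_ne_zero_of_finite
  have hb0 : b ≠ 0 := by
    rintro rfl
    exact hb (dvd_zero _)
  have hbC : (b : ℂ) ≠ 0 := by exact_mod_cast hb0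
  have ha0 : a ≠ 0 := by
    rintro rfl
    apply hχ.one_ne
    rw [← hdeg, mul_zero, Nat.cast_zero]
  have hpe : p ^ e ≠ 0 := pow_ne_zero _ hp.out.ne_zero
  have hfi : D.index.factorization p = e := by
    rw [← he, Nat.factorization_mul hpe hb0, Finsupp.add_apply,
      Nat.factorization_eq_zero_of_not_dvd hb, hp.out.factorization_pow, Finsupp.single_eq_same,
      add_zero]
  have hfn : (p ^ e * a).factorization p = e + a.factorization p := by
    rw [Nat.factorization_mul hpe ha0, Finsupp.add_apply, hp.out.factorization_pow,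
      Finsupp.single_eq_same]
  have hred : red O (uu D χ) = 0 ↔ p ∣ a := by
    rw [← red_nat_eq_zero_iff hpO a]
    have h1 : (a : ℂ) = uu D χ * b := by
      rw [hab]
      field_simp
    rw [h1, red_mul hu (natCast_mem' b)]
    constructor
    · intro h
      rw [h, zero_mul]
    · intro h
      rcases mul_eq_zero.mp h with h2 | h2
      · exact h2
      · exact absurd ((red_nat_eq_zero_iff hpO b).mp h2) hb
  rw [ne_eq, hred]
  constructor
  · intro h
    refine ⟨p ^ e * a, hdeg, ?_⟩
    rw [hfn, hfi, Nat.factorization_eq_zero_of_not_dvd h, add_zero]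
  · rintro ⟨n, hn, hf⟩ h
    have hn' : n = p ^ e * a := by
      have : (n : ℂ) = ((p ^ e * a : ℕ) : ℂ) := by rw [hn, hdeg]
      exact_mod_cast this
    rw [hn', hfn, hfi] at hf
    have h1 : 0 < a.factorization p := hp.out.factorization_pos_of_dvd ha0 h
    omega

/-- the sum of the coefficients of the block idempotent against a character below -/
theorem exists_ht0 (hpO : (p : ℂ) ∈ O.nonunits) {D : Subgroup G} {B : Set (G → ℂ)}
    {b : Set (NN D → ℂ)} (hB : IsBlock O B) (hDu : ∀ χ ∈ B, uu D χ ∈ O) (hD : IsPGroup p D)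
    (hb : IsBrauerCorrespondent p O D B b) : ∃ χ ∈ B, red O (uu D χ) ≠ 0 := by
  haveI : (DD D).Normal := Subgroup.normal_in_normalizer
  obtain ⟨θ₁, hθ₁⟩ := hb.1.nonempty
  have hub : ∀ θ ∈ b, uu (DD D) θ ∈ O := fun θ hθ => uu_mem hpO hb.1 hb.2.1 hθ
  obtain ⟨-, θ, hθ, hθ0⟩ := cc_ne_zero hpO (pgroup_DD hD) hb.1 hub hθ₁
  obtain ⟨χ₀, hχ₀⟩ := hB.nonempty
  have hi₀ := hB.irr χ₀ hχ₀
  have hiθ := hb.1.irr θ hθ
  set f : G → ℂ := blockCoeff B with hf
  have hfO : ∀ g, f g ∈ O := blockCoeff_mem hB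
  have hfcl : IsCl f := blockCoeff_cl hB.irr
  set W : ℂ := ∑ h : NN D, f (h : G) * (θ h / θ 1) with hW
  -- the class sums
  have hcls : ∀ x : G, (∑ y ∈ Finset.univ.filter (fun y : NN D => IsConj x (y : G)), θ y / θ 1) ∈ O ∧
      red O (omega χ₀ x) =
        red O (∑ y ∈ Finset.univ.filter (fun y : NN D => IsConj x (y : G)), θ y / θ 1) := by
    intro x
    obtain ⟨h1, h2⟩ := red_congr (hi₀.omega_mem O x) (hb.2.2 χ₀ hχ₀ θ hθ x)
    have h3 : (∑ᶠ y : {y : NN D // IsConj x (y : G)}, θ y / θ 1) =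
        ∑ y ∈ Finset.univ.filter (fun y : NN D => IsConj x (y : G)), θ y / θ 1 := by
      rw [finsum_eq_sum_of_fintype]
      rw [← Finset.sum_subtype (p := fun y : NN D => IsConj x (y : G))
        (Finset.univ.filter (fun y : NN D => IsConj x (y : G))) (by simp) (fun y => θ y / θ 1)]
    rw [h3] at h1 h2
    exact ⟨h1, h2⟩
  have hWsum : W = ∑ K : ConjClasses G, f (rep K) *
      ∑ y ∈ Finset.univ.filter (fun y : NN D => IsConj (rep K) (y : G)), θ y / θ 1 := by
    have h1 : ∀ K : ConjClasses G, f (rep K) *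
        ∑ y ∈ Finset.univ.filter (fun y : NN D => IsConj (rep K) (y : G)), θ y / θ 1 =
        ∑ y : NN D, if IsConj (rep K) (y : G) then f (y : G) * (θ y / θ 1) else 0 := by
      intro K
      rw [Finset.mul_sum, ← Finset.sum_filter]
      refine Finset.sum_congr rfl fun y hy => ?_
      rw [hfcl.isConj (Finset.mem_filter.mp hy).2]
    rw [Finset.sum_congr rfl (fun K _ => h1 K), Finset.sum_comm, hW]
    refine Finset.sum_congr rfl fun y _ => ?_
    rw [Finset.sum_eq_single (ConjClasses.mk (y : G))]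
    · rw [if_pos (rep_mk (y : G))]
    · intro K _ hK
      rw [if_neg]
      intro h
      apply hK
      rw [eq_comm, mk_eq_iff]
      exact h
    · intro h
      exact absurd (Finset.mem_univ _) h
  have hredW : W ∈ O ∧ red O W = 1 := by
    constructor
    · rw [hWsum]
      exact sum_mem fun K _ => O.mul_mem _ _ (hfO _) (hcls _).1
    · have h1 : Om f χ₀ = 1 := by
        rw [hf, Om_blockCoeff hB.irr hi₀, if_pos hχ₀]
      rw [Om_classes hi₀ hfcl] at h1
      have h2 := congrArg (red O) h1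
      rw [red_one, red_sum _ _ (fun K _ => O.mul_mem _ _ (hfO _) (hi₀.omega_mem O _))] at h2
      rw [hWsum, red_sum _ _ (fun K _ => O.mul_mem _ _ (hfO _) (hcls _).1), ← h2]
      refine Finset.sum_congr rfl fun K _ => ?_
      rw [red_mul (hfO _) (hcls _).1, red_mul (hfO _) (hi₀.omega_mem O _), (hcls _).2]
  -- the second expression
  have hH : (Nat.card (NN D) : ℂ) ≠ 0 := by exact_mod_cast Nat.card_pos.ne'
  have hG : (Nat.card G : ℂ) ≠ 0 := by exact_mod_cast Nat.card_pos.ne'
  have hexp : uu (DD D) θ * W = ∑ χ ∈ XB B, uu D χ * ips (NN D) 1 χ θ := by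
    have h1 : ∀ χ ∈ XB B, ∑ h : NN D, χ ((h : G)⁻¹) * θ h = Nat.card (NN D) * ips (NN D) 1 χ θ := by
      intro χ _
      unfold ips
      rw [← mul_assoc, mul_inv_cancel₀ hH, one_mul]
      refine Fintype.sum_equiv (Equiv.inv (NN D)) _ _ fun h => ?_
      simp
    have h2 : W = ∑ χ ∈ XB B, (Nat.card G : ℂ)⁻¹ * χ 1 / θ 1 *
        (Nat.card (NN D) * ips (NN D) 1 χ θ) := by
      rw [hW]
      have h3 : ∀ h : NN D, f (h : G) * (θ h / θ 1) =
          ∑ χ ∈ XB B, (Nat.card G : ℂ)⁻¹ * χ 1 / θ 1 * (χ ((h : G)⁻¹) * θ h) := by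
        intro h
        rw [hf, blockCoeff_eq hB.irr, Finset.mul_sum, Finset.sum_mul]
        refine Finset.sum_congr rfl fun χ _ => ?_
        ring
      rw [Finset.sum_congr rfl (fun h _ => h3 h), Finset.sum_comm]
      refine Finset.sum_congr rfl fun χ hχ => ?_
      rw [← Finset.mul_sum, h1 χ hχ]
    rw [h2, Finset.mul_sum]
    refine Finset.sum_congr rfl fun χ _ => ?_
    have h4 := hiθ.one_ne
    unfold uu
    rw [card_DD]
    field_simp
  by_contra hcon
  push Not at hcon
  have h1 := congrArg (red O) hexp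
  have hipsO : ∀ χ ∈ XB B, ips (NN D) 1 χ θ ∈ O := by
    intro χ hχ
    have h2 := (ips_red (p := p) hpO (hB.irr χ (Finset.mem_filter.mp hχ).2) (H := NN D) (y := (1 : G))
      (fun h _ => Commute.one_left h) (k := 0) (by rw [orderOf_one, pow_zero]) hiθ 1).1
    rwa [pow_one] at h2
  rw [red_mul (hub θ hθ) hredW.1, hredW.2, mul_one,
    red_sum (XB B) _ (fun χ hχ => O.mul_mem _ _ (hDu χ (Finset.mem_filter.mp hχ).2) (hipsO χ hχ)),
    Finset.sum_eq_zero] at h1
  · exact hθ0 h1
  · intro χ hχ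
    rw [red_mul (hDu χ (Finset.mem_filter.mp hχ).2) (hipsO χ hχ),
      hcon χ (Finset.mem_filter.mp hχ).2, zero_mul]

end Pool.Agent.Y62
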