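import Pool.Agent.Y62.Main1

/-!
Assembly: the Alperin–McKay equality for the blocks considered.
-/

set_option linter.style.haveILetI false
set_option linter.unusedSectionVars false

open scoped BigOperators Classical
open Pool.Agent.Helper884 Representation Pool.Agent.H254R3.IN

noncomputable section

namespace Pool.Agent.Y62

variable {G : Type} [Group G] [Fintype G]
variable {O : ValuationSubring ℂ} {N D : Subgroup G} {y : G} {B : Set (G → ℂ)}
  {b : Set (Subgroup.normalizer (D : Set G) → ℂ)}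

/-- the core hypotheses for the block `B` of `G` -/
theorem core_G (hO : ((3 : ℕ) : ℂ) ∈ O.nonunits) (hN : N.Normal) (hNt : N ≠ ⊤)
    (hB : IsBlock O B) (hD : IsDefectGroup 3 O B D) (hb : IsBrauerCorrespondent 3 O D B b)
    (hy : y ∈ D) (hgen : N ⊔ Subgroup.zpowers y = ⊤)
    (h9 : ¬ 9 ∣ Nat.card (Subgroup.centralizer ({y} : Set G) ⊓ N : Subgroup G))
    (hDN : D ⊓ N ≠ ⊥) : Core O N D y B := by
  haveI : (DD D).Normal := Subgroup.normal_in_normalizer
  have hDp : IsPGroup 3 D := defect_pgroup hD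
  have hu : ∀ χ ∈ B, uu D χ ∈ O := fun χ hχ => uu_mem (p := 3) hO hB hD hχ
  have hub : ∀ θ ∈ b, uu (DD D) θ ∈ O := fun θ hθ => uu_mem (p := 3) hO hb.1 hb.2.1 hθ
  exact
    { hO := hO
      hB := hB
      hu := hu
      hcc := by
        intro χ hχ
        obtain ⟨θ, hθ⟩ := hb.1.nonempty
        rw [cc_eq (p := 3) hO hDp (hB.irr χ hχ) (hb.1.irr θ hθ) (hb.2.2 χ hχ θ hθ)]
        exact (cc_ne_zero (p := 3) hO (pgroup_DD hDp) hb.1 hub hθ).1
      hne := exists_ht0 (p := 3) hO hB hu hDp hb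
      hsum := sum_uu_mem (p := 3) hO hB hD
      hD := hDp
      hN := hN
      hy := hy
      hgen := hgen
      hNt := hNt
      h9 := h9
      hDN := hDN }

/-- the core hypotheses for the Brauer correspondent -/
theorem core_H (hO : ((3 : ℕ) : ℂ) ∈ O.nonunits) (hN : N.Normal) (hNt : N ≠ ⊤)
    (hD : IsPGroup 3 D) (hb : IsBlock O b) (hbD : IsDefectGroup 3 O b (DD D))
    (hy : y ∈ D) (hgen : N ⊔ Subgroup.zpowers y = ⊤)
    (h9 : ¬ 9 ∣ Nat.card (Subgroup.centralizer ({y} : Set G) ⊓ N : Subgroup G))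
    (hDN : D ⊓ N ≠ ⊥) : Core O (N.subgroupOf (NN D)) (DD D) (⟨y, le_NN D hy⟩ : NN D) b := by
  haveI : (DD D).Normal := Subgroup.normal_in_normalizer
  have hub : ∀ θ ∈ b, uu (DD D) θ ∈ O := fun θ hθ => uu_mem (p := 3) hO hb hbD hθ
  have hgenH : N.subgroupOf (NN D) ⊔ Subgroup.zpowers (⟨y, le_NN D hy⟩ : NN D) = ⊤ := by
    rw [eq_top_iff]
    rintro ⟨g, hg⟩ -
    have h1 : g ∈ N ⊔ Subgroup.zpowers y := by rw [hgen]; trivial
    obtain ⟨n, hn, u, hu, h⟩ := Subgroup.mem_sup_of_normal_left.mp h1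
    obtain ⟨i, rfl⟩ := Subgroup.mem_zpowers_iff.mp hu
    have hyH : y ∈ NN D := le_NN D hy
    have hnH : n ∈ NN D := by
      have : n = g * (y ^ i)⁻¹ := by rw [← h]; group
      rw [this]
      exact (NN D).mul_mem hg ((NN D).inv_mem ((NN D).zpow_mem hyH i))
    have h2 : (⟨g, hg⟩ : NN D) = ⟨n, hnH⟩ * (⟨y, le_NN D hy⟩ : NN D) ^ i := by
      apply Subtype.ext
      rw [Subgroup.coe_mul, Subgroup.coe_zpow]
      exact h.symm
    rw [h2]
    exact Subgroup.mul_mem _ (Subgroup.mem_sup_left hn)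
      (Subgroup.mem_sup_right (Subgroup.zpow_mem _ (Subgroup.mem_zpowers _) i))
  exact
    { hO := hO
      hB := hb
      hu := hub
      hcc := fun θ hθ => (cc_ne_zero (p := 3) hO (pgroup_DD hD) hb hub hθ).1
      hne := by
        obtain ⟨θ, hθ⟩ := hb.nonempty
        exact (cc_ne_zero (p := 3) hO (pgroup_DD hD) hb hub hθ).2
      hsum := sum_uu_mem (p := 3) hO hb hbD
      hD := pgroup_DD hD
      hN := hN.subgroupOf _
      hy := hy
      hgen := hgenH
      hNt := by
        intro h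
        apply hNt
        have h1 : (⟨y, le_NN D hy⟩ : NN D) ∈ N.subgroupOf (NN D) := by rw [h]; trivial
        have h2 : y ∈ N := h1
        rw [← hgen]
        symm
        rw [sup_eq_left, Subgroup.zpowers_le]
        exact h2
      h9 := by
        intro h
        apply h9
        refine h.trans ?_
        have h1 : Nat.card ((Subgroup.centralizer ({(⟨y, le_NN D hy⟩ : NN D)} : Set (NN D)) ⊓
            N.subgroupOf (NN D) : Subgroup (NN D))) =
            Nat.card ((Subgroup.centralizer ({(⟨y, le_NN D hy⟩ : NN D)} : Set (NN D)) ⊓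
            N.subgroupOf (NN D) : Subgroup (NN D)).map (NN D).subtype) :=
          Nat.card_congr (Subgroup.equivMapOfInjective _ _ (NN D).subtype_injective).toEquiv
        rw [h1]
        apply Subgroup.card_dvd_of_le
        rintro _ ⟨x, ⟨hx1, hx2⟩, rfl⟩
        refine ⟨?_, hx2⟩
        have hx1' : x ∈ Subgroup.centralizer ({(⟨y, le_NN D hy⟩ : NN D)} : Set (NN D)) := hx1
        change (x : G) ∈ Subgroup.centralizer ({y} : Set G)
        rw [Subgroup.mem_centralizer_iff] at hx1' ⊢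
        intro h hh
        rw [Set.mem_singleton_iff.mp hh]
        exact congrArg Subtype.val (hx1' _ rfl)
      hDN := by
        intro h
        apply hDN
        rw [eq_bot_iff]
        intro x hx
        have h1 : (⟨x, le_NN D hx.1⟩ : NN D) ∈ DD D ⊓ N.subgroupOf (NN D) := ⟨hx.1, hx.2⟩
        rw [h, Subgroup.mem_bot] at h1
        exact Subgroup.mem_bot.mpr (congrArg Subtype.val h1) }

/-- the index of `N ∩ N_G(D)` in `N_G(D)` -/
lemma index_subgroupOf (hN : N.Normal) (hy : y ∈ D) (hgen : N ⊔ Subgroup.zpowers y = ⊤) :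
    (N.subgroupOf (NN D)).index = N.index := by
  have h1 : NN D ⊔ N = ⊤ := by
    rw [eq_top_iff, ← hgen]
    apply sup_le le_sup_right
    rw [Subgroup.zpowers_le]
    exact Subgroup.mem_sup_left (le_NN D hy)
  have h2 : N.relIndex (NN D) = N.index := by
    have h3 := Subgroup.relIndex_sup_right (NN D) N
    rw [h1, Subgroup.relIndex_top_right] at h3
    exact h3.symm
  exact h2

/-- the characters of `B` of height zero, `D` being a defect group -/
def Ht0 (p : ℕ) (D : Subgroup G) (B : Set (G → ℂ)) : Set (G → ℂ) :=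
  {χ | χ ∈ B ∧ ∃ n : ℕ, (n : ℂ) = χ 1 ∧ n.factorization p = D.index.factorization p}

lemma Core.card_Ht0 (c : Core O N D y B) : Nat.card (Ht0 3 D B) = 3 * N.index := by
  rw [← c.count]
  have h1 : Ht0 3 D B = (((XB B).filter (fun χ => red O (uu D χ) ≠ 0) : Finset (G → ℂ)) :
      Set (G → ℂ)) := by
    ext χ
    unfold Ht0 XB
    simp only [Set.mem_ofPred_eq, Finset.coe_filter, Finset.mem_filter, mem_Irr]
    constructor
    · rintro ⟨h1, h2⟩
      exact ⟨⟨c.irr h1, h1⟩, (height_iff (p := 3) c.hO (c.irr h1) (c.hu χ h1)).mpr h2⟩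
    · rintro ⟨⟨h1, h2⟩, h3⟩
      exact ⟨h2, (height_iff (p := 3) c.hO h1 (c.hu χ h2)).mp h3⟩
  rw [h1]
  exact Nat.card_eq_card_toFinset _ |>.trans (by simp)

/-- **Main theorem.** -/
theorem main_count (hO : ((3 : ℕ) : ℂ) ∈ O.nonunits) (hN : N.Normal) (hNt : N ≠ ⊤)
    (hB : IsBlock O B) (hD : IsDefectGroup 3 O B D) (hb : IsBrauerCorrespondent 3 O D B b)
    (hy : y ∈ D) (hgen : N ⊔ Subgroup.zpowers y = ⊤)
    (h9 : ¬ 9 ∣ Nat.card (Subgroup.centralizer ({y} : Set G) ⊓ N : Subgroup G))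
    (hDN : D ⊓ N ≠ ⊥) :
    Nat.card (Ht0 3 D B) = 3 * N.index ∧
      Nat.card (Ht0 3 (D.subgroupOf (Subgroup.normalizer (D : Set G))) b) = 3 * N.index := by
  have cG := core_G hO hN hNt hB hD hb hy hgen h9 hDN
  have cH := core_H hO hN hNt (defect_pgroup hD) hb.1 hb.2.1 hy hgen h9 hDN
  refine ⟨cG.card_Ht0, ?_⟩
  have h1 := cH.card_Ht0
  rw [index_subgroupOf hN hy hgen] at h1
  exact h1

end Pool.Agent.Y62
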