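import Pool.Agent.H254R3.IN.Fin
import Pool.Agent.Helper884.IC.Suf3
import Pool.Agent.Y62.Cube

/-!
Restrictions of characters to subgroups commuting with an element `y`.
-/

set_option linter.style.haveILetI false
set_option linter.unusedSectionVars false

open scoped BigOperators Classical
open Pool.Agent.Helper884 Representation Pool.Agent.H254R3.IN

noncomputable section

namespace Pool.Agent.Y62

variable {G : Type} [Group G] [Fintype G]

/-- `[χ(y ·)_H, θ] = |H|⁻¹ ∑_{h ∈ H} χ(y h) θ(h⁻¹)` -/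
def ips (H : Subgroup G) (y : G) (χ : G → ℂ) (θ : H → ℂ) : ℂ :=
  (Nat.card H : ℂ)⁻¹ * ∑ h : H, χ (y * h) * θ h⁻¹

/-- the twisted representation of `C × H` -/
def twRep {C H : Type} [Group C] [Group H] {W : Type} [AddCommGroup W] [Module ℂ W]
    (l : C →* ℂˣ) (j : ℕ) (σ : Representation ℂ H W) : Representation ℂ (C × H) W where
  toFun p := (((l p.1 : ℂˣ) : ℂ) ^ j) • σ p.2
  map_one' := by simp
  map_mul' a b := by
    simp only [Prod.fst_mul, Prod.snd_mul, map_mul, Units.val_mul, mul_pow]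
    rw [smul_mul_smul_comm]

lemma twRep_char {C H : Type} [Group C] [Group H] {W : Type} [AddCommGroup W] [Module ℂ W]
    (l : C →* ℂˣ) (j : ℕ) (σ : Representation ℂ H W) (p : C × H) :
    (twRep l j σ).character p = ((l p.1 : ℂˣ) : ℂ) ^ j * σ.character p.2 := by
  unfold Representation.character twRep
  simp

lemma geom_faithful {C : Type} [Group C] [Fintype C] (l : C →* ℂˣ)
    (hl : Function.Injective l) (d : C) (h : d ≠ 1) :
    ∑ j ∈ Finset.range (Nat.card C), (((l d) : ℂˣ) : ℂ) ^ j = 0 := by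
  have h2 : ((l d : ℂˣ) : ℂ) ≠ 1 := by
    intro h3
    apply h
    have h4 : l d = 1 := Units.ext h3
    exact hl (by rw [h4, map_one])
  have h3 : ((l d : ℂˣ) : ℂ) ^ (Nat.card C) = 1 := by
    rw [← Units.val_pow_eq_pow_val, ← map_pow, pow_card_eq_one', map_one, Units.val_one]
  have h4 := geom_sum_mul (((l d) : ℂˣ) : ℂ) (Nat.card C)
  rw [h3, sub_self] at h4
  rcases mul_eq_zero.mp h4 with h5 | h5
  · exact h5
  · exact absurd (sub_eq_zero.mp h5) h2

/-- `y` as an element of the group it generates -/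
abbrev yy (y : G) : Subgroup.zpowers y := ⟨y, Subgroup.mem_zpowers y⟩

/-- multiplicities, general form -/
theorem ips_fourier' {χ : G → ℂ} (hχ : IsIrr χ) {H C : Subgroup G}
    (hcomm : ∀ (c : C) (h : H), Commute (C.subtype c) (H.subtype h)) {θ : H → ℂ} (hθ : IsIrr θ)
    (l : C →* ℂˣ) (hl : Function.Injective l) :
    ∃ n : ℕ → ℕ, ∀ c₀ : C, ips H (c₀ : G) χ θ =
      ∑ j ∈ Finset.range (Nat.card C), (n j : ℂ) * ((l c₀ : ℂˣ) : ℂ) ^ j := by
  obtain ⟨V, _, _, _, ρ, hr, rfl⟩ := hχ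
  obtain ⟨W, _, _, _, σ, hs, rfl⟩ := hθ
  let f : C × H →* G := MonoidHom.noncommCoprod C.subtype H.subtype hcomm
  have hf : ∀ p : C × H, f p = (p.1 : G) * (p.2 : G) := fun p => rfl
  let ρ' : Representation ℂ (C × H) V := ρ.comp f
  have hρ' : ∀ p, ρ'.character p = ρ.character ((p.1 : G) * p.2) := fun p => rfl
  have hcardP : Nat.card (C × H) = Nat.card C * Nat.card H := Nat.card_prod _ _
  have hP0 : (Nat.card (C × H) : ℂ) ≠ 0 := by exact_mod_cast Nat.card_pos.ne'
  haveI : Invertible (Nat.card (C × H) : ℂ) := invertibleOfNonzero hP0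
  refine ⟨fun j => Module.finrank ℂ (IntertwiningMap (twRep l j σ) ρ'), fun c₀ => ?_⟩
  have h1 : ∀ j, ((Module.finrank ℂ (IntertwiningMap (twRep l j σ) ρ') : ℕ) : ℂ) =
      (Nat.card (C × H) : ℂ)⁻¹ * ∑ p : C × H, ρ.character ((p.1 : G) * p.2) *
        (((l p.1⁻¹ : ℂˣ) : ℂ) ^ j * σ.character p.2⁻¹) := by
    intro j
    rw [← Representation.card_inv_mul_sum_char_mul_char_eq_finrank]
    congr 1
    refine Finset.sum_congr rfl fun p _ => ?_
    rw [hρ', twRep_char]
    rfl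
  have h2 : ∀ j, ((Module.finrank ℂ (IntertwiningMap (twRep l j σ) ρ') : ℕ) : ℂ) *
      ((l c₀ : ℂˣ) : ℂ) ^ j = (Nat.card (C × H) : ℂ)⁻¹ *
        ∑ p : C × H, ρ.character ((p.1 : G) * p.2) * σ.character p.2⁻¹ *
        ((l (p.1⁻¹ * c₀) : ℂˣ) : ℂ) ^ j := by
    intro j
    rw [h1, mul_assoc, Finset.sum_mul]
    congr 1
    refine Finset.sum_congr rfl fun p _ => ?_
    rw [map_mul, Units.val_mul, mul_pow]
    ring
  simp only [h2]
  rw [← Finset.mul_sum, Finset.sum_comm]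
  simp only [← Finset.mul_sum]
  rw [Fintype.sum_prod_type, Finset.sum_eq_single c₀]
  rotate_left
  · intro c _ hc
    apply Finset.sum_eq_zero
    intro h _
    dsimp only
    rw [geom_faithful l hl _ (fun h4 => hc (inv_mul_eq_one.mp h4)), mul_zero]
  · intro h
    exact absurd (Finset.mem_univ _) h
  dsimp only
  simp only [inv_mul_cancel, map_one, Units.val_one, one_pow, Finset.sum_const,
    Finset.card_range, nsmul_eq_mul, mul_one]
  rw [← Finset.sum_mul]
  unfold ips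
  rw [hcardP]
  have hC0 : (Nat.card C : ℂ) ≠ 0 := by exact_mod_cast Nat.card_pos.ne'
  have hH0 : (Nat.card H : ℂ) ≠ 0 := by exact_mod_cast Nat.card_pos.ne'
  push_cast
  field_simp

/-- multiplicities: `[χ(y^t ·)_H, θ]` is a natural combination of powers of a root of unity -/
theorem ips_fourier {χ : G → ℂ} (hχ : IsIrr χ) {H : Subgroup G} {y : G}
    (hy : ∀ h ∈ H, Commute y h) {θ : H → ℂ} (hθ : IsIrr θ)
    (l : Subgroup.zpowers y →* ℂˣ) (hl : Function.Injective l) :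
    ∃ n : ℕ → ℕ, ∀ t : ℕ, ips H (y ^ t) χ θ =
      ∑ j ∈ Finset.range (orderOf y), (n j : ℂ) * ((l (yy y) : ℂˣ) : ℂ) ^ (t * j) := by
  have hcomm : ∀ (c : Subgroup.zpowers y) (h : H),
      Commute ((Subgroup.zpowers y).subtype c) (H.subtype h) := by
    rintro ⟨c, hc⟩ ⟨h, hh⟩
    obtain ⟨k, rfl⟩ := Subgroup.mem_zpowers_iff.mp hc
    exact (hy h hh).zpow_left k
  obtain ⟨n, hn⟩ := ips_fourier' hχ hcomm hθ l hl
  refine ⟨n, fun t => ?_⟩
  have h1 := hn ((yy y) ^ t)
  have h2 : (((yy y) ^ t : Subgroup.zpowers y) : G) = y ^ t := rfl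
  rw [h2, Nat.card_zpowers] at h1
  rw [h1]
  refine Finset.sum_congr rfl fun j _ => ?_
  rw [map_pow, Units.val_pow_eq_pow_val, ← pow_mul]

/-- the values of `l` at `y` -/
lemma prim_root {y : G} (l : Subgroup.zpowers y →* ℂˣ) (hl : Function.Injective l) :
    IsPrimitiveRoot ((l (yy y) : ℂˣ) : ℂ) (orderOf y) := by
  rw [IsPrimitiveRoot.coe_units_iff]
  have h1 : orderOf (l (yy y)) = orderOf y := by
    rw [orderOf_injective l hl, ← Subgroup.orderOf_coe]
  rw [← h1]
  exact IsPrimitiveRoot.orderOf _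

lemma exists_l (y : G) : ∃ l : Subgroup.zpowers y →* ℂˣ, Function.Injective l :=
  IC.exists_faithful inferInstance

/-- character values at inverses -/
lemma conj_char {χ : G → ℂ} (hχ : IsIrr χ) (g : G) : χ g⁻¹ = (starRingEnd ℂ) (χ g) := by
  obtain ⟨l, hl⟩ := exists_l g
  have h1 := IC.fourier l hl (fun c => χ (c : G))
  have h2 : ∀ j : ℕ, ∃ n : ℕ, (Nat.card (Subgroup.zpowers g) : ℂ)⁻¹ *
      ∑ d : Subgroup.zpowers g, (((l ^ j) d : ℂˣ) : ℂ) * χ ((d⁻¹ : Subgroup.zpowers g) : G) = n :=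
    fun j => IC.mult_nat' (Subgroup.zpowers g) (l ^ j) hχ
  choose n hn using h2
  simp only [hn] at h1
  have h3 := h1 (yy g)
  have h4 := h1 (yy g)⁻¹
  have e1 : (((yy g) : Subgroup.zpowers g) : G) = g := rfl
  have e2 : (((yy g)⁻¹ : Subgroup.zpowers g) : G) = g⁻¹ := rfl
  rw [e1] at h3
  rw [e2] at h4
  rw [h4, h3, map_sum]
  refine Finset.sum_congr rfl fun j _ => ?_
  rw [map_mul, map_natCast]
  congr 1
  have h5 : ((((l ^ j) (yy g) : ℂˣ) : ℂ)) ^ (orderOf g) = 1 := by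
    rw [← Units.val_pow_eq_pow_val, ← map_pow]
    have : (yy g) ^ (orderOf g) = 1 := Subtype.ext (pow_orderOf_eq_one g)
    rw [this, map_one, Units.val_one]
  rw [conj_pow_root (orderOf_pos g).ne' h5, map_inv, Units.val_inv_eq_inv_val]

end Pool.Agent.Y62
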