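import Pool.Agent.Y62.Rest

/-!
Congruences modulo the maximal ideal and orthogonality relations on `p`-sections.
-/

set_option linter.style.haveILetI false
set_option linter.unusedSectionVars false

open scoped BigOperators Classical
open Pool.Agent.Helper884 Representation Pool.Agent.H254R3.IN

noncomputable section

namespace Pool.Agent.Y62

variable {G : Type} [Group G] [Fintype G]

section cong

variable {O : ValuationSubring ℂ} {p : ℕ} [hp : Fact p.Prime]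

lemma root_mem {z : ℂ} {n : ℕ} (hn : n ≠ 0) (h : z ^ n = 1) : z ∈ O := by
  apply mem_of_isIntegral
  refine ⟨Polynomial.X ^ n - 1, Polynomial.monic_X_pow_sub_C 1 hn, ?_⟩
  simp [h]

lemma red_pow {z : ℂ} (hz : z ∈ O) (n : ℕ) : red O (z ^ n) = red O z ^ n := by
  induction n with
  | zero => rw [pow_zero, pow_zero, red_one]
  | succ n ih => rw [pow_succ, pow_succ, red_mul (pow_mem hz n) hz, ih]

lemma red_root (hpO : (p : ℂ) ∈ O.nonunits) {z : ℂ} {k : ℕ} (h : z ^ p ^ k = 1) :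
    red O z = 1 := by
  have hz : z ∈ O := root_mem (pow_ne_zero _ hp.out.ne_zero) h
  haveI := charP_RF hpO
  have h1 : red O z ^ p ^ k = 1 := by rw [← red_pow hz, h, red_one]
  have h2 : (red O z - 1) ^ p ^ k = 0 := by
    rw [sub_pow_char_pow, h1, one_pow, sub_self]
  exact sub_eq_zero.mp (pow_eq_zero_iff (pow_ne_zero _ hp.out.ne_zero) |>.mp h2)

/-- the inner products are `p`-integral and do not depend modulo `p` on the `p`-element `y` -/
lemma ips_red (hpO : (p : ℂ) ∈ O.nonunits) {χ : G → ℂ} (hχ : IsIrr χ) {H : Subgroup G} {y : G}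
    (hy : ∀ h ∈ H, Commute y h) {k : ℕ} (hk : orderOf y = p ^ k) {θ : H → ℂ} (hθ : IsIrr θ)
    (t : ℕ) :
    ips H (y ^ t) χ θ ∈ O ∧ red O (ips H (y ^ t) χ θ) = red O (ips H 1 χ θ) := by
  obtain ⟨l, hl⟩ := exists_l y
  obtain ⟨n, hn⟩ := ips_fourier hχ hy hθ l hl
  have hζ := prim_root l hl
  set ζ := ((l (yy y) : ℂˣ) : ℂ)
  have hζO : ζ ∈ O := root_mem (orderOf_pos y).ne' hζ.pow_eq_one
  have hζr : red O ζ = 1 := red_root hpO (k := k) (by rw [← hk]; exact hζ.pow_eq_one)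
  have h1 : ∀ t, ips H (y ^ t) χ θ ∈ O ∧ red O (ips H (y ^ t) χ θ) =
      ∑ j ∈ Finset.range (orderOf y), red O (n j : ℂ) := by
    intro t
    have hm : ∀ j ∈ Finset.range (orderOf y), (n j : ℂ) * ζ ^ (t * j) ∈ O := fun j _ =>
      O.mul_mem _ _ (natCast_mem' _) (pow_mem hζO _)
    rw [hn]
    refine ⟨sum_mem hm, ?_⟩
    rw [red_sum _ _ hm]
    refine Finset.sum_congr rfl fun j _ => ?_
    rw [red_mul (natCast_mem' _) (pow_mem hζO _), red_pow hζO, hζr, one_pow, mul_one]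
  refine ⟨(h1 t).1, ?_⟩
  have h0 := (h1 0).2
  rw [pow_zero] at h0
  rw [(h1 t).2, h0]

/-- the restriction as a class function of `H` -/
lemma shift_cl {χ : G → ℂ} (hχ : IsIrr χ) {H : Subgroup G} {y : G}
    (hy : ∀ h ∈ H, Commute y h) : IsCl (fun h : H => χ (y * h)) := by
  intro g x
  have h1 : y * ((x * g * x⁻¹ : H) : G) = (x : G) * (y * g) * (x : G)⁻¹ := by
    have h2 : y * (x : G) = x * y := hy x x.2
    calc y * ((x * g * x⁻¹ : H) : G) = (y * x) * g * (x : G)⁻¹ := by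
          simp only [Subgroup.coe_mul, Subgroup.coe_inv, mul_assoc]
      _ = (x : G) * (y * g) * (x : G)⁻¹ := by rw [h2]; simp only [mul_assoc]
  change χ (y * ((x * g * x⁻¹ : H) : G)) = χ (y * (g : G))
  rw [h1, hχ.conj]

/-- expansion of the restriction -/
lemma val_expand {χ : G → ℂ} (hχ : IsIrr χ) {H : Subgroup G} {y : G}
    (hy : ∀ h ∈ H, Commute y h) (h : H) :
    χ (y * h) = ∑ θ ∈ IC.Irr H, ips H y χ θ * θ h := by
  have h1 := congrFun (IC.expand (fun h : H => χ (y * h)) (shift_cl hχ hy)) h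
  simp only [Finset.sum_apply, Pi.smul_apply, smul_eq_mul] at h1
  exact h1

/-- `χ(y s) ≡ χ(s)` for a `p`-element `y` commuting with `s` -/
lemma val_red (hpO : (p : ℂ) ∈ O.nonunits) {χ : G → ℂ} (hχ : IsIrr χ) {y s : G} {k : ℕ}
    (hk : orderOf y = p ^ k) (hys : Commute y s) (t : ℕ) :
    red O (χ (y ^ t * s)) = red O (χ s) := by
  have hy : ∀ h ∈ Subgroup.zpowers s, Commute y h := by
    intro h hh
    obtain ⟨m, rfl⟩ := Subgroup.mem_zpowers_iff.mp hh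
    exact hys.zpow_right m
  have hyt : ∀ t, ∀ h ∈ Subgroup.zpowers s, Commute (y ^ t) h := fun t h hh => (hy h hh).pow_left t
  have h1 : ∀ t, red O (χ (y ^ t * s)) =
      ∑ θ ∈ IC.Irr (Subgroup.zpowers s), red O (ips (Subgroup.zpowers s) 1 χ θ) *
        red O (θ ⟨s, Subgroup.mem_zpowers s⟩) := by
    intro t
    have h2 := val_expand hχ (hyt t) ⟨s, Subgroup.mem_zpowers s⟩
    change χ (y ^ t * s) = _ at h2
    have hmem : ∀ θ ∈ IC.Irr (Subgroup.zpowers s), ips (Subgroup.zpowers s) (y ^ t) χ θ ∈ O ∧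
        θ ⟨s, Subgroup.mem_zpowers s⟩ ∈ O := by
      intro θ hθ
      have hθ' : IsIrr θ := IC.mem_Irr.mp hθ
      exact ⟨(ips_red hpO hχ hy hk hθ' t).1, hθ'.val_mem O _⟩
    rw [h2, red_sum _ _ (fun θ hθ => O.mul_mem _ _ (hmem θ hθ).1 (hmem θ hθ).2)]
    refine Finset.sum_congr rfl fun θ hθ => ?_
    rw [red_mul (hmem θ hθ).1 (hmem θ hθ).2, (ips_red hpO hχ hy hk (IC.mem_Irr.mp hθ) t).2]
  rw [h1 t]
  have h3 := h1 0
  rw [pow_zero, one_mul] at h3
  exact h3.symm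

end cong

/-- Parseval's identity for class functions -/
lemma parseval_cl {f h : G → ℂ} (hf : IsCl f) :
    (Nat.card G : ℂ)⁻¹ * ∑ g : G, f g * (starRingEnd ℂ) (h g) =
      ∑ χ ∈ IC.Irr G, IC.B f χ * (starRingEnd ℂ) (IC.B h χ) := by
  have h1 := IC.B_expand f (fun g => (starRingEnd ℂ) (h g⁻¹)) hf
  have h2 : IC.B f (fun g => (starRingEnd ℂ) (h g⁻¹)) =
      (Nat.card G : ℂ)⁻¹ * ∑ g : G, f g * (starRingEnd ℂ) (h g) := by
    unfold IC.B
    simp only [inv_inv]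
  rw [← h2, h1]
  refine Finset.sum_congr rfl fun χ hχ => ?_
  congr 1
  have hχ' : IsIrr χ := IC.mem_Irr.mp hχ
  unfold IC.B
  rw [map_mul, map_inv₀, map_natCast, map_sum]
  congr 1
  refine Finset.sum_congr rfl fun g _ => ?_
  rw [map_mul, conj_char hχ', Complex.conj_conj, mul_comm]
  dsimp only
  rw [inv_inv]

lemma parseval_norm {f : G → ℂ} (hf : IsCl f) :
    (Nat.card G : ℝ)⁻¹ * ∑ g : G, ‖f g‖ ^ 2 = ∑ χ ∈ IC.Irr G, ‖IC.B f χ‖ ^ 2 := by
  have h1 := parseval_cl (h := f) hf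
  simp only [Complex.mul_conj'] at h1
  apply Complex.ofReal_injective
  push_cast
  exact h1

section sec

variable {p : ℕ} [hp : Fact p.Prime]

/-- `a_χ(Ψ) = ∑_s Ψ(s) conj χ(y s)` -/
def av (y : G) (Ψ χ : G → ℂ) : ℂ := ∑ s : G, Ψ s * (starRingEnd ℂ) (χ (y * s))

/-- the class function attached to `Ψ` on the section of `y` -/
def FF (y : G) (Ψ : G → ℂ) (g : G) : ℂ := ∑ x : G, Ψ (y⁻¹ * (x⁻¹ * g * x))

lemma FF_cl (y : G) (Ψ : G → ℂ) : IsCl (FF y Ψ) := by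
  intro g z
  unfold FF
  refine Fintype.sum_equiv (Equiv.mulLeft z⁻¹) _ _ fun x => ?_
  simp only [Equiv.coe_mulLeft]
  congr 1
  group

lemma FF_pair (y : G) (Ψ : G → ℂ) {h : G → ℂ} (hh : IsCl h) :
    (Nat.card G : ℂ)⁻¹ * ∑ g : G, FF y Ψ g * (starRingEnd ℂ) (h g) =
      ∑ s : G, Ψ s * (starRingEnd ℂ) (h (y * s)) := by
  unfold FF
  simp only [Finset.sum_mul]
  rw [Finset.sum_comm]
  have h1 : ∀ x : G, ∑ g : G, Ψ (y⁻¹ * (x⁻¹ * g * x)) * (starRingEnd ℂ) (h g) =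
      ∑ s : G, Ψ s * (starRingEnd ℂ) (h (y * s)) := by
    intro x
    refine Fintype.sum_equiv
      (((MulAut.conj x⁻¹).toEquiv).trans (Equiv.mulLeft y⁻¹)) _ _ fun g => ?_
    have e1 : (((MulAut.conj x⁻¹).toEquiv).trans (Equiv.mulLeft y⁻¹)) g = y⁻¹ * (x⁻¹ * g * x) := by
      simp
    rw [e1]
    congr 2
    have e2 : y * (y⁻¹ * (x⁻¹ * g * x)) = x⁻¹ * g * (x⁻¹)⁻¹ := by group
    rw [e2, hh]
  rw [Finset.sum_congr rfl (fun x _ => h1 x), Finset.sum_const, Finset.card_univ,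
    ← Nat.card_eq_fintype_card, nsmul_eq_mul, ← mul_assoc]
  have h2 : (Nat.card G : ℂ) ≠ 0 := by exact_mod_cast Nat.card_pos.ne'
  rw [inv_mul_cancel₀ h2, one_mul]

lemma FF_B (y : G) (Ψ : G → ℂ) {χ : G → ℂ} (hχ : IsIrr χ) :
    IC.B (FF y Ψ) χ = av y Ψ χ := by
  unfold IC.B av
  rw [← FF_pair y Ψ (fun g z => hχ.conj g z)]
  congr 1
  refine Finset.sum_congr rfl fun g _ => ?_
  rw [conj_char hχ]

/-- the support condition: `p`-regular elements commuting with `y` -/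
def Supp (p : ℕ) (y : G) (Ψ : G → ℂ) : Prop :=
  ∀ s, Ψ s ≠ 0 → Commute y s ∧ ¬ p ∣ orderOf s

lemma FF_val {y y' : G} {k k' : ℕ} (hk : orderOf y = p ^ k) (hk' : orderOf y' = p ^ k')
    {Ψ' : G → ℂ} (hS : Supp p y' Ψ') {s : G} (hys : Commute y s) (hs : ¬ p ∣ orderOf s) :
    FF y' Ψ' (y * s) =
      ∑ x ∈ Finset.univ.filter (fun x : G => x⁻¹ * y * x = y'), Ψ' (x⁻¹ * s * x) := by
  obtain ⟨e, e', h1, h2, -, -, h5⟩ := IC.exists_exps p G
  have hpart : ∀ (u v : G) (m : ℕ), orderOf u = p ^ m → Commute u v → ¬ p ∣ orderOf v →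
      (u * v) ^ e' = u := by
    intro u v m hu huv hv
    rw [huv.mul_pow]
    have a1 : u ^ e' = u := by
      have := h5 u
      rwa [h2 u ⟨m, hu⟩, one_mul] at this
    have a2 : v ^ e' = 1 := by
      have := h5 v
      rw [h1 v hv] at this
      exact mul_eq_left.mp this
    rw [a1, a2, mul_one]
  unfold FF
  rw [Finset.sum_filter]
  refine Finset.sum_congr rfl fun x _ => ?_
  by_cases hx : x⁻¹ * y * x = y'
  · rw [if_pos hx]
    congr 1
    have : x⁻¹ * (y * s) * x = (x⁻¹ * y * x) * (x⁻¹ * s * x) := by group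
    rw [this, hx]
    group
  · rw [if_neg hx]
    by_contra hne
    obtain ⟨h6, h7⟩ := hS _ hne
    apply hx
    have h8 := hpart y' _ k' hk' h6 h7
    have h9 : y' * (y'⁻¹ * (x⁻¹ * (y * s) * x)) = x⁻¹ * (y * s) * x := by group
    rw [h9] at h8
    have h10 : (x⁻¹ * (y * s) * x) ^ e' = x⁻¹ * (y * s) ^ e' * x := by
      have := conj_pow (i := e') (a := x⁻¹) (b := y * s)
      simpa using this
    rw [h10, hpart y s k hk hys hs] at h8
    exact h8

/-- **Orthogonality on sections.** -/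
theorem sec_orth {y y' : G} {k k' : ℕ} (hk : orderOf y = p ^ k) (hk' : orderOf y' = p ^ k')
    {Ψ Ψ' : G → ℂ} (hS : Supp p y Ψ) (hS' : Supp p y' Ψ') :
    ∑ χ ∈ IC.Irr G, av y Ψ χ * (starRingEnd ℂ) (av y' Ψ' χ) =
      ∑ x ∈ Finset.univ.filter (fun x : G => x⁻¹ * y * x = y'),
        ∑ s : G, Ψ s * (starRingEnd ℂ) (Ψ' (x⁻¹ * s * x)) := by
  have h1 : ∑ χ ∈ IC.Irr G, av y Ψ χ * (starRingEnd ℂ) (av y' Ψ' χ) =
      ∑ χ ∈ IC.Irr G, IC.B (FF y Ψ) χ * (starRingEnd ℂ) (IC.B (FF y' Ψ') χ) := by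
    refine Finset.sum_congr rfl fun χ hχ => ?_
    rw [FF_B y Ψ (IC.mem_Irr.mp hχ), FF_B y' Ψ' (IC.mem_Irr.mp hχ)]
  rw [h1, ← parseval_cl (FF_cl y Ψ), FF_pair y Ψ (FF_cl y' Ψ'), Finset.sum_comm]
  refine Finset.sum_congr rfl fun s _ => ?_
  by_cases hs : Ψ s = 0
  · simp [hs]
  · obtain ⟨h2, h3⟩ := hS s hs
    rw [FF_val hk hk' hS' h2 h3, map_sum, Finset.mul_sum]

/-- energy bound on a section -/
theorem sec_bound {y : G} {k : ℕ} (hk : orderOf y = p ^ k) {Ψ : G → ℂ} (hS : Supp p y Ψ) :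
    ∑ χ ∈ IC.Irr G, ‖av y Ψ χ‖ ^ 2 ≤
      Nat.card (Subgroup.centralizer ({y} : Set G)) * ∑ s : G, ‖Ψ s‖ ^ 2 := by
  have h1 := sec_orth hk hk hS hS
  simp only [Complex.mul_conj'] at h1
  have h2 : (∑ χ ∈ IC.Irr G, ‖av y Ψ χ‖ ^ 2 : ℝ) =
      (∑ x ∈ Finset.univ.filter (fun x : G => x⁻¹ * y * x = y),
        ∑ s : G, Ψ s * (starRingEnd ℂ) (Ψ (x⁻¹ * s * x))).re := by
    rw [← h1]
    rw [← Complex.ofReal_re (∑ χ ∈ IC.Irr G, ‖av y Ψ χ‖ ^ 2)]
    congr 1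
    push_cast
    rfl
  rw [h2, Complex.re_sum]
  have h3 : ∀ x : G, (∑ s : G, Ψ s * (starRingEnd ℂ) (Ψ (x⁻¹ * s * x))).re ≤ ∑ s : G, ‖Ψ s‖ ^ 2 := by
    intro x
    rw [Complex.re_sum]
    have h4 : ∀ s : G, (Ψ s * (starRingEnd ℂ) (Ψ (x⁻¹ * s * x))).re ≤
        (‖Ψ s‖ ^ 2 + ‖Ψ (x⁻¹ * s * x)‖ ^ 2) / 2 := by
      intro s
      have h5 := Complex.re_le_norm (Ψ s * (starRingEnd ℂ) (Ψ (x⁻¹ * s * x)))
      rw [norm_mul, RCLike.norm_conj] at h5
      nlinarith [sq_nonneg (‖Ψ s‖ - ‖Ψ (x⁻¹ * s * x)‖)]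
    refine (Finset.sum_le_sum fun s _ => h4 s).trans ?_
    rw [← Finset.sum_div, Finset.sum_add_distrib]
    have h6 : ∑ s : G, ‖Ψ (x⁻¹ * s * x)‖ ^ 2 = ∑ s : G, ‖Ψ s‖ ^ 2 := by
      refine Fintype.sum_equiv (MulAut.conj x⁻¹).toEquiv _ _ fun s => ?_
      simp
    rw [h6]
    linarith
  refine (Finset.sum_le_sum fun x _ => h3 x).trans ?_
  rw [Finset.sum_const, nsmul_eq_mul]
  have h7 : (Finset.univ.filter (fun x : G => x⁻¹ * y * x = y)).card =
      Nat.card (Subgroup.centralizer ({y} : Set G)) := by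
    rw [Nat.card_eq_fintype_card, ← Fintype.card_coe]
    refine Fintype.card_congr (Equiv.subtypeEquivRight fun x => ?_)
    simp only [Finset.mem_filter, Finset.mem_univ, true_and]
    rw [Subgroup.mem_centralizer_iff]
    simp only [Set.mem_singleton_iff, forall_eq]
    constructor
    · intro h
      have := congrArg (fun z => x * z) h
      simpa [mul_assoc] using this
    · intro h
      rw [mul_assoc, h]
      group
  rw [h7]

end sec

end Pool.Agent.Y62
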