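import Pool.Agent.Y62.Energy

/-!
Orthogonality relations for groups whose Sylow 3-subgroup has order three.
-/

set_option linter.style.haveILetI false
set_option linter.unusedSectionVars false

open scoped BigOperators Classical
open Pool.Agent.Helper884 Representation Pool.Agent.H254R3.IN

noncomputable section

namespace Pool.Agent.Y62

section ext

variable {G : Type} [Group G] [Fintype G]

/-- extension by zero -/
def ext0 (L : Subgroup G) (θ : L → ℂ) (x : G) : ℂ := if h : x ∈ L then θ ⟨x, h⟩ else 0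

lemma ext0_coe {L : Subgroup G} (θ : L → ℂ) (l : L) : ext0 L θ l = θ l := by
  unfold ext0
  rw [dif_pos l.2]

lemma ext0_mem {L : Subgroup G} (θ : L → ℂ) {x : G} (h : x ∈ L) : ext0 L θ x = θ ⟨x, h⟩ := dif_pos h

lemma ext0_not {L : Subgroup G} (θ : L → ℂ) {x : G} (h : x ∉ L) : ext0 L θ x = 0 := dif_neg h

lemma sum_ext0 {L : Subgroup G} (θ : L → ℂ) (F : G → ℂ → ℂ) (hF : ∀ x, F x 0 = 0) :
    ∑ x : G, F x (ext0 L θ x) = ∑ l : L, F l (θ l) := by
  have h1 : ∑ x : G, F x (ext0 L θ x) = ∑ x ∈ Finset.univ.filter (· ∈ L), F x (ext0 L θ x) := by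
    symm
    apply Finset.sum_subset (Finset.subset_univ _)
    intro x _ hx
    rw [ext0_not θ (fun h => hx (Finset.mem_filter.mpr ⟨Finset.mem_univ _, h⟩)), hF]
  rw [h1, ← sum_sub L (fun x => F x (ext0 L θ x))]
  refine Finset.sum_congr rfl fun l _ => ?_
  rw [ext0_coe]

lemma av_ext0 {L : Subgroup G} {θ : L → ℂ} (hθ : IsIrr θ) (y : G) (ψ : G → ℂ) :
    av y (ext0 L θ) ψ = Nat.card L * (starRingEnd ℂ) (ips L y ψ θ) := by
  unfold av
  rw [sum_ext0 θ (fun x t => t * (starRingEnd ℂ) (ψ (y * x))) (fun x => zero_mul _)]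
  unfold ips
  rw [map_mul, map_inv₀, map_natCast, map_sum]
  have hL0 : (Nat.card L : ℂ) ≠ 0 := by exact_mod_cast Nat.card_pos.ne'
  rw [← mul_assoc, mul_inv_cancel₀ hL0, one_mul]
  refine Finset.sum_congr rfl fun l _ => ?_
  rw [map_mul, conj_char hθ, Complex.conj_conj, mul_comm]

/-- conjugation action of an element normalising `L` on functions -/
def cj (L : Subgroup G) (t : G) (θ : L → ℂ) (l : L) : ℂ := ext0 L θ (t⁻¹ * l * t)

lemma cj_irr {L : Subgroup G} {t : G} (ht : ∀ l ∈ L, t⁻¹ * l * t ∈ L) {θ : L → ℂ}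
    (hθ : IsIrr θ) : IsIrr (cj L t θ) := by
  let f : L →* L :=
    { toFun := fun l => ⟨t⁻¹ * l * t, ht l l.2⟩
      map_one' := Subtype.ext (by simp)
      map_mul' := fun a b => Subtype.ext (by
        simp only [Subgroup.coe_mul]
        group) }
  have hinj : Function.Injective f := by
    intro a b h
    have h1 := congrArg Subtype.val h
    change t⁻¹ * (a : G) * t = t⁻¹ * (b : G) * t at h1
    exact Subtype.ext (mul_left_cancel (mul_right_cancel h1))
  have hbij : Function.Bijective f := Finite.injective_iff_bijective.mp hinj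
  have h1 := irr_comp hθ (MulEquiv.ofBijective f hbij)
  have h2 : (fun h => θ ((MulEquiv.ofBijective f hbij) h)) = cj L t θ := by
    funext l
    unfold cj
    rw [ext0_mem θ (ht l l.2)]
    rfl
  rw [← h2]
  exact h1

lemma ips_cj {L : Subgroup G} {t y y' : G} (ht : ∀ l ∈ L, t⁻¹ * l * t ∈ L) {θ ψ}
    (hψ : IsIrr ψ) (hy : t⁻¹ * y * t = y') : ips L y ψ (cj L t θ) = ips L y' ψ θ := by
  unfold ips
  congr 1
  let f : L → L := fun l => ⟨t⁻¹ * l * t, ht l l.2⟩
  have hinj : Function.Injective f := by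
    intro a b h
    have h1 := congrArg Subtype.val h
    change t⁻¹ * (a : G) * t = t⁻¹ * (b : G) * t at h1
    exact Subtype.ext (mul_left_cancel (mul_right_cancel h1))
  have hbij : Function.Bijective f := Finite.injective_iff_bijective.mp hinj
  refine Fintype.sum_bijective f hbij _ _ fun l => ?_
  have e1 : ψ (y' * (f l : G)) = ψ (y * l) := by
    rw [← hψ.conj (y * l) t⁻¹]
    congr 1
    rw [← hy]
    change t⁻¹ * y * t * (t⁻¹ * (l : G) * t) = _
    group
  have e2 : cj L t θ l⁻¹ = θ (f l)⁻¹ := by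
    unfold cj
    have h3 : t⁻¹ * ((l⁻¹ : L) : G) * t ∈ L := ht _ (l⁻¹).2
    rw [ext0_mem θ h3]
    congr 1
    apply Subtype.ext
    change t⁻¹ * ((l : G)⁻¹) * t = (t⁻¹ * (l : G) * t)⁻¹
    group
  rw [e1, e2]

end ext

variable {M : Type} [Group M] [Fintype M] {z : M} {L : Subgroup M}

namespace Dat

variable (d : Dat M z L)

include d

lemma ord1 : orderOf z = 3 ^ 1 := by rw [d.hz, pow_one]

lemma z3 : z ^ 3 = 1 := by rw [← d.hz]; exact pow_orderOf_eq_one z

lemma z4 : (z ^ 2) ^ 2 = z := by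
  rw [← pow_mul]
  calc z ^ (2 * 2) = z ^ 3 * z := by group
    _ = z := by rw [d.z3, one_mul]

lemma ord2 : orderOf (z ^ 2) = 3 ^ 1 := by
  rw [pow_one, Nat.Coprime.orderOf_pow (by rw [d.hz]; norm_num), d.hz]

lemma comm2_iff (s : M) : Commute (z ^ 2) s ↔ Commute z s := by
  constructor
  · intro h
    have := h.pow_left 2
    rwa [d.z4] at this
  · intro h
    exact h.pow_left 2

lemma supp_ext (θ : L → ℂ) : Supp 3 z (ext0 L θ) := by
  intro s hs
  by_contra h
  exact hs (ext0_not θ (fun h' => h ((d.hL s).mp h')))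

lemma supp_ext2 (θ : L → ℂ) : Supp 3 (z ^ 2) (ext0 L θ) := by
  intro s hs
  rw [d.comm2_iff]
  exact d.supp_ext θ s hs

lemma norm_stab {t : M} (ht : t⁻¹ * z * t = z ^ 2) : ∀ l ∈ L, t⁻¹ * l * t ∈ L := by
  intro l hl
  rw [d.hL]
  constructor
  · rw [← d.comm2_iff, ← ht]
    have h1 := (Commute.conj_iff t⁻¹).mpr (d.zcomm hl)
    simpa using h1
  · have h1 : orderOf ((MulAut.conj t⁻¹) l) = orderOf l := (MulAut.conj t⁻¹).orderOf_eq _
    have h2 : (MulAut.conj t⁻¹) l = t⁻¹ * l * t := by simp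
    rw [← h2, h1]
    exact ((d.hL l).mp hl).2

/-- first orthogonality relation -/
theorem orth1 {θ θ' : L → ℂ} (hθ : IsIrr θ) (hθ' : IsIrr θ') :
    ∑ ψ ∈ IC.Irr M, (starRingEnd ℂ) (ips L z ψ θ) * ips L z ψ θ' = if θ = θ' then 3 else 0 := by
  have h1 := sec_orth d.ord1 d.ord1 (d.supp_ext θ) (d.supp_ext θ')
  have hL0 : (Nat.card L : ℂ) ≠ 0 := by exact_mod_cast Nat.card_pos.ne'
  have h2 : ∀ x ∈ Finset.univ.filter (fun x : M => x⁻¹ * z * x = z),
      ∑ s : M, ext0 L θ s * (starRingEnd ℂ) (ext0 L θ' (x⁻¹ * s * x)) =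
        if θ = θ' then (Nat.card L : ℂ) else 0 := by
    intro x hx
    have hx' : Commute z x := by
      have h3 := (Finset.mem_filter.mp hx).2
      have h4 := congrArg (fun w => x * w) h3
      have h5 : z * x = x * z := by simpa [mul_assoc] using h4
      exact h5
    obtain ⟨l₀, hl₀⟩ := d.cent_act hx'
    rw [sum_ext0 θ (fun s t => t * (starRingEnd ℂ) (ext0 L θ' (x⁻¹ * s * x)))
      (fun x => zero_mul _)]
    have h3 : ∀ l : L, θ l * (starRingEnd ℂ) (ext0 L θ' (x⁻¹ * (l : M) * x)) = θ l * θ' l⁻¹ := by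
      intro l
      rw [hl₀ l, ext0_coe]
      have h4 := hθ'.conj l l₀⁻¹
      rw [inv_inv] at h4
      rw [h4, conj_char hθ']
    rw [Finset.sum_congr rfl (fun l _ => h3 l)]
    have h4 := irr_orth hθ hθ'
    rw [inv_mul_eq_iff_eq_mul₀ hL0] at h4
    rw [h4]
    split_ifs <;> simp
  rw [Finset.sum_congr rfl h2, Finset.sum_const, card_conj_self, d.card_cent, nsmul_eq_mul] at h1
  have h3 : ∑ χ ∈ IC.Irr M, av z (ext0 L θ) χ * (starRingEnd ℂ) (av z (ext0 L θ') χ) =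
      (Nat.card L : ℂ) ^ 2 * ∑ ψ ∈ IC.Irr M, (starRingEnd ℂ) (ips L z ψ θ) * ips L z ψ θ' := by
    rw [Finset.mul_sum]
    refine Finset.sum_congr rfl fun χ _ => ?_
    rw [av_ext0 hθ, av_ext0 hθ', map_mul, map_natCast, Complex.conj_conj]
    ring
  rw [h3] at h1
  have h4 : (Nat.card L : ℂ) ^ 2 ≠ 0 := pow_ne_zero _ hL0
  apply mul_left_cancel₀ h4
  rw [h1]
  split_ifs
  · push_cast
    ring
  · simp

/-- second orthogonality relation -/
theorem orth2 {θ : L → ℂ} (hθ : IsIrr θ)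
    (hno : ∀ t, t⁻¹ * z * t = z ^ 2 → cj L t θ ≠ θ) :
    ∑ ψ ∈ IC.Irr M, (starRingEnd ℂ) (ips L z ψ θ) * ips L (z ^ 2) ψ θ = 0 := by
  have h1 := sec_orth d.ord1 d.ord2 (d.supp_ext θ) (d.supp_ext2 θ)
  have hL0 : (Nat.card L : ℂ) ≠ 0 := by exact_mod_cast Nat.card_pos.ne'
  have h2 : ∀ x ∈ Finset.univ.filter (fun x : M => x⁻¹ * z * x = z ^ 2),
      ∑ s : M, ext0 L θ s * (starRingEnd ℂ) (ext0 L θ (x⁻¹ * s * x)) = 0 := by
    intro x hx
    have hx' := (Finset.mem_filter.mp hx).2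
    have hst := d.norm_stab hx'
    rw [sum_ext0 θ (fun s t => t * (starRingEnd ℂ) (ext0 L θ (x⁻¹ * s * x)))
      (fun x => zero_mul _)]
    have hirr := cj_irr hst hθ
    have h3 : ∀ l : L, θ l * (starRingEnd ℂ) (ext0 L θ (x⁻¹ * (l : M) * x)) =
        θ l * cj L x θ l⁻¹ := by
      intro l
      rw [conj_char hirr]
      rfl
    rw [Finset.sum_congr rfl (fun l _ => h3 l)]
    have h4 := irr_orth hθ hirr
    rw [inv_mul_eq_iff_eq_mul₀ hL0, if_neg (fun h => hno x hx' h.symm), mul_zero] at h4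
    exact h4
  rw [Finset.sum_eq_zero h2] at h1
  have h3 : ∑ χ ∈ IC.Irr M, av z (ext0 L θ) χ * (starRingEnd ℂ) (av (z ^ 2) (ext0 L θ) χ) =
      (Nat.card L : ℂ) ^ 2 * ∑ ψ ∈ IC.Irr M, (starRingEnd ℂ) (ips L z ψ θ) *
        ips L (z ^ 2) ψ θ := by
    rw [Finset.mul_sum]
    refine Finset.sum_congr rfl fun χ _ => ?_
    rw [av_ext0 hθ, av_ext0 hθ, map_mul, map_natCast, Complex.conj_conj]
    ring
  rw [h3] at h1
  have h4 : (Nat.card L : ℂ) ^ 2 ≠ 0 := pow_ne_zero _ hL0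
  exact (mul_eq_zero.mp h1).resolve_left h4

lemma sum_L (F : M → ℝ) :
    ∑ s ∈ Finset.univ.filter (fun s : M => Commute z s ∧ ¬ 3 ∣ orderOf s), F s = ∑ l : L, F l := by
  rw [sum_sub L F]
  apply Finset.sum_congr _ (fun _ _ => rfl)
  ext s
  simp only [Finset.mem_filter, Finset.mem_univ, true_and]
  exact (d.hL s).symm

lemma zL_comm : ∀ h ∈ L, Commute z h := fun _ hh => d.zcomm hh

lemma zL_comm2 : ∀ h ∈ L, Commute (z ^ 2) h := fun _ hh => (d.zcomm hh).pow_left 2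

lemma parsL {y : M} (hy : ∀ h ∈ L, Commute y h) {ψ : M → ℂ} (hψ : IsIrr ψ) :
    ∑ l : L, ‖ψ (y * l)‖ ^ 2 = Nat.card L * ∑ θ ∈ IC.Irr L, ‖ips L y ψ θ‖ ^ 2 := by
  have h1 := parseval_norm (shift_cl hψ hy)
  have hL0 : (Nat.card L : ℝ) ≠ 0 := by exact_mod_cast Nat.card_pos.ne'
  rw [inv_mul_eq_iff_eq_mul₀ hL0] at h1
  exact h1

/-- energy bound at `z` -/
theorem energy1 {ψ : M → ℂ} (hψ : IsIrr ψ) : ∑ θ ∈ IC.Irr L, ‖ips L z ψ θ‖ ^ 2 < 3 := by
  have hz1 : z ≠ 1 := by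
    intro h
    have := d.hz
    rw [h, orderOf_one] at this
    norm_num at this
  have h1 := energy (p := 3) {z} (fun y hy => by
    rw [Finset.mem_singleton.mp hy]
    exact ⟨hz1, 1, d.ord1⟩) (fun y hy y' hy' x _ => by
    rw [Finset.mem_singleton.mp hy, Finset.mem_singleton.mp hy']) hψ
  rw [Finset.sum_singleton, d.sum_L (fun s => ‖ψ (z * s)‖ ^ 2), d.parsL d.zL_comm hψ,
    d.card_cent] at h1
  have hL0 : (0 : ℝ) < Nat.card L := by exact_mod_cast Nat.card_pos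
  push_cast at h1
  have h2 : (3 * (Nat.card L : ℝ))⁻¹ * (Nat.card L * ∑ θ ∈ IC.Irr L, ‖ips L z ψ θ‖ ^ 2) =
      (∑ θ ∈ IC.Irr L, ‖ips L z ψ θ‖ ^ 2) / 3 := by
    field_simp
  rw [h2] at h1
  linarith

/-- energy bound when `z` is not conjugate to its inverse -/
theorem energy2 (hno : ∀ t, t⁻¹ * z * t ≠ z ^ 2) {ψ : M → ℂ} (hψ : IsIrr ψ) :
    ∑ θ ∈ IC.Irr L, ‖ips L z ψ θ‖ ^ 2 + ∑ θ ∈ IC.Irr L, ‖ips L (z ^ 2) ψ θ‖ ^ 2 < 3 := by
  have hz1 : z ≠ 1 := by
    intro h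
    have := d.hz
    rw [h, orderOf_one] at this
    norm_num at this
  have hz2 : z ^ 2 ≠ 1 := by
    intro h
    have := d.ord2
    rw [h, orderOf_one] at this
    norm_num at this
  have hne : z ≠ z ^ 2 := by
    intro h
    apply hz1
    have : z * z = z * 1 := by rw [mul_one, ← sq]; exact h.symm
    exact mul_left_cancel this
  have hno' : ∀ t, t⁻¹ * z ^ 2 * t ≠ z := by
    intro t ht
    apply hno t
    have h1 : (t⁻¹ * z ^ 2 * t) ^ 2 = t⁻¹ * (z ^ 2) ^ 2 * t := by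
      rw [sq, sq (z ^ 2)]
      group
    rw [ht, d.z4] at h1
    exact h1.symm
  have h1 := energy (p := 3) {z, z ^ 2} (fun y hy => by
    rcases Finset.mem_insert.mp hy with rfl | hy
    · exact ⟨hz1, 1, d.ord1⟩
    · rw [Finset.mem_singleton.mp hy]
      exact ⟨hz2, 1, d.ord2⟩) (fun y hy y' hy' x hx => by
    rcases Finset.mem_insert.mp hy with h | h <;> rcases Finset.mem_insert.mp hy' with h' | h'
    · rw [h, h']
    · rw [Finset.mem_singleton.mp h', h] at hx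
      exact absurd hx (hno x)
    · rw [Finset.mem_singleton.mp h, h'] at hx
      exact absurd hx (hno' x)
    · rw [Finset.mem_singleton.mp h, Finset.mem_singleton.mp h']) hψ
  have hcent : Subgroup.centralizer ({z ^ 2} : Set M) = Subgroup.centralizer ({z} : Set M) := by
    ext x
    rw [Subgroup.mem_centralizer_iff, Subgroup.mem_centralizer_iff]
    simp only [Set.mem_singleton_iff, forall_eq]
    exact d.comm2_iff x
  have hfil : Finset.univ.filter (fun s : M => Commute (z ^ 2) s ∧ ¬ 3 ∣ orderOf s) =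
      Finset.univ.filter (fun s : M => Commute z s ∧ ¬ 3 ∣ orderOf s) := by
    ext s
    simp only [Finset.mem_filter, Finset.mem_univ, true_and, d.comm2_iff]
  rw [Finset.sum_insert (by rw [Finset.mem_singleton]; exact hne), Finset.sum_singleton, hcent,
    hfil, d.sum_L (fun s => ‖ψ (z * s)‖ ^ 2), d.sum_L (fun s => ‖ψ (z ^ 2 * s)‖ ^ 2),
    d.parsL d.zL_comm hψ, d.parsL d.zL_comm2 hψ, d.card_cent] at h1
  have hL0 : (0 : ℝ) < Nat.card L := by exact_mod_cast Nat.card_pos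
  push_cast at h1
  have h2 : ∀ a : ℝ, (3 * (Nat.card L : ℝ))⁻¹ * (Nat.card L * a) = a / 3 := by
    intro a
    field_simp
  rw [h2, h2] at h1
  linarith

end Dat

end Pool.Agent.Y62
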