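import Pool.Agent.Y62.ThmM1

/-!
Characters of groups whose Sylow 3-subgroup has order three.
-/

set_option linter.style.haveILetI false
set_option linter.unusedSectionVars false

open scoped BigOperators Classical
open Pool.Agent.Helper884 Representation Pool.Agent.H254R3.IN

noncomputable section

namespace Pool.Agent.Y62

variable {M : Type} [Group M] [Fintype M] {z : M} {L : Subgroup M}

namespace Dat

variable (d : Dat M z L)

include d

lemma fourier3 {ψ : M → ℂ} (hψ : IsIrr ψ) {θ : L → ℂ} (hθ : IsIrr θ)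
    (l : Subgroup.zpowers z →* ℂˣ) (hl : Function.Injective l) :
    ∃ a b c : ℤ, ips L z ψ θ = a + b * ((l (yy z) : ℂˣ) : ℂ) + c * ((l (yy z) : ℂˣ) : ℂ) ^ 2 ∧
      ips L (z ^ 2) ψ θ = a + b * ((l (yy z) : ℂˣ) : ℂ) ^ 2 +
        c * (((l (yy z) : ℂˣ) : ℂ) ^ 2) ^ 2 := by
  obtain ⟨n, hn⟩ := ips_fourier hψ d.zL_comm hθ l hl
  refine ⟨n 0, n 1, n 2, ?_, ?_⟩
  · have h1 := hn 1
    rw [pow_one, d.hz, Finset.sum_range_succ, Finset.sum_range_succ, Finset.sum_range_one] at h1
    rw [h1]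
    push_cast
    ring
  · have h1 := hn 2
    rw [d.hz, Finset.sum_range_succ, Finset.sum_range_succ, Finset.sum_range_one] at h1
    rw [h1]
    push_cast
    ring

lemma prim3 (l : Subgroup.zpowers z →* ℂˣ) (hl : Function.Injective l) :
    IsPrimitiveRoot ((l (yy z) : ℂˣ) : ℂ) 3 := by
  have := prim_root l hl
  rwa [d.hz] at this

lemma ips2 {ψ : M → ℂ} (hψ : IsIrr ψ) {θ : L → ℂ} (hθ : IsIrr θ) :
    ips L (z ^ 2) ψ θ = (starRingEnd ℂ) (ips L z ψ θ) := by
  obtain ⟨l, hl⟩ := exists_l z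
  obtain ⟨a, b, c, h1, h2⟩ := d.fourier3 hψ hθ l hl
  have hω := d.prim3 l hl
  rw [h1, h2]
  simp only [map_add, map_mul, map_pow, cube_conj hω, map_intCast]

lemma le_energy {ψ : M → ℂ} (hψ : IsIrr ψ) {θ : L → ℂ} (hθ : IsIrr θ) :
    ‖ips L z ψ θ‖ ^ 2 < 3 := by
  refine lt_of_le_of_lt ?_ (d.energy1 hψ)
  exact Finset.single_le_sum (f := fun θ => ‖ips L z ψ θ‖ ^ 2) (fun _ _ => by positivity)
    (IC.mem_Irr.mpr hθ)

lemma unit_cases {ψ : M → ℂ} (hψ : IsIrr ψ) {θ : L → ℂ} (hθ : IsIrr θ)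
    (l : Subgroup.zpowers z →* ℂˣ) (hl : Function.Injective l) (hne : ips L z ψ θ ≠ 0) :
    ∃ e : ℤ, (e = 1 ∨ e = -1) ∧ ∃ j : ℕ, ips L z ψ θ = e * ((l (yy z) : ℂˣ) : ℂ) ^ j := by
  obtain ⟨a, b, c, h1, -⟩ := d.fourier3 hψ hθ l hl
  have hω := d.prim3 l hl
  have h2 := d.le_energy hψ hθ
  rw [h1] at h2 hne ⊢
  rcases cube_cases hω a b c h2 with h | ⟨e, he, j, _, hj⟩
  · exact absurd h hne
  · exact ⟨e, he, j, hj⟩

lemma norm_one {ψ : M → ℂ} (hψ : IsIrr ψ) {θ : L → ℂ} (hθ : IsIrr θ)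
    (hne : ips L z ψ θ ≠ 0) : ‖ips L z ψ θ‖ ^ 2 = 1 := by
  obtain ⟨l, hl⟩ := exists_l z
  obtain ⟨e, he, j, h⟩ := d.unit_cases hψ hθ l hl hne
  have hω := d.prim3 l hl
  rw [h, norm_mul, norm_pow, hω.norm'_eq_one (by norm_num), one_pow, mul_one]
  rcases he with rfl | rfl <;> simp

/-- at most two characters -/
lemma three_false {ψ : M → ℂ} (hψ : IsIrr ψ) {θ₁ θ₂ θ₃ : L → ℂ} (h1 : IsIrr θ₁) (h2 : IsIrr θ₂)
    (h3 : IsIrr θ₃) (h12 : θ₁ ≠ θ₂) (h13 : θ₁ ≠ θ₃) (h23 : θ₂ ≠ θ₃)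
    (n1 : ips L z ψ θ₁ ≠ 0) (n2 : ips L z ψ θ₂ ≠ 0) (n3 : ips L z ψ θ₃ ≠ 0) : False := by
  have h := d.energy1 hψ
  have hsub : ({θ₁, θ₂, θ₃} : Finset (L → ℂ)) ⊆ IC.Irr L := by
    intro x hx
    simp only [Finset.mem_insert, Finset.mem_singleton] at hx
    rcases hx with rfl | rfl | rfl
    · exact IC.mem_Irr.mpr h1
    · exact IC.mem_Irr.mpr h2
    · exact IC.mem_Irr.mpr h3
  have h4 := Finset.sum_le_sum_of_subset_of_nonneg hsub
    (f := fun θ => ‖ips L z ψ θ‖ ^ 2) (fun _ _ _ => by positivity)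
  rw [Finset.sum_insert (by simp [h12, h13]), Finset.sum_insert (by simp [h23]),
    Finset.sum_singleton, d.norm_one hψ h1 n1, d.norm_one hψ h2 n2, d.norm_one hψ h3 n3] at h4
  linarith

lemma two_false (hno : ∀ t, t⁻¹ * z * t ≠ z ^ 2) {ψ : M → ℂ} (hψ : IsIrr ψ)
    {θ₁ θ₂ : L → ℂ} (h1 : IsIrr θ₁) (h2 : IsIrr θ₂) (h12 : θ₁ ≠ θ₂)
    (n1 : ips L z ψ θ₁ ≠ 0) (n2 : ips L z ψ θ₂ ≠ 0) : False := by
  have h := d.energy2 hno hψ
  have h' : ∑ θ ∈ IC.Irr L, ‖ips L (z ^ 2) ψ θ‖ ^ 2 = ∑ θ ∈ IC.Irr L, ‖ips L z ψ θ‖ ^ 2 := by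
    refine Finset.sum_congr rfl fun θ hθ => ?_
    rw [d.ips2 hψ (IC.mem_Irr.mp hθ), RCLike.norm_conj]
  rw [h'] at h
  have hsub : ({θ₁, θ₂} : Finset (L → ℂ)) ⊆ IC.Irr L := by
    intro x hx
    simp only [Finset.mem_insert, Finset.mem_singleton] at hx
    rcases hx with rfl | rfl
    · exact IC.mem_Irr.mpr h1
    · exact IC.mem_Irr.mpr h2
  have h4 := Finset.sum_le_sum_of_subset_of_nonneg hsub
    (f := fun θ => ‖ips L z ψ θ‖ ^ 2) (fun _ _ _ => by positivity)
  rw [Finset.sum_insert (by simp [h12]),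
    Finset.sum_singleton, d.norm_one hψ h1 n1, d.norm_one hψ h2 n2] at h4
  linarith

/-- the characters over `θ` -/
def XX (_ : Dat M z L) (θ : L → ℂ) : Finset (M → ℂ) := (IC.Irr M).filter (fun ψ => ips L z ψ θ ≠ 0)

omit d in
lemma mem_XX (d : Dat M z L) {θ : L → ℂ} {ψ : M → ℂ} :
    ψ ∈ d.XX θ ↔ IsIrr ψ ∧ ips L z ψ θ ≠ 0 := by
  unfold XX
  rw [Finset.mem_filter, mem_Irr]

lemma card_XX {θ : L → ℂ} (hθ : IsIrr θ) : (d.XX θ).card = 3 := by
  have h1 := d.orth1 hθ hθ
  rw [if_pos rfl] at h1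
  have h2 : ∑ ψ ∈ IC.Irr M, (starRingEnd ℂ) (ips L z ψ θ) * ips L z ψ θ =
      ∑ ψ ∈ d.XX θ, (1 : ℂ) := by
    unfold XX
    rw [Finset.sum_filter]
    refine Finset.sum_congr rfl fun ψ hψ => ?_
    by_cases h : ips L z ψ θ = 0
    · rw [if_neg (not_not.mpr h), h, mul_zero]
    · rw [if_pos h, mul_comm, Complex.mul_conj']
      have := d.norm_one (IC.mem_Irr.mp hψ) hθ h
      exact_mod_cast this
  rw [h2, Finset.sum_const, nsmul_eq_mul, mul_one] at h1
  exact_mod_cast h1

/-- value at singular elements -/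
lemma val_sing {ψ : M → ℂ} (hψ : IsIrr ψ) {m x : M} {i : ℕ} {l : L}
    (hm : m = x * (z ^ i * l) * x⁻¹) :
    ψ m = ∑ θ ∈ IC.Irr L, ips L (z ^ i) ψ θ * θ l := by
  rw [hm, hψ.conj]
  exact val_expand hψ (fun h hh => (d.zcomm hh).pow_left i) l

section uniq

variable {O : ValuationSubring ℂ} (hO : ((3 : ℕ) : ℂ) ∈ O.nonunits)

include hO

/-- in the stable case the character over `z` is unique -/
lemma uniq_a {θ θ' : L → ℂ} (hθ : IsIrr θ) (hθ' : IsIrr θ') {t : M} (ht : t⁻¹ * z * t = z ^ 2)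
    (hst' : cj L t θ' = θ') {ψ : M → ℂ} (hψ : IsIrr ψ) (h1 : ips L z ψ θ ≠ 0)
    (h2 : ips L z ψ θ' ≠ 0) : θ' = θ := by
  by_contra hne
  obtain ⟨lam, hlam⟩ := exists_l z
  have hω := d.prim3 lam hlam
  have hωr : red O (((lam (yy z) : ℂˣ) : ℂ)) = 1 :=
    red_root hO (k := 1) (by rw [pow_one]; exact hω.pow_eq_one)
  have hωO : (((lam (yy z) : ℂˣ) : ℂ)) ∈ O := root_mem (by norm_num) hω.pow_eq_one
  have hredne : ∀ {θ : L → ℂ}, IsIrr θ → ips L z ψ θ ≠ 0 → red O (ips L 1 ψ θ) ≠ 0 := by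
    intro θ hθ hn
    obtain ⟨e, he, j, hj⟩ := d.unit_cases hψ hθ lam hlam hn
    have h3 := (ips_red hO hψ d.zL_comm d.ord1 hθ 1).2
    rw [pow_one] at h3
    rw [← h3, hj, red_mul (intCast_mem' e) (pow_mem hωO _), red_pow hωO, hωr, one_pow, mul_one,
      red_intCast]
    rcases he with rfl | rfl
    · simp
    · simp
  have hz3 := d.z3
  have htt : t * z * t⁻¹ = z ^ 2 := by
    have h3 : t * z ^ 2 * t⁻¹ = z := by
      rw [← ht]
      group
    have h4 : (t * z * t⁻¹) ^ 2 = z := by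
      calc (t * z * t⁻¹) ^ 2 = t * z ^ 2 * t⁻¹ := by
            rw [sq, sq]
            group
        _ = z := h3
    have h5 : (t * z * t⁻¹) ^ 3 = 1 := by
      rw [conj_pow, hz3]
      group
    have aux : ∀ w : M, w ^ 3 = 1 → w = (w ^ 2) ^ 2 := by
      intro w hw
      calc w = w ^ 3 * w := by rw [hw, one_mul]
        _ = (w ^ 2) ^ 2 := by rw [← pow_succ, ← pow_mul]
    rw [aux _ h5, h4]
  -- invariance of the idempotent
  set e0 : M → ℂ := ext0 L (idem θ') with he0
  have hidcl := idem_cl hθ'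
  have hc : ∀ c, Commute z c → ∀ l : L, e0 (c⁻¹ * l * c) = e0 l := by
    intro c hc l
    obtain ⟨l₀, hl₀⟩ := d.cent_act hc
    rw [hl₀ l, he0, ext0_coe, ext0_coe]
    have h4 := hidcl l l₀⁻¹
    rwa [inv_inv] at h4
  have hstab := d.norm_stab ht
  have ht' : ∀ l : L, e0 (t⁻¹ * l * t) = e0 l := by
    intro l
    rw [he0, ext0_mem (idem θ') (hstab l l.2), ext0_coe]
    unfold idem
    congr 1
    have h3 := congrFun hst' l⁻¹
    unfold cj at h3
    have h4 : t⁻¹ * ((l⁻¹ : L) : M) * t ∈ L := hstab _ (l⁻¹).2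
    rw [ext0_mem θ' h4] at h3
    rw [← h3]
    congr 1
    apply Subtype.ext
    change (t⁻¹ * (l : M) * t)⁻¹ = t⁻¹ * ((l : M)⁻¹) * t
    group
  -- fusion
  have hfus : ∀ l l' : L, IsConj (l : M) (l' : M) → e0 l = e0 l' := by
    intro l l' hll
    have hSp : ∀ l : L, (l : M) ∈ Sp 3 (Subgroup.zpowers z) := by
      intro l
      refine ⟨((d.hL l).mp l.2).2, ?_⟩
      rw [Subgroup.mem_centralizer_iff]
      intro h hh
      obtain ⟨k, rfl⟩ := Subgroup.mem_zpowers_iff.mp hh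
      exact ((d.zcomm l.2).zpow_left k).eq
    have hkk : ¬ 3 ∣ kk (Subgroup.zpowers z) (l : M) := by
      intro h
      have h3 := kk_mul (hSp l).2
      rw [Nat.card_zpowers, d.hz] at h3
      apply d.h9
      refine dvd_trans ?_ (Subgroup.card_subgroup_dvd_card (Subgroup.centralizer ({(l : M)} : Set M)))
      rw [← h3]
      obtain ⟨c, hc⟩ := h
      rw [hc]
      exact ⟨c, by ring⟩
    have h3 := fusion d.zp (y := ⟨l, cent_le_NN (hSp l).2⟩) (z := ⟨l', cent_le_NN (hSp l').2⟩)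
      (hSp l) (hSp l') hll hkk
    obtain ⟨n, hn⟩ := isConj_iff.mp h3
    have hn' : (n : M) * l * (n : M)⁻¹ = l' := congrArg Subtype.val hn
    have hnz : (n : M) * z * (n : M)⁻¹ ∈ Subgroup.zpowers z :=
      (Subgroup.mem_normalizer_iff.mp n.2 z).mp (Subgroup.mem_zpowers z)
    rcases d.pow_cases hnz with h | h | h
    · exfalso
      have h4 : z = 1 := by
        have : z = (n : M)⁻¹ * ((n : M) * z * (n : M)⁻¹) * n := by group
        rw [this, h]
        group
      have h5 := d.hz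
      rw [h4, orderOf_one] at h5
      norm_num at h5
    · have hcn : Commute z (n : M)⁻¹ := by
        have h6 : (n : M) * z = z * n := by
          have := congrArg (fun w => w * (n : M)) h
          simpa [mul_assoc] using this
        have h7 : Commute z (n : M) := h6.symm
        exact h7.inv_right
      have h5 := hc _ hcn l
      rw [inv_inv, hn'] at h5
      exact h5.symm
    · have hcn : Commute z ((n : M) * t)⁻¹ := by
        have h6 : ((n : M) * t) * z * ((n : M) * t)⁻¹ = z := by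
          have e1 : ((n : M) * t) * z * ((n : M) * t)⁻¹ = (n : M) * (t * z * t⁻¹) * (n : M)⁻¹ := by
            group
          rw [e1, htt]
          have e2 : (n : M) * z ^ 2 * (n : M)⁻¹ = ((n : M) * z * (n : M)⁻¹) ^ 2 := by
            rw [sq, sq]
            group
          rw [e2, h, d.z4]
        have h7 : ((n : M) * t) * z = z * ((n : M) * t) := by
          have := congrArg (fun w => w * ((n : M) * t)) h6
          simpa [mul_assoc] using this
        have h8 : Commute z ((n : M) * t) := h7.symm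
        exact h8.inv_right
      have h5 := hc _ hcn ⟨t⁻¹ * l * t, hstab l l.2⟩
      rw [inv_inv] at h5
      have e3 : (n : M) * t * (t⁻¹ * (l : M) * t) * ((n : M) * t)⁻¹ = l' := by
        rw [← hn']
        group
      change e0 ((n : M) * t * (t⁻¹ * (l : M) * t) * ((n : M) * t)⁻¹) = e0 (t⁻¹ * (l : M) * t) at h5
      rw [e3, ht'] at h5
      exact h5.symm
  -- the class function
  let f : M → ℂ := fun m =>
    if h : ∃ l : L, IsConj (l : M) m then e0 ((Classical.choose h : L) : M) else 0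
  have hf1 : ∀ (l : L) (m : M), IsConj (l : M) m → f m = e0 l := by
    intro l m hlm
    have hex : ∃ l : L, IsConj (l : M) m := ⟨l, hlm⟩
    have h3 : f m = e0 ((Classical.choose hex : L) : M) := dif_pos hex
    rw [h3]
    exact hfus _ _ ((Classical.choose_spec hex).trans hlm.symm)
  have hf2 : ∀ m : M, (¬ ∃ l : L, IsConj (l : M) m) → f m = 0 := fun m hm => dif_neg hm
  have hf : IsCl f := by
    intro g y
    have hg : IsConj g (y * g * y⁻¹) := isConj_iff.mpr ⟨y, rfl⟩
    by_cases h : ∃ l : L, IsConj (l : M) g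
    · obtain ⟨l, hl⟩ := h
      rw [hf1 l g hl, hf1 l _ (hl.trans hg)]
    · rw [hf2 g h, hf2 _ (fun ⟨l, hl⟩ => h ⟨l, hl.trans hg.symm⟩)]
  have he0O : ∀ l : L, e0 l ∈ O := by
    intro l
    rw [he0, ext0_coe]
    exact O.mul_mem _ _ (O.mul_mem _ _ (hθ'.val_mem O _) (nat_inv_mem hO d.Lcard))
      (hθ'.val_mem O _)
  have hfO : ∀ m, f m ∈ O := by
    intro m
    by_cases h : ∃ l : L, IsConj (l : M) m
    · obtain ⟨l, hl⟩ := h
      rw [hf1 l m hl]
      exact he0O l
    · rw [hf2 m h]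
      exact O.zero_mem
  let φ : Subgroup.zpowers z →* MulAut M := (MulAut.conj : M →* MulAut M).comp
    (Subgroup.zpowers z).subtype
  have hφ : ∀ a x, φ a x = (a : M) * x * (a : M)⁻¹ := fun a x => rfl
  have hLfix : ∀ l ∈ L, l ∈ fixS φ := by
    intro l hl a
    rw [hφ]
    obtain ⟨k, hk⟩ := Subgroup.mem_zpowers_iff.mp a.2
    rw [← hk, ((d.zcomm hl).zpow_left k).eq]
    group
  have hf0 : ∀ c ∈ fixS φ, c ∉ L → red O (f c) = 0 := by
    intro c hc hcL
    have hcz : Commute z c := by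
      have h3 := hc ⟨z, Subgroup.mem_zpowers z⟩
      rw [hφ] at h3
      have := congrArg (fun w => w * z) h3
      have h4 : z * c = c * z := by simpa [mul_assoc] using this
      exact h4
    have h3c : 3 ∣ orderOf c := by
      by_contra h
      exact hcL ((d.hL c).mpr ⟨hcz, h⟩)
    rw [hf2 c, red_zero]
    rintro ⟨l, hl⟩
    rw [← orderOf_isConj hl] at h3c
    exact ((d.hL l).mp l.2).2 h3c
  have hfL : (fun l : L => f l) = idem θ' := by
    funext l
    rw [hf1 l l (IsConj.refl _), he0, ext0_coe]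
  have k1 := key_compare φ hO d.zp hLfix d.Lcard hψ (fun a x => by rw [hφ, hψ.conj]) hf hfO
    (fun a x => by rw [hφ, hf]) hf0 hθ (hredne hθ h1)
  have k2 := key_compare φ hO d.zp hLfix d.Lcard hψ (fun a x => by rw [hφ, hψ.conj]) hf hfO
    (fun a x => by rw [hφ, hf]) hf0 hθ' (hredne hθ' h2)
  rw [k1, hfL, Om_idem hθ' hθ, Om_idem hθ' hθ', if_neg (fun h => hne h.symm), if_pos rfl,
    red_one, red_zero] at k2
  exact zero_ne_one k2

/-- **Theorem M**: the three characters over `θ`. -/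
theorem main {θ : L → ℂ} (hθ : IsIrr θ) :
    ∃ X : Finset (M → ℂ), X.card = 3 ∧ (∀ ψ ∈ X, IsIrr ψ) ∧ ∃ e : (M → ℂ) → ℤ,
      (∀ ψ ∈ X, e ψ = 1 ∨ e ψ = -1) ∧
      (∀ ψ, IsIrr ψ → ψ ∉ X → red O (ips L 1 ψ θ) = 0) ∧
      (∀ ψ ∈ X, red O (ips L 1 ψ θ) = red O (e ψ : ℂ)) ∧
      ((∀ ψ ∈ X, ∀ ψ' ∈ X, ∀ m, 3 ∣ orderOf m → (e ψ : ℂ) * ψ m = e ψ' * ψ' m) ∨
        (∀ m, 3 ∣ orderOf m → ∑ ψ ∈ X, (e ψ : ℂ) * ψ m = 0)) := by
  obtain ⟨lam, hlam⟩ := exists_l z
  have hω := d.prim3 lam hlam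
  set ω := ((lam (yy z) : ℂˣ) : ℂ) with hωdef
  have hωr : red O ω = 1 := red_root hO (k := 1) (by rw [pow_one]; exact hω.pow_eq_one)
  have hωO : ω ∈ O := root_mem (by norm_num) hω.pow_eq_one
  have hex : ∀ ψ ∈ d.XX θ, ∃ e : ℤ, (e = 1 ∨ e = -1) ∧ ∃ j : ℕ, ips L z ψ θ = e * ω ^ j := by
    intro ψ hψ
    obtain ⟨h1, h2⟩ := d.mem_XX.mp hψ
    exact d.unit_cases h1 hθ lam hlam h2
  let e : (M → ℂ) → ℤ := fun ψ => if h : ψ ∈ d.XX θ then Classical.choose (hex ψ h) else 1
  have he : ∀ ψ ∈ d.XX θ, (e ψ = 1 ∨ e ψ = -1) ∧ ∃ j : ℕ, ips L z ψ θ = e ψ * ω ^ j := by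
    intro ψ h
    have h1 : e ψ = Classical.choose (hex ψ h) := dif_pos h
    rw [h1]
    exact Classical.choose_spec (hex ψ h)
  have hred1 : ∀ ψ, IsIrr ψ → red O (ips L 1 ψ θ) = red O (ips L z ψ θ) := by
    intro ψ hψ
    have h3 := (ips_red hO hψ d.zL_comm d.ord1 hθ 1).2
    rw [pow_one] at h3
    exact h3.symm
  have hee : ∀ ψ ∈ d.XX θ, (e ψ : ℂ) * e ψ = 1 := by
    intro ψ hψ
    rcases (he ψ hψ).1 with h | h <;> rw [h] <;> norm_num
  refine ⟨d.XX θ, d.card_XX hθ, fun ψ hψ => (d.mem_XX.mp hψ).1, e, fun ψ hψ => (he ψ hψ).1,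
    ?_, ?_, ?_⟩
  · intro ψ hψ hn
    rw [hred1 ψ hψ]
    have : ips L z ψ θ = 0 := by
      by_contra h
      exact hn (d.mem_XX.mpr ⟨hψ, h⟩)
    rw [this, red_zero]
  · intro ψ hψ
    obtain ⟨-, j, hj⟩ := he ψ hψ
    rw [hred1 ψ (d.mem_XX.mp hψ).1, hj, red_mul (intCast_mem' _) (pow_mem hωO _), red_pow hωO,
      hωr, one_pow, mul_one]
  · by_cases hcase : ∃ t, t⁻¹ * z * t = z ^ 2 ∧ cj L t θ = θ
    · left
      obtain ⟨t, ht, hst⟩ := hcase
      have hstab := d.norm_stab ht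
      -- values
      have hval : ∀ ψ ∈ d.XX θ, ∀ (i : ℕ), (i = 1 ∨ i = 2) → ∀ θ', IsIrr θ' →
          ips L (z ^ i) ψ θ' = if θ' = θ then (e ψ : ℂ) else 0 := by
        intro ψ hψ i hi θ' hθ'
        obtain ⟨hψi, hψn⟩ := d.mem_XX.mp hψ
        have hreal : ips L z ψ θ = e ψ := by
          obtain ⟨-, j, hj⟩ := he ψ hψ
          have h3 := ips_cj hstab hψi ht (θ := θ)
          rw [hst, d.ips2 hψi hθ, hj, map_mul, map_pow, cube_conj hω, map_intCast] at h3
          have h4 : ω ^ j = (ω ^ 2) ^ j := by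
            have h5 := congrArg (fun w => (e ψ : ℂ) * w) h3
            simp only [← mul_assoc, hee ψ hψ, one_mul] at h5
            exact h5
          have h5 : ω ^ j = 1 := by
            have h6 : ω ^ j * 1 = ω ^ j * ω ^ j := by
              rw [mul_one, ← pow_add]
              rw [← pow_mul] at h4
              have : 2 * j = j + j := by ring
              rw [this] at h4
              exact h4
            exact (mul_left_cancel₀ (pow_ne_zero _ (hω.ne_zero (by norm_num))) h6).symm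
          rw [hj, h5, mul_one]
        have hz' : ips L z ψ θ' = if θ' = θ then (e ψ : ℂ) else 0 := by
          split_ifs with h
          · rw [h, hreal]
          · by_contra hn
            have hcj := ips_cj hstab hψi ht (θ := θ')
            have hn2 : ips L z ψ (cj L t θ') ≠ 0 := by
              rw [hcj, d.ips2 hψi hθ']
              exact (map_ne_zero _).mpr hn
            have hirr := cj_irr hstab hθ'
            have hst' : cj L t θ' = θ' := by
              by_contra hne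
              refine d.three_false hψi hθ hθ' hirr (fun h' => h h'.symm) ?_ (fun h' => hne h'.symm)
                hψn hn hn2
              intro h'
              -- θ = cj t θ', so cj t θ = θ = cj t θ'; injectivity
              apply h
              have h7 : cj L t θ = cj L t θ' := by rw [hst]; exact h'
              -- injectivity of cj
              funext l
              have hsurj : ∃ l' : L, t⁻¹ * (l' : M) * t = l := by
                let g : L → L := fun l => ⟨t⁻¹ * l * t, hstab l l.2⟩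
                have hinj : Function.Injective g := by
                  intro a b hab
                  have h1 := congrArg Subtype.val hab
                  change t⁻¹ * (a : M) * t = t⁻¹ * (b : M) * t at h1
                  exact Subtype.ext (mul_left_cancel (mul_right_cancel h1))
                obtain ⟨l', hl'⟩ := (Finite.injective_iff_surjective.mp hinj) l
                exact ⟨l', congrArg Subtype.val hl'⟩
              obtain ⟨l', hl'⟩ := hsurj
              have h8 := congrFun h7 l'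
              unfold cj at h8
              rw [hl', ext0_coe, ext0_coe] at h8
              exact h8.symm
            exact h (d.uniq_a hO hθ hθ' ht hst' hψi hψn hn)
        rcases hi with rfl | rfl
        · rw [pow_one, hz']
        · rw [d.ips2 hψi hθ', hz']
          split_ifs
          · exact map_intCast _ _
          · exact map_zero _
      have hsing : ∀ ψ ∈ d.XX θ, ∀ m (x : M) (i : ℕ) (l : L), (i = 1 ∨ i = 2) →
          m = x * (z ^ i * l) * x⁻¹ → (e ψ : ℂ) * ψ m = θ l := by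
        intro ψ hψ m x i l hi hm
        rw [d.val_sing (d.mem_XX.mp hψ).1 hm,
          Finset.sum_congr rfl (fun θ' hθ' => by rw [hval ψ hψ i hi θ' (IC.mem_Irr.mp hθ')])]
        simp only [ite_mul, zero_mul, Finset.sum_ite_eq', mem_Irr, hθ, if_true]
        rw [← mul_assoc, hee ψ hψ, one_mul]
      intro ψ hψ ψ' hψ' m hm
      obtain ⟨x, i, l, hi, hx⟩ := d.singular hm
      rw [hsing ψ hψ m x i l hi hx, hsing ψ' hψ' m x i l hi hx]
    · right
      push Not at hcase
      -- the basic relation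
      have hrel : ∑ ψ ∈ d.XX θ, (e ψ : ℂ) * ips L z ψ θ = 0 := by
        have h3 := d.orth2 hθ hcase
        have h4 : ∑ ψ ∈ IC.Irr M, (starRingEnd ℂ) (ips L z ψ θ) * ips L (z ^ 2) ψ θ =
            ∑ ψ ∈ d.XX θ, (e ψ : ℂ) * ips L z ψ θ := by
          unfold XX
          rw [Finset.sum_filter]
          refine Finset.sum_congr rfl fun ψ hψ => ?_
          have hψi : IsIrr ψ := IC.mem_Irr.mp hψ
          by_cases h : ips L z ψ θ = 0
          · rw [if_neg (not_not.mpr h), h, map_zero, zero_mul]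
          · rw [if_pos h, d.ips2 hψi hθ]
            have hmem : ψ ∈ d.XX θ := d.mem_XX.mpr ⟨hψi, h⟩
            obtain ⟨-, j, hj⟩ := he ψ hmem
            rw [hj, map_mul, map_pow, cube_conj hω, map_intCast]
            have h5 : (ω ^ 2) ^ j * (ω ^ 2) ^ j = ω ^ j := by
              rw [← mul_pow]
              congr 1
              calc ω ^ 2 * ω ^ 2 = ω ^ 3 * ω := by ring
                _ = ω := by rw [hω.pow_eq_one, one_mul]
            calc (e ψ : ℂ) * (ω ^ 2) ^ j * ((e ψ : ℂ) * (ω ^ 2) ^ j)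
                = (e ψ : ℂ) * e ψ * ((ω ^ 2) ^ j * (ω ^ 2) ^ j) := by ring
              _ = (e ψ : ℂ) * ((e ψ : ℂ) * ω ^ j) := by rw [h5]; ring
        rw [← h4]
        exact h3
      have hrel' : ∀ θ', IsIrr θ' → ∑ ψ ∈ d.XX θ, (e ψ : ℂ) * ips L z ψ θ' = 0 := by
        intro θ' hθ'
        by_cases heq : θ' = θ
        · rw [heq]; exact hrel
        · by_cases hall : ∀ ψ ∈ d.XX θ, ips L z ψ θ' = 0
          · apply Finset.sum_eq_zero
            intro ψ hψ
            rw [hall ψ hψ, mul_zero]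
          · push Not at hall
            obtain ⟨ψ₀, hψ₀, hn₀⟩ := hall
            obtain ⟨hi₀, hn⟩ := d.mem_XX.mp hψ₀
            have hext : ∃ t, t⁻¹ * z * t = z ^ 2 := by
              by_contra hcon
              push Not at hcon
              exact d.two_false hcon hi₀ hθ hθ' (fun h => heq h.symm) hn hn₀
            obtain ⟨t, ht⟩ := hext
            have hstab := d.norm_stab ht
            have hirr := cj_irr hstab hθ
            have hcj : ∀ ψ, IsIrr ψ → ips L z ψ (cj L t θ) = (starRingEnd ℂ) (ips L z ψ θ) := by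
              intro ψ hψ
              rw [ips_cj hstab hψ ht (θ := θ), d.ips2 hψ hθ]
            have hθ't : θ' = cj L t θ := by
              by_contra hne
              refine d.three_false hi₀ hθ hθ' hirr (fun h => heq h.symm)
                (fun h => hcase t ht h.symm) hne hn hn₀ ?_
              rw [hcj ψ₀ hi₀]
              exact (map_ne_zero _).mpr hn
            rw [hθ't]
            have h6 : ∑ ψ ∈ d.XX θ, (e ψ : ℂ) * ips L z ψ (cj L t θ) =
                (starRingEnd ℂ) (∑ ψ ∈ d.XX θ, (e ψ : ℂ) * ips L z ψ θ) := by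
              rw [map_sum]
              refine Finset.sum_congr rfl fun ψ hψ => ?_
              rw [hcj ψ (d.mem_XX.mp hψ).1, map_mul, map_intCast]
            rw [h6, hrel, map_zero]
      have hrel2 : ∀ θ', IsIrr θ' → ∀ i : ℕ, (i = 1 ∨ i = 2) →
          ∑ ψ ∈ d.XX θ, (e ψ : ℂ) * ips L (z ^ i) ψ θ' = 0 := by
        intro θ' hθ' i hi
        rcases hi with rfl | rfl
        · rw [pow_one]
          exact hrel' θ' hθ'
        · have h6 : ∑ ψ ∈ d.XX θ, (e ψ : ℂ) * ips L (z ^ 2) ψ θ' =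
              (starRingEnd ℂ) (∑ ψ ∈ d.XX θ, (e ψ : ℂ) * ips L z ψ θ') := by
            rw [map_sum]
            refine Finset.sum_congr rfl fun ψ hψ => ?_
            rw [d.ips2 (d.mem_XX.mp hψ).1 hθ', map_mul, map_intCast]
          rw [h6, hrel' θ' hθ', map_zero]
      intro m hm
      obtain ⟨x, i, l, hi, hx⟩ := d.singular hm
      have h7 : ∀ ψ ∈ d.XX θ, (e ψ : ℂ) * ψ m =
          ∑ θ' ∈ IC.Irr L, (e ψ : ℂ) * ips L (z ^ i) ψ θ' * θ' l := by
        intro ψ hψ
        rw [d.val_sing (d.mem_XX.mp hψ).1 hx, Finset.mul_sum]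
        refine Finset.sum_congr rfl fun θ' _ => ?_
        ring
      rw [Finset.sum_congr rfl h7, Finset.sum_comm]
      apply Finset.sum_eq_zero
      intro θ' hθ'
      rw [← Finset.sum_mul, hrel2 θ' (IC.mem_Irr.mp hθ') i hi, zero_mul]

end uniq

end Dat

end Pool.Agent.Y62
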