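import Pool.Agent.Y62.Sec

/-!
Transport of irreducible characters, and central characters of class functions.
-/

set_option linter.style.haveILetI false
set_option linter.unusedSectionVars false

open scoped BigOperators Classical
open Pool.Agent.Helper884 Representation Pool.Agent.H254R3.IN

noncomputable section

namespace Pool.Agent.Y62

/-- irreducibility only depends on the operators up to scalars -/
lemma irr_transfer {G H V : Type} [Group G] [Group H] [AddCommGroup V] [Module ℂ V]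
    (ρ : Representation ℂ G V) (σ : Representation ℂ H V)
    (h1 : ∀ g, ∃ h, ∃ c : ℂ, ρ g = c • σ h) (h2 : ∀ h, ∃ g, ∃ c : ℂ, σ h = c • ρ g)
    (hr : ρ.IsIrreducible) : σ.IsIrreducible := by
  let f : Subrepresentation ρ ≃o Subrepresentation σ :=
    { toFun := fun S => ⟨S.toSubmodule, by
        intro h x hx
        obtain ⟨g, c, e⟩ := h2 h
        rw [e]
        exact S.toSubmodule.smul_mem c (S.apply_mem_toSubmodule g hx)⟩
      invFun := fun S => ⟨S.toSubmodule, by
        intro g x hx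
        obtain ⟨h, c, e⟩ := h1 g
        rw [e]
        exact S.toSubmodule.smul_mem c (S.apply_mem_toSubmodule h hx)⟩
      left_inv := fun S => rfl
      right_inv := fun S => rfl
      map_rel_iff' := by
        intro S S'
        exact Iff.rfl }
  exact (OrderIso.isSimpleOrder_iff f).1 hr

/-- transport along an isomorphism -/
lemma irr_comp {G H : Type} [Group G] [Group H] {χ : G → ℂ} (hχ : IsIrr χ) (e : H ≃* G) :
    IsIrr (fun h => χ (e h)) := by
  obtain ⟨V, _, _, _, ρ, hr, rfl⟩ := hχ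
  refine ⟨V, _, _, inferInstance, ρ.comp (e : H →* G), ?_, rfl⟩
  refine irr_transfer ρ _ (fun g => ⟨e.symm g, 1, ?_⟩) (fun h => ⟨e h, 1, ?_⟩) hr
  · rw [one_smul]
    change ρ g = ρ (e (e.symm g))
    rw [e.apply_symm_apply]
  · rw [one_smul]
    rfl

/-- twist by a linear character -/
lemma irr_twist {G : Type} [Group G] {χ : G → ℂ} (hχ : IsIrr χ) (l : G →* ℂˣ) :
    IsIrr (fun g => ((l g : ℂˣ) : ℂ) * χ g) := by
  obtain ⟨V, _, _, _, ρ, hr, rfl⟩ := hχ
  let σ : Representation ℂ G V :=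
    { toFun := fun g => ((l g : ℂˣ) : ℂ) • ρ g
      map_one' := by simp
      map_mul' := fun a b => by
        simp only [map_mul, Units.val_mul]
        rw [smul_mul_smul_comm] }
  have hσ : ∀ g, σ g = ((l g : ℂˣ) : ℂ) • ρ g := fun g => rfl
  refine ⟨V, _, _, inferInstance, σ, ?_, ?_⟩
  · refine irr_transfer ρ σ (fun g => ⟨g, ((l g : ℂˣ) : ℂ)⁻¹, ?_⟩)
      (fun g => ⟨g, ((l g : ℂˣ) : ℂ), rfl⟩) hr
    rw [hσ, smul_smul, inv_mul_cancel₀ (Units.ne_zero _), one_smul]
  · funext g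
    unfold Representation.character
    rw [hσ, map_smul, smul_eq_mul]

variable {G : Type} [Group G] [Fintype G]

lemma irr_mul_comm {χ : G → ℂ} (hχ : IsIrr χ) (a b : G) : χ (a * b) = χ (b * a) := by
  have h := hχ.conj (a * b) b
  rw [← h]
  congr 1
  group

/-- convolution with a class function is multiplication by a scalar -/
lemma conv_scalar {χ : G → ℂ} (hχ : IsIrr χ) {f : G → ℂ} (hf : IsCl f) (g : G) :
    ∑ x : G, f x * χ (x * g) = Om f χ * χ g := by
  obtain ⟨V, _, _, _, ρ, hr, rfl⟩ := hχ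
  have h1 := class_scalar ρ hr f hf
  have h2 := congrArg (fun T : V →ₗ[ℂ] V => LinearMap.trace ℂ V (T * ρ g)) h1
  simp only [Finset.sum_mul, smul_mul_assoc, map_sum, map_smul, smul_eq_mul] at h2
  have h3 : (LinearMap.id : V →ₗ[ℂ] V) * ρ g = ρ g := one_mul _
  rw [h3] at h2
  unfold Om
  refine Eq.trans ?_ h2
  refine Finset.sum_congr rfl fun x _ => ?_
  rw [← map_mul]
  rfl

lemma Om_classes {χ : G → ℂ} (hχ : IsIrr χ) {f : G → ℂ} (hf : IsCl f) :
    Om f χ = ∑ K : ConjClasses G, f (rep K) * omega χ (rep K) := by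
  unfold Om
  rw [sum_classes, Finset.sum_div]
  refine Finset.sum_congr rfl fun K _ => ?_
  rw [Finset.sum_congr rfl (g := fun _ => f (rep K) * χ (rep K)) (fun g hg => by
    have hc := (Finset.mem_filter.mp hg).2
    rw [← hf.isConj hc, ← hχ.isConj hc]), Finset.sum_const, nsmul_eq_mul]
  have h2 : (Finset.univ.filter (fun g => IsConj (rep K) g)).card =
      Nat.card {y : G // IsConj (rep K) y} := by
    rw [Nat.card_eq_fintype_card, Fintype.card_subtype]
  rw [h2]
  unfold omega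
  ring

section mem

variable {O : ValuationSubring ℂ}

lemma Om_mem {χ : G → ℂ} (hχ : IsIrr χ) {f : G → ℂ} (hf : IsCl f) (hO : ∀ g, f g ∈ O) :
    Om f χ ∈ O := by
  rw [Om_classes hχ hf]
  exact sum_mem fun K _ => O.mul_mem _ _ (hO _) (hχ.omega_mem O _)

lemma Om_red {χ : G → ℂ} (hχ : IsIrr χ) {f : G → ℂ} (hf : IsCl f) (hO : ∀ g, f g ∈ O) :
    red O (Om f χ) = ∑ K : ConjClasses G, red O (f (rep K)) * red O (omega χ (rep K)) := by
  rw [Om_classes hχ hf, red_sum _ _ (fun K _ => O.mul_mem _ _ (hO _) (hχ.omega_mem O _))]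
  refine Finset.sum_congr rfl fun K _ => ?_
  rw [red_mul (hO _) (hχ.omega_mem O _)]

lemma Om_red_congr {χ : G → ℂ} (hχ : IsIrr χ) {f h : G → ℂ} (hf : IsCl f) (hh : IsCl h)
    (hO : ∀ g, f g ∈ O) (hO' : ∀ g, h g ∈ O) (hfh : ∀ g, red O (f g) = red O (h g)) :
    red O (Om f χ) = red O (Om h χ) := by
  rw [Om_red hχ hf hO, Om_red hχ hh hO']
  refine Finset.sum_congr rfl fun K _ => ?_
  rw [hfh]

/-- the idempotent class function of an irreducible character -/
def idem (χ : G → ℂ) (g : G) : ℂ := χ 1 * (Nat.card G : ℂ)⁻¹ * χ g⁻¹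

lemma idem_cl {χ : G → ℂ} (hχ : IsIrr χ) : IsCl (idem χ) := by
  intro g y
  unfold idem
  have e : (y * g * y⁻¹)⁻¹ = y * g⁻¹ * y⁻¹ := by group
  rw [e, hχ.conj]

lemma Om_idem {χ ψ : G → ℂ} (hχ : IsIrr χ) (hψ : IsIrr ψ) :
    Om (idem χ) ψ = if ψ = χ then 1 else 0 := by
  have h1 : Om (idem χ) ψ = χ 1 / ψ 1 * ((Nat.card G : ℂ)⁻¹ * ∑ g : G, ψ g * χ g⁻¹) := by
    unfold Om idem
    rw [Finset.mul_sum, Finset.mul_sum, Finset.sum_div]
    refine Finset.sum_congr rfl fun g _ => ?_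
    ring
  rw [h1, irr_orth hψ hχ]
  split_ifs with h
  · rw [h, mul_one, div_self hχ.one_ne]
  · rw [mul_zero]

end mem

end Pool.Agent.Y62
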