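import Pool.Agent.Y62.Chain

/-!
The averaged bound for the number of characters with non-zero multiplicity at `y`.
-/

set_option linter.style.haveILetI false
set_option linter.unusedSectionVars false

open scoped BigOperators Classical
open Pool.Agent.Helper884 Representation Pool.Agent.H254R3.IN

noncomputable section

namespace Pool.Agent.Y62

variable {G : Type} [Group G] [Fintype G]

/-- norm of an integral combination of irreducible characters -/
lemma norm_comb {H : Type} [Group H] [Fintype H] (X : Finset (H → ℂ)) (hX : ∀ ψ ∈ X, IsIrr ψ)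
    (e : (H → ℂ) → ℤ) : ∑ h : H, ‖∑ ψ ∈ X, (e ψ : ℂ) * ψ h‖ ^ 2 =
      Nat.card H * ∑ ψ ∈ X, (e ψ : ℝ) ^ 2 := by
  apply Complex.ofReal_injective
  push_cast
  simp only [← Complex.mul_conj', map_sum, map_mul, map_intCast]
  have hH0 : (Nat.card H : ℂ) ≠ 0 := by exact_mod_cast Nat.card_pos.ne'
  have h1 : ∀ ψ ∈ X, ∀ ψ' ∈ X, ∑ h : H, ψ h * (starRingEnd ℂ) (ψ' h) =
      if ψ = ψ' then (Nat.card H : ℂ) else 0 := by
    intro ψ hψ ψ' hψ'
    have h2 := irr_orth (hX ψ hψ) (hX ψ' hψ')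
    simp only [conj_char (hX ψ' hψ')] at h2
    rw [inv_mul_eq_iff_eq_mul₀ hH0] at h2
    rw [h2]
    split_ifs
    · rw [mul_one]
    · rw [mul_zero]
  calc ∑ h : H, (∑ ψ ∈ X, (e ψ : ℂ) * ψ h) * ∑ ψ ∈ X, (e ψ : ℂ) * (starRingEnd ℂ) (ψ h)
      = ∑ ψ ∈ X, ∑ ψ' ∈ X, (e ψ : ℂ) * e ψ' * ∑ h : H, ψ h * (starRingEnd ℂ) (ψ' h) := by
        simp only [Finset.sum_mul_sum]
        rw [Finset.sum_comm]
        refine Finset.sum_congr rfl fun ψ _ => ?_
        rw [Finset.sum_comm]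
        refine Finset.sum_congr rfl fun ψ' _ => ?_
        rw [Finset.mul_sum]
        refine Finset.sum_congr rfl fun h _ => ?_
        ring
    _ = ∑ ψ ∈ X, (e ψ : ℂ) * e ψ * Nat.card H := by
        refine Finset.sum_congr rfl fun ψ hψ => ?_
        rw [Finset.sum_eq_single ψ]
        · rw [h1 ψ hψ ψ hψ, if_pos rfl]
        · intro ψ' hψ' hne
          rw [h1 ψ hψ ψ' hψ', if_neg (fun h => hne h.symm), mul_zero]
        · intro h
          exact absurd hψ h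
    _ = _ := by
        rw [Finset.mul_sum]
        refine Finset.sum_congr rfl fun ψ _ => ?_
        ring

lemma sum_ext0_norm {L : Subgroup G} (θ : L → ℂ) :
    ∑ x : G, ‖ext0 L θ x‖ ^ 2 = ∑ l : L, ‖θ l‖ ^ 2 := by
  apply Complex.ofReal_injective
  push_cast
  exact sum_ext0 θ (fun _ t => (‖t‖ : ℂ) ^ 2) (fun _ => by simp)

lemma av_ext0_comb {H : Subgroup G} (X : Finset (H → ℂ)) (hX : ∀ ψ ∈ X, IsIrr ψ)
    (e : (H → ℂ) → ℤ) (y : G) (χ : G → ℂ) :
    av y (ext0 H (fun h => ∑ ψ ∈ X, (e ψ : ℂ) * ψ h)) χ =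
      Nat.card H * (starRingEnd ℂ) (∑ ψ ∈ X, (e ψ : ℂ) * ips H y χ ψ) := by
  unfold av
  rw [sum_ext0 _ (fun x t => t * (starRingEnd ℂ) (χ (y * x))) (fun x => zero_mul _)]
  simp only [map_sum, map_mul, map_intCast, Finset.mul_sum, Finset.sum_mul]
  rw [Finset.sum_comm]
  refine Finset.sum_congr rfl fun ψ hψ => ?_
  have hL0 : (Nat.card H : ℂ) ≠ 0 := by exact_mod_cast Nat.card_pos.ne'
  unfold ips
  rw [map_mul, map_inv₀, map_natCast, map_sum]
  have h1 : (Nat.card H : ℂ) * ((e ψ : ℂ) * ((Nat.card H : ℂ)⁻¹ *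
      ∑ x : H, (starRingEnd ℂ) (χ (y * (x : G)) * ψ x⁻¹))) =
      e ψ * ∑ x : H, (starRingEnd ℂ) (χ (y * (x : G)) * ψ x⁻¹) := by
    field_simp
  rw [h1, Finset.mul_sum]
  refine Finset.sum_congr rfl fun l _ => ?_
  rw [map_mul, conj_char (hX ψ hψ), Complex.conj_conj]
  ring

lemma card_filter_three (q : ℕ) : ((Finset.range (3 * q)).filter (fun t => ¬ 3 ∣ t)).card = 2 * q := by
  induction q with
  | zero => simp
  | succ q ih =>
    have h1 : 3 * (q + 1) = 3 * q + 1 + 1 + 1 := by ring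
    rw [h1, Finset.range_add_one, Finset.range_add_one, Finset.range_add_one,
      Finset.filter_insert, Finset.filter_insert, Finset.filter_insert, if_pos (by omega),
      if_pos (by omega), if_neg (by omega), Finset.card_insert_of_notMem, Finset.card_insert_of_notMem,
      ih]
    · ring
    · simp
    · simp

lemma centralizer_pow {y : G} {k : ℕ} (hk : orderOf y = 3 ^ k) {t : ℕ} (ht : ¬ 3 ∣ t) :
    Subgroup.centralizer ({y ^ t} : Set G) = Subgroup.centralizer ({y} : Set G) := by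
  have hcop : Nat.Coprime (orderOf y) t := by
    rw [hk]
    exact Nat.Coprime.pow_left k ((Nat.Prime.coprime_iff_not_dvd Nat.prime_three).mpr ht)
  have hy : y ∈ Subgroup.zpowers (y ^ t) := by
    obtain ⟨m, hm⟩ := exists_pow_eq_self_of_coprime hcop.symm
    exact ⟨(m : ℤ), by rw [← hm]; simp [hm]⟩
  ext x
  rw [Subgroup.mem_centralizer_iff, Subgroup.mem_centralizer_iff]
  simp only [Set.mem_singleton_iff, forall_eq]
  constructor
  · intro h
    obtain ⟨m, hm⟩ := Subgroup.mem_zpowers_iff.mp hy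
    have h1 : Commute (y ^ t) x := h
    have h2 := h1.zpow_left m
    rw [hm] at h2
    exact h2.eq
  · intro h
    have h1 : Commute y x := h
    exact (h1.pow_left t).eq

/-- **the averaged bound** -/
theorem cnt_bound {y : G} {k : ℕ} (hk : orderOf y = 3 ^ (k + 1)) {H : Subgroup G}
    (hy : ∀ h ∈ H, Commute y h) (X : Finset (H → ℂ)) (hX : ∀ ψ ∈ X, IsIrr ψ) (e : (H → ℂ) → ℤ)
    (hreg : ∀ h : H, 3 ∣ orderOf (h : G) → ∑ ψ ∈ X, (e ψ : ℂ) * ψ h = 0) (T : Finset (G → ℂ))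
    (hT : ∀ χ ∈ T, IsIrr χ ∧ ∑ ψ ∈ X, (e ψ : ℂ) * ips H y χ ψ ≠ 0) :
    (T.card : ℝ) * Nat.card H ≤
      Nat.card (Subgroup.centralizer ({y} : Set G)) * ∑ ψ ∈ X, (e ψ : ℝ) ^ 2 := by
  obtain ⟨lam, hlam⟩ := exists_l y
  have hζ := prim_root lam hlam
  set ζ : ℂ := ((lam (yy y) : ℂˣ) : ℂ) with hζdef
  set q : ℕ := 3 ^ k with hq
  have hq0 : q ≠ 0 := pow_ne_zero _ (by norm_num)
  have hord : orderOf y = 3 * q := by rw [hk, pow_succ, hq]; ring
  rw [hord] at hζ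
  set a : ℕ → (G → ℂ) → ℂ := fun t χ => ∑ ψ ∈ X, (e ψ : ℂ) * ips H (y ^ t) χ ψ with ha
  set E : ℝ := ∑ ψ ∈ X, (e ψ : ℝ) ^ 2 with hE
  have hHpos : (0 : ℝ) < Nat.card H := by exact_mod_cast Nat.card_pos
  -- bound for each t
  have hbd : ∀ t : ℕ, ¬ 3 ∣ t → (Nat.card H : ℝ) * ∑ χ ∈ T, ‖a t χ‖ ^ 2 ≤
      Nat.card (Subgroup.centralizer ({y} : Set G)) * E := by
    intro t ht
    have hkt : ∃ k', orderOf (y ^ t) = 3 ^ k' := by
      have h1 : orderOf (y ^ t) ∣ 3 ^ (k + 1) := by rw [← hk]; exact orderOf_pow_dvd t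
      obtain ⟨j, _, hj⟩ := (Nat.dvd_prime_pow Nat.prime_three).mp h1
      exact ⟨j, hj⟩
    obtain ⟨k', hk'⟩ := hkt
    have hsupp : Supp 3 (y ^ t) (ext0 H (fun h => ∑ ψ ∈ X, (e ψ : ℂ) * ψ h)) := by
      intro s hs
      by_cases hsH : s ∈ H
      · refine ⟨(hy s hsH).pow_left t, fun h3 => hs ?_⟩
        rw [ext0_mem _ hsH]
        exact hreg ⟨s, hsH⟩ h3
      · exact absurd (ext0_not _ hsH) hs
    have h1 := sec_bound (p := 3) hk' hsupp
    rw [centralizer_pow hk ht, sum_ext0_norm, norm_comb X hX e, ← hE] at h1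
    simp only [av_ext0_comb X hX e, norm_mul, Complex.norm_natCast, RCLike.norm_conj, mul_pow] at h1
    have h2 : ∑ χ ∈ T, (Nat.card H : ℝ) ^ 2 * ‖a t χ‖ ^ 2 ≤
        ∑ χ ∈ IC.Irr G, (Nat.card H : ℝ) ^ 2 * ‖a t χ‖ ^ 2 :=
      Finset.sum_le_sum_of_subset_of_nonneg (fun χ hχ => IC.mem_Irr.mpr (hT χ hχ).1)
        (fun _ _ _ => by positivity)
    rw [← Finset.mul_sum] at h2
    have h3 := h2.trans h1
    have h4 : (Nat.card H : ℝ) * ((Nat.card H : ℝ) * ∑ χ ∈ T, ‖a t χ‖ ^ 2) ≤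
        Nat.card H * (Nat.card (Subgroup.centralizer ({y} : Set G)) * E) := by
      calc (Nat.card H : ℝ) * ((Nat.card H : ℝ) * ∑ χ ∈ T, ‖a t χ‖ ^ 2)
          = (Nat.card H : ℝ) ^ 2 * ∑ χ ∈ T, ‖a t χ‖ ^ 2 := by ring
        _ ≤ _ := h3
        _ = _ := by ring
    exact le_of_mul_le_mul_left h4 hHpos
  -- lower bound for each character
  have hlow : ∀ χ ∈ T, (2 * q : ℝ) ≤
      ∑ t ∈ (Finset.range (3 * q)).filter (fun t => ¬ 3 ∣ t), ‖a t χ‖ ^ 2 := by
    intro χ hχ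
    obtain ⟨hi, hne⟩ := hT χ hχ
    have hex : ∀ ψ ∈ X, ∃ n : ℕ → ℕ, ∀ t : ℕ, ips H (y ^ t) χ ψ =
        ∑ j ∈ Finset.range (3 * q), (n j : ℂ) * ζ ^ (t * j) := by
      intro ψ hψ
      have := ips_fourier hi hy (hX ψ hψ) lam hlam
      rwa [hord] at this
    let nn : (H → ℂ) → ℕ → ℕ := fun ψ =>
      if h : ψ ∈ X then Classical.choose (hex ψ h) else fun _ => 0
    have hnn : ∀ ψ ∈ X, ∀ t : ℕ, ips H (y ^ t) χ ψ =
        ∑ j ∈ Finset.range (3 * q), (nn ψ j : ℂ) * ζ ^ (t * j) := by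
      intro ψ hψ
      have h1 : nn ψ = Classical.choose (hex ψ hψ) := dif_pos hψ
      rw [h1]
      exact Classical.choose_spec (hex ψ hψ)
    have hat : ∀ t, a t χ = ∑ j ∈ Finset.range (3 * q),
        ((∑ ψ ∈ X, e ψ * (nn ψ j : ℤ) : ℤ) : ℂ) * ζ ^ (t * j) := by
      intro t
      rw [ha]
      dsimp only
      rw [Finset.sum_congr rfl (fun ψ hψ => by rw [hnn ψ hψ t])]
      push_cast
      simp only [Finset.mul_sum, Finset.sum_mul]
      rw [Finset.sum_comm]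
      refine Finset.sum_congr rfl fun j _ => Finset.sum_congr rfl fun ψ _ => ?_
      ring
    have h1 := avg_ge hq0 hζ (fun j => ∑ ψ ∈ X, e ψ * (nn ψ j : ℤ)) (by
      have h2 := hat 1
      simp only [one_mul] at h2
      rw [← h2, ha]
      dsimp only
      rw [pow_one]
      exact hne)
    simp only [← hat] at h1
    exact h1
  -- put together
  have h1 : (T.card : ℝ) * (2 * q) ≤
      ∑ t ∈ (Finset.range (3 * q)).filter (fun t => ¬ 3 ∣ t), ∑ χ ∈ T, ‖a t χ‖ ^ 2 := by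
    rw [Finset.sum_comm]
    have := Finset.card_nsmul_le_sum T _ _ hlow
    rwa [nsmul_eq_mul] at this
  have h2 : (Nat.card H : ℝ) * ∑ t ∈ (Finset.range (3 * q)).filter (fun t => ¬ 3 ∣ t),
      ∑ χ ∈ T, ‖a t χ‖ ^ 2 ≤ (2 * q) * (Nat.card (Subgroup.centralizer ({y} : Set G)) * E) := by
    rw [Finset.mul_sum]
    have h3 := Finset.sum_le_card_nsmul ((Finset.range (3 * q)).filter (fun t => ¬ 3 ∣ t))
      (fun t => (Nat.card H : ℝ) * ∑ χ ∈ T, ‖a t χ‖ ^ 2)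
      (Nat.card (Subgroup.centralizer ({y} : Set G)) * E)
      (fun t ht => hbd t (Finset.mem_filter.mp ht).2)
    rw [card_filter_three, nsmul_eq_mul] at h3
    push_cast at h3
    exact h3
  have h3 : (2 * q : ℝ) * ((T.card : ℝ) * Nat.card H) ≤
      (2 * q) * (Nat.card (Subgroup.centralizer ({y} : Set G)) * E) := by
    calc (2 * q : ℝ) * ((T.card : ℝ) * Nat.card H) = Nat.card H * ((T.card : ℝ) * (2 * q)) := by ring
      _ ≤ Nat.card H * _ := mul_le_mul_of_nonneg_left h1 hHpos.le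
      _ ≤ _ := h2
  have hqpos : (0 : ℝ) < 2 * q := by
    have : (0 : ℝ) < q := by exact_mod_cast Nat.pos_of_ne_zero hq0
    linarith
  exact le_of_mul_le_mul_left h3 hqpos

end Pool.Agent.Y62
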