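import Pool.Agent.Y62.UB1

/-!
The upper bound for the number of characters of height zero, and the count.
-/

set_option linter.style.haveILetI false
set_option linter.unusedSectionVars false

open scoped BigOperators Classical
open Pool.Agent.Helper884 Representation Pool.Agent.H254R3.IN

noncomputable section

namespace Pool.Agent.Y62

variable {G : Type} [Group G] [Fintype G]

/-- expansion of the inner products in stages -/
lemma ips_stages {M L : Subgroup G} (hLM : L ≤ M) {χ : G → ℂ} (hχ : IsIrr χ) (θ : L → ℂ) :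
    ips L 1 χ θ = ∑ ψ ∈ IC.Irr M, ips M 1 χ ψ *
      ips (L.subgroupOf M) 1 ψ (fun l => θ (Subgroup.subgroupOfEquivOfLe hLM l)) := by
  rw [ips_equiv (Subgroup.subgroupOfEquivOfLe hLM)]
  have h1 : ∀ k : L.subgroupOf M, χ (1 * ((Subgroup.subgroupOfEquivOfLe hLM k : L) : G)) =
      ∑ ψ ∈ IC.Irr M, ips M 1 χ ψ * ψ (1 * (k : M)) := by
    intro k
    have h2 := val_expand hχ (H := M) (y := (1 : G)) (fun h _ => Commute.one_left h) (k : M)
    rw [one_mul (k : M)]
    exact h2
  simp only [h1]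
  unfold ips
  simp only [Finset.mul_sum, Finset.sum_mul]
  rw [Finset.sum_comm]
  refine Finset.sum_congr rfl fun ψ _ => ?_
  refine Finset.sum_congr rfl fun l _ => ?_
  refine Finset.sum_congr rfl fun k _ => ?_
  ring

/-- three numbers, not all equal -/
lemma pair_count {ι : Type} (T : Finset ι) (u v w : ι → ℂ)
    (h : ∀ i ∈ T, ¬ (u i = v i ∧ v i = w i)) :
    2 * T.card ≤ (T.filter (fun i => u i - v i ≠ 0)).card + (T.filter (fun i => v i - w i ≠ 0)).card +
      (T.filter (fun i => u i - w i ≠ 0)).card := by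
  simp only [Finset.card_filter]
  rw [← Finset.sum_add_distrib, ← Finset.sum_add_distrib, mul_comm, ← smul_eq_mul,
    ← Finset.sum_const]
  apply Finset.sum_le_sum
  intro i hi
  have h1 := h i hi
  by_cases h2 : u i = v i
  · have h3 : v i ≠ w i := fun h3 => h1 ⟨h2, h3⟩
    have h4 : u i ≠ w i := by rw [h2]; exact h3
    rw [if_neg (by rw [not_not]; exact sub_eq_zero.mpr h2), if_pos (sub_ne_zero.mpr h3),
      if_pos (sub_ne_zero.mpr h4)]
  · by_cases h3 : v i = w i
    · have h4 : u i ≠ w i := by rw [← h3]; exact h2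
      rw [if_pos (sub_ne_zero.mpr h2), if_neg (by rw [not_not]; exact sub_eq_zero.mpr h3),
        if_pos (sub_ne_zero.mpr h4)]
    · rw [if_pos (sub_ne_zero.mpr h2), if_pos (sub_ne_zero.mpr h3)]
      split_ifs <;> norm_num

namespace Core

variable {O : ValuationSubring ℂ} {N D : Subgroup G} {y : G} {B : Set (G → ℂ)}
  (c : Core O N D y B)

include c

lemma ord_pos : ∃ k, orderOf y = 3 ^ (k + 1) := by
  obtain ⟨k, hk⟩ := c.ord_y
  have hk0 : k ≠ 0 := by
    rintro rfl
    rw [pow_zero] at hk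
    have h1 := orderOf_eq_one_iff.mp hk
    have h2 := c.hgen
    rw [h1, Subgroup.zpowers_one_eq_bot, sup_bot_eq] at h2
    exact c.hNt h2
  obtain ⟨j, rfl⟩ := Nat.exists_eq_succ_of_ne_zero hk0
  exact ⟨j, hk⟩

lemma card_cent_y : Nat.card (Subgroup.centralizer ({y} : Set G)) =
    N.index * Nat.card (Subgroup.centralizer ({y} : Set G) ⊓ N : Subgroup G) := by
  obtain ⟨l, hl⟩ := c.exists_lin
  set C := Subgroup.centralizer ({y} : Set G) with hC
  set lC : C →* ℂˣ := l.comp C.subtype with hlC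
  have hyC : y ∈ C := by
    rw [hC, Subgroup.mem_centralizer_iff]
    simp
  have hr : lC.range = Subgroup.zpowers (l y) := by
    ext x
    constructor
    · rintro ⟨g, rfl⟩
      obtain ⟨n, hn, i, h⟩ := c.gen (g : G)
      rw [hlC, MonoidHom.comp_apply, Subgroup.subtype_apply, ← h, map_mul, (hl n).mpr hn, one_mul,
        map_zpow]
      exact Subgroup.zpow_mem _ (Subgroup.mem_zpowers _) i
    · intro hx
      obtain ⟨i, rfl⟩ := Subgroup.mem_zpowers_iff.mp hx
      exact ⟨⟨y, hyC⟩ ^ i, by rw [map_zpow]; rfl⟩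
  have h1 : lC.ker.index = N.index := by
    rw [Subgroup.index_ker, hr, Nat.card_zpowers, c.index_N hl]
  have h2 := Subgroup.card_mul_index lC.ker
  rw [h1] at h2
  have h3 : lC.ker = N.subgroupOf C := by
    ext x
    rw [MonoidHom.mem_ker, Subgroup.mem_subgroupOf, hlC, MonoidHom.comp_apply,
      Subgroup.subtype_apply]
    exact hl x
  have h4 : Nat.card lC.ker = Nat.card (C ⊓ N : Subgroup G) := by
    rw [h3, ← Subgroup.inf_subgroupOf_left]
    exact Nat.card_congr (Subgroup.subgroupOfEquivOfLe inf_le_left).toEquiv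
  rw [← h2, h4, mul_comm]

/-- **Upper bound** -/
theorem upper (T : Finset (G → ℂ)) (hTS : ∀ χ ∈ T, χ ∈ S0 O D B) : T.card ≤ 3 * N.index := by
  obtain ⟨k, hk⟩ := c.ord_pos
  obtain ⟨z, L, hz, hzN, hzD, hyz, hL, θ, hθ, hθ0⟩ := c.exists_theta
  set M : Subgroup G := Subgroup.centralizer ({y} : Set G) ⊓ N with hM
  have hcy : ∀ x, x ∈ Subgroup.centralizer ({y} : Set G) ↔ Commute y x := by
    intro x
    rw [Subgroup.mem_centralizer_iff]
    simp only [Set.mem_singleton_iff, forall_eq]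
    exact Iff.rfl
  have hzM : z ∈ M := ⟨(hcy z).mpr hyz, hzN⟩
  have hLM : L ≤ M := by
    intro s hs
    have h1 := (hL s).mp hs
    exact ⟨(hcy s).mpr h1.1, c.regular_mem_N h1.2.2⟩
  have hyM : ∀ h ∈ M, Commute y h := fun h hh => (hcy h).mp hh.1
  have d : Dat M ⟨z, hzM⟩ (L.subgroupOf M) :=
    { hz := by rw [← Subgroup.orderOf_coe]; exact hz
      h9 := c.h9
      hL := by
        intro s
        rw [Subgroup.mem_subgroupOf, hL, ← Subgroup.orderOf_coe]
        constructor
        · rintro ⟨_, h2, h3⟩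
          exact ⟨Subtype.ext h2.eq, h3⟩
        · rintro ⟨h2, h3⟩
          exact ⟨hyM s s.2, congrArg Subtype.val h2.eq, h3⟩ }
  set θ' : L.subgroupOf M → ℂ := fun l => θ (Subgroup.subgroupOfEquivOfLe hLM l) with hθ'
  have hθ'irr : IsIrr θ' := irr_comp hθ _
  obtain ⟨X, hX3, hXi, e, he, hX0, hX1, hX2⟩ := d.main c.hO hθ'irr
  -- the multiplicities
  have hred : ∀ χ ∈ T, red O (∑ ψ ∈ X, (e ψ : ℂ) * ips M y χ ψ) ≠ 0 ∧
      ∀ ψ ∈ X, (e ψ : ℂ) * ips M y χ ψ ∈ O := by
    intro χ hχ
    have hi := c.irr (hTS χ hχ).1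
    have hm : ∀ ψ, IsIrr ψ → ips M y χ ψ ∈ O ∧ ips M 1 χ ψ ∈ O ∧
        red O (ips M y χ ψ) = red O (ips M 1 χ ψ) := by
      intro ψ hψ
      have h1 := ips_red (p := 3) c.hO hi hyM hk hψ 1
      have h0 := ips_red (p := 3) c.hO hi hyM hk hψ 0
      rw [pow_one] at h1
      rw [pow_zero] at h0
      exact ⟨h1.1, h0.1, h1.2⟩
    have hl : ∀ ψ, IsIrr ψ → ips (L.subgroupOf M) 1 ψ θ' ∈ O := by
      intro ψ hψ
      have h1 := ips_red (p := 3) (O := O) c.hO hψ (H := L.subgroupOf M) (y := (1 : M))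
        (fun h _ => Commute.one_left h) (k := 0) (by rw [orderOf_one, pow_zero]) hθ'irr 1
      rw [pow_one] at h1
      exact h1.1
    have hint : ∀ n : ℤ, (n : ℂ) ∈ O := fun n => intCast_mem' n
    refine ⟨?_, fun ψ hψ => O.mul_mem _ _ (hint _) (hm ψ (hXi ψ hψ)).1⟩
    have h1 := hθ0 χ (hTS χ hχ)
    rw [ips_stages hLM hi, red_sum _ _ (fun ψ hψ => O.mul_mem _ _ (hm ψ (IC.mem_Irr.mp hψ)).2.1
      (hl ψ (IC.mem_Irr.mp hψ)))] at h1
    rw [red_sum _ _ (fun ψ hψ => O.mul_mem _ _ (hint _) (hm ψ (hXi ψ hψ)).1)]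
    have h2 : ∑ ψ ∈ X, red O ((e ψ : ℂ) * ips M y χ ψ) =
        ∑ ψ ∈ IC.Irr M, red O (ips M 1 χ ψ * ips (L.subgroupOf M) 1 ψ θ') := by
      rw [← Finset.sum_subset (s₁ := X) (fun ψ hψ => IC.mem_Irr.mpr (hXi ψ hψ))]
      · refine Finset.sum_congr rfl fun ψ hψ => ?_
        rw [red_mul (hint _) (hm ψ (hXi ψ hψ)).1, red_mul (hm ψ (hXi ψ hψ)).2.1 (hl ψ (hXi ψ hψ)),
          hX1 ψ hψ, (hm ψ (hXi ψ hψ)).2.2, mul_comm]
      · intro ψ hψ hψX
        rw [red_mul (hm ψ (IC.mem_Irr.mp hψ)).2.1 (hl ψ (IC.mem_Irr.mp hψ)),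
          hX0 ψ (IC.mem_Irr.mp hψ) hψX, mul_zero]
    rw [h2]
    exact h1
  have hne : ∀ χ ∈ T, ∑ ψ ∈ X, (e ψ : ℂ) * ips M y χ ψ ≠ 0 := by
    intro χ hχ h
    apply (hred χ hχ).1
    rw [h, red_zero]
  have he2 : ∀ ψ ∈ X, (e ψ : ℝ) ^ 2 = 1 := by
    intro ψ hψ
    rcases he ψ hψ with h | h <;> rw [h] <;> norm_num
  have hord : ∀ h : M, 3 ∣ orderOf (h : G) → 3 ∣ orderOf h := by
    intro h hh
    rwa [Subgroup.orderOf_coe] at hh
  have hMpos : (0 : ℝ) < Nat.card M := by exact_mod_cast Nat.card_pos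
  -- the bound
  have key : (T.card : ℝ) * Nat.card M ≤ Nat.card (Subgroup.centralizer ({y} : Set G)) * 3 := by
    rcases hX2 with halt | halt
    · obtain ⟨a, b, f, hab, haf, hbf, hXabf⟩ := Finset.card_eq_three.mp hX3
      have haX : a ∈ X := by rw [hXabf]; simp
      have hbX : b ∈ X := by rw [hXabf]; simp
      have hfX : f ∈ X := by rw [hXabf]; simp
      -- bound for one pair
      have hpair : ∀ a ∈ X, ∀ b ∈ X, a ≠ b →
          (((T.filter (fun χ => (e a : ℂ) * ips M y χ a - (e b : ℂ) * ips M y χ b ≠ 0)).card : ℝ)) *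
            Nat.card M ≤ Nat.card (Subgroup.centralizer ({y} : Set G)) * 2 := by
        intro a ha b hb hab
        have h1 := cnt_bound hk hyM ({a, b} : Finset (M → ℂ)) (by
            intro ψ hψ
            rcases Finset.mem_insert.mp hψ with rfl | h
            · exact hXi _ ha
            · rw [Finset.mem_singleton.mp h]
              exact hXi _ hb)
          (fun ψ => if ψ = a then e a else - e b) (by
            intro h hh
            rw [Finset.sum_pair hab, if_pos rfl, if_neg hab.symm]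
            have := halt a ha b hb h (hord h hh)
            push_cast
            rw [neg_mul, ← sub_eq_add_neg, sub_eq_zero]
            exact this)
          (T.filter (fun χ => (e a : ℂ) * ips M y χ a - (e b : ℂ) * ips M y χ b ≠ 0)) (by
            intro χ hχ
            obtain ⟨h2, h3⟩ := Finset.mem_filter.mp hχ
            refine ⟨c.irr (hTS χ h2).1, ?_⟩
            rw [Finset.sum_pair hab, if_pos rfl, if_neg hab.symm]
            push_cast
            rw [neg_mul, ← sub_eq_add_neg]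
            exact h3)
        rw [Finset.sum_pair hab, if_pos rfl, if_neg hab.symm] at h1
        have h4 : ((e a : ℤ) : ℝ) ^ 2 + ((- e b : ℤ) : ℝ) ^ 2 = 2 := by
          push_cast
          rw [neg_sq, he2 a ha, he2 b hb]
          norm_num
        rw [h4] at h1
        exact h1
      have h1 := hpair a haX b hbX hab
      have h2 := hpair b hbX f hfX hbf
      have h3 := hpair a haX f hfX haf
      have h4 := pair_count T (fun χ => (e a : ℂ) * ips M y χ a) (fun χ => (e b : ℂ) * ips M y χ b)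
        (fun χ => (e f : ℂ) * ips M y χ f) (by
          rintro χ hχ ⟨h5, h6⟩
          apply (hred χ hχ).1
          have h7 : ∑ ψ ∈ X, (e ψ : ℂ) * ips M y χ ψ = ((3 : ℕ) : ℂ) * ((e f : ℂ) * ips M y χ f) := by
            rw [hXabf, Finset.sum_insert (by simp [hab, haf]), Finset.sum_pair hbf]
            rw [h5, h6]
            push_cast
            ring
          rw [h7, red_mul (natCast_mem' 3) ((hred χ hχ).2 f hfX), red_eq_zero c.hO, zero_mul])
      have h5 : (2 : ℝ) * T.card ≤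
          ((T.filter (fun χ => (e a : ℂ) * ips M y χ a - (e b : ℂ) * ips M y χ b ≠ 0)).card : ℝ) +
          (T.filter (fun χ => (e b : ℂ) * ips M y χ b - (e f : ℂ) * ips M y χ f ≠ 0)).card +
          (T.filter (fun χ => (e a : ℂ) * ips M y χ a - (e f : ℂ) * ips M y χ f ≠ 0)).card := by
        exact_mod_cast h4
      have h6 := mul_le_mul_of_nonneg_right h5 hMpos.le
      nlinarith [h1, h2, h3, h6]
    · have h1 := cnt_bound hk hyM X hXi e (fun h hh => halt h (hord h hh)) T
        (fun χ hχ => ⟨c.irr (hTS χ hχ).1, hne χ hχ⟩)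
      rw [Finset.sum_congr rfl he2] at h1
      simp only [Finset.sum_const, hX3, nsmul_eq_mul, mul_one] at h1
      exact_mod_cast h1
  have h1 := c.card_cent_y
  have h2 : (Nat.card (Subgroup.centralizer ({y} : Set G)) : ℝ) = N.index * Nat.card M := by
    exact_mod_cast h1
  rw [h2] at key
  have h3 : (T.card : ℝ) * Nat.card M ≤ (3 * N.index : ℝ) * Nat.card M := by
    calc (T.card : ℝ) * Nat.card M ≤ _ := key
      _ = _ := by ring
  have h4 := le_of_mul_le_mul_right h3 hMpos
  exact_mod_cast h4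

/-- **The count** of the characters of height zero. -/
theorem count : ((XB B).filter (fun χ => red O (uu D χ) ≠ 0)).card = 3 * N.index := by
  have h1 := c.dvd_count
  have h2 : ((XB B).filter (fun χ => red O (uu D χ) ≠ 0)).card ≤ 3 * N.index := by
    apply c.upper
    intro χ hχ
    obtain ⟨h3, h4⟩ := Finset.mem_filter.mp hχ
    exact ⟨(Finset.mem_filter.mp h3).2, h4⟩
  have h3 : 0 < ((XB B).filter (fun χ => red O (uu D χ) ≠ 0)).card := by
    obtain ⟨χ, hχ, h⟩ := c.hne
    exact Finset.card_pos.mpr ⟨χ, Finset.mem_filter.mpr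
      ⟨Finset.mem_filter.mpr ⟨mem_Irr.mpr (c.irr hχ), hχ⟩, h⟩⟩
  exact le_antisymm h2 (Nat.le_of_dvd h3 h1)

end Core

end Pool.Agent.Y62
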